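import Pool.Agent.RDisj.Stmts

/-!
# ABL: many sparse assigned rounds force many later ones after noise rounds
-/

set_option autoImplicit false

namespace Pool.Agent.RDisj

open Pool.Agent.PT Pool.Agent.OnlineDisj

namespace ABL

/-- the sum of the `p`-th powers of `1, …, k` -/
def sumpow (p : ℕ) : ℕ → ℕ
  | 0 => 0
  | k + 1 => sumpow p k + (k + 1) ^ p

theorem sumpow_mono (p : ℕ) : Monotone (sumpow p) :=
  monotone_nat_of_le_succ fun k => by
    show sumpow p k ≤ sumpow p k + (k + 1) ^ p
    exact Nat.le_add_right _ _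

theorem succ_pow_le (k p : ℕ) : (k + 1) ^ (p + 1) ≤ k ^ (p + 1) + (p + 1) * (k + 1) ^ p := by
  induction p with
  | zero => simp
  | succ p ih =>
    have h1 : (k + 1) ^ (p + 1 + 1) = k * (k + 1) ^ (p + 1) + (k + 1) ^ (p + 1) := by ring
    have h2 : k * (k + 1) ^ (p + 1) ≤ k * (k ^ (p + 1) + (p + 1) * (k + 1) ^ p) :=
      Nat.mul_le_mul_left k ih
    have h3 : (p + 1) * (k * (k + 1) ^ p) ≤ (p + 1) * (k + 1) ^ (p + 1) := by
      apply Nat.mul_le_mul_left
      calc k * (k + 1) ^ p ≤ (k + 1) * (k + 1) ^ p := Nat.mul_le_mul_right _ (Nat.le_succ k)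
        _ = (k + 1) ^ (p + 1) := by ring
    have h4 : k * (k ^ (p + 1) + (p + 1) * (k + 1) ^ p) =
        k ^ (p + 1 + 1) + (p + 1) * (k * (k + 1) ^ p) := by ring
    have h5 : (p + 1 + 1) * (k + 1) ^ (p + 1) =
        (p + 1) * (k + 1) ^ (p + 1) + (k + 1) ^ (p + 1) := by ring
    rw [h1, h5]
    rw [h4] at h2
    omega

theorem pow_le_sumpow (p k : ℕ) : k ^ (p + 1) ≤ (p + 1) * sumpow p k := by
  induction k with
  | zero => simp
  | succ k ih =>
    have h1 := succ_pow_le k p
    have h2 : (p + 1) * sumpow p (k + 1) = (p + 1) * sumpow p k + (p + 1) * (k + 1) ^ p := by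
      show (p + 1) * (sumpow p k + (k + 1) ^ p) = _
      ring
    rw [h2]
    omega

theorem sat_of_asg {n : ℕ} {h : Finset (Lit n)} {x : Fin n → Bool} {l : Lit n}
    (hl : asg h x = some l) : sat x l := by
  unfold asg at hl
  split_ifs at hl with hx
  have h1 := hx.choose_spec.2
  rw [Option.some.injEq] at hl
  rw [hl] at h1
  exact h1

theorem uu_le_qq {n : ℕ} (G : ℕ) (j : Bool) (h : Finset (Lit n)) (l : Lit n) :
    ∀ (H : Seq n) (c : Lit n → ℕ), uu G j h l c H ≤ qq h l H
  | [], _ => Nat.zero_le _
  | z :: H, c => by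
    have ih := uu_le_qq G j h l H (dec G c z.1)
    show (if z.2 = true ∧ asg h z.1 = some l ∧ dns G c z.1 = j then 1 else 0) +
      uu G j h l (dec G c z.1) H ≤ qq h l (z :: H)
    unfold qq at ih ⊢
    rw [List.countP_cons]
    split_ifs with h1 h2 h2
    · omega
    · exact absurd (by simp [h1.1, h1.2.1]) h2
    · omega
    · omega

/-- the induction -/
theorem main {n : ℕ} (G p : ℕ) (h : Finset (Lit n)) (l : Lit n) :
    ∀ (H : Seq n) (D : ℕ) (c : Lit n → ℕ),
      (∀ P Q : Seq n, H = P ++ Q → cnt G true false l c P ≤ cnt G false false l c P + D) →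
      sumpow p (uu G false h l c H - D) ≤ ff G h p l c H
  | [], D, c, _ => by
    have h1 : uu G false h l c [] - D = 0 := by
      show 0 - D = 0
      exact Nat.zero_sub D
    rw [h1]
    exact Nat.zero_le _
  | z :: H, D, c, hB => by
    have hu : uu G false h l c (z :: H) =
      (if z.2 = true ∧ asg h z.1 = some l ∧ dns G c z.1 = false then 1 else 0) +
        uu G false h l (dec G c z.1) H := rfl
    have hf : ff G h p l c (z :: H) =
      (if z.2 = false ∧ sat z.1 l ∧ dns G c z.1 = false then qq h l H ^ p else 0) +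
        ff G h p l (dec G c z.1) H := rfl
    have hc : ∀ (y : Bool) (P : Seq n), cnt G y false l c (z :: P) =
      (if z.2 = y ∧ sat z.1 l ∧ dns G c z.1 = false then 1 else 0) +
        cnt G y false l (dec G c z.1) P := fun _ _ => rfl
    have hT : ∀ P Q : Seq n, H = P ++ Q →
        (if z.2 = true ∧ sat z.1 l ∧ dns G c z.1 = false then 1 else 0) +
          cnt G true false l (dec G c z.1) P ≤
        (if z.2 = false ∧ sat z.1 l ∧ dns G c z.1 = false then 1 else 0) +
          cnt G false false l (dec G c z.1) P + D := by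
      intro P Q hPQ
      have h1 := hB (z :: P) Q (by rw [hPQ]; rfl)
      rw [hc, hc] at h1
      exact h1
    have hqq := uu_le_qq G false h l H (dec G c z.1)
    rw [hu, hf]
    by_cases hs : sat z.1 l ∧ dns G c z.1 = false
    · obtain ⟨hs1, hs2⟩ := hs
      rcases Bool.eq_false_or_eq_true z.2 with hz | hz
      · -- label `1`
        rw [if_neg (show ¬ (z.2 = false ∧ sat z.1 l ∧ dns G c z.1 = false) from
          fun h1 => by rw [hz] at h1; exact Bool.noConfusion h1.1)]
        have hT' : ∀ P Q : Seq n, H = P ++ Q → cnt G true false l (dec G c z.1) P + 1 ≤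
            cnt G false false l (dec G c z.1) P + D := by
          intro P Q hPQ
          have h1 := hT P Q hPQ
          rw [if_pos ⟨hz, hs1, hs2⟩, if_neg (show ¬ (z.2 = false ∧ sat z.1 l ∧
            dns G c z.1 = false) from fun h1 => by rw [hz] at h1; exact Bool.noConfusion h1.1)] at h1
          omega
        have hD : 1 ≤ D := by
          have h1 := hT' [] H rfl
          have h2 : cnt G false false l (dec G c z.1) [] = 0 := rfl
          omega
        have ih := main G p h l H (D - 1) (dec G c z.1) (by
          intro P Q hPQ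
          have h1 := hT' P Q hPQ
          omega)
        rw [zero_add]
        refine le_trans (sumpow_mono p ?_) ih
        split_ifs
        · omega
        · omega
      · -- label `0`
        rw [if_neg (show ¬ (z.2 = true ∧ asg h z.1 = some l ∧ dns G c z.1 = false) from
          fun h1 => by rw [hz] at h1; exact Bool.noConfusion h1.1),
          if_pos (show z.2 = false ∧ sat z.1 l ∧ dns G c z.1 = false from ⟨hz, hs1, hs2⟩)]
        have ih := main G p h l H (D + 1) (dec G c z.1) (by
          intro P Q hPQ
          have h1 := hT P Q hPQ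
          rw [if_pos (show z.2 = false ∧ sat z.1 l ∧ dns G c z.1 = false from ⟨hz, hs1, hs2⟩),
            if_neg (show ¬ (z.2 = true ∧ sat z.1 l ∧ dns G c z.1 = false) from
            fun h1 => by rw [hz] at h1; exact Bool.noConfusion h1.1)] at h1
          omega)
        rw [zero_add]
        rcases Nat.lt_or_ge D (uu G false h l (dec G c z.1) H) with hlt | hge
        · obtain ⟨k, hk⟩ : ∃ k, uu G false h l (dec G c z.1) H - D = k + 1 :=
            ⟨uu G false h l (dec G c z.1) H - D - 1, by omega⟩
          have hk2 : uu G false h l (dec G c z.1) H - (D + 1) = k := by omega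
          rw [hk2] at ih
          rw [hk]
          show sumpow p k + (k + 1) ^ p ≤ _
          have h3 : (k + 1) ^ p ≤ qq h l H ^ p := Nat.pow_le_pow_left (by omega) p
          omega
        · rw [Nat.sub_eq_zero_of_le hge]
          exact Nat.zero_le _
    · rw [if_neg (show ¬ (z.2 = true ∧ asg h z.1 = some l ∧ dns G c z.1 = false) from
        fun h1 => hs ⟨sat_of_asg h1.2.1, h1.2.2⟩),
        if_neg (show ¬ (z.2 = false ∧ sat z.1 l ∧ dns G c z.1 = false) from
        fun h1 => hs h1.2)]
      have ih := main G p h l H D (dec G c z.1) (by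
        intro P Q hPQ
        have h1 := hT P Q hPQ
        rw [if_neg (show ¬ (z.2 = false ∧ sat z.1 l ∧ dns G c z.1 = false) from
          fun h1 => hs h1.2), if_neg (show ¬ (z.2 = true ∧ sat z.1 l ∧ dns G c z.1 = false) from
          fun h1 => hs h1.2)] at h1
        omega)
      rw [zero_add, zero_add]
      exact ih

end ABL

theorem t_ABL : Stmt_ABL := by
  intro n D G p h l c H hB
  have h1 := ABL.main G p h l H D c (fun P Q hPQ => hB P Q hPQ false l)
  exact (ABL.pow_le_sumpow p _).trans (Nat.mul_le_mul_left _ h1)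

end Pool.Agent.RDisj
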