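import Pool.Agent.RDisj.Stmts

/-!
# Assigned rounds
-/

set_option autoImplicit false

namespace Pool.Agent.RDisj

open Pool.Agent.PT Pool.Agent.OnlineDisj

namespace ASG

variable {n : ℕ}

lemma asg_mem (h : Finset (Lit n)) (x : Fin n → Bool) (l : Lit n) (e : asg h x = some l) :
    l ∈ h ∧ sat x l := by
  unfold asg at e
  split_ifs at e with hx
  · have e2 := hx.choose_spec
    have e3 : hx.choose = l := Option.some.inj e
    rw [e3] at e2
    exact e2

lemma asg_of_disj (h : Finset (Lit n)) (x : Fin n → Bool) (e : disj h x = true) :
    ∃ l ∈ h, asg h x = some l := by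
  have hx : ∃ l ∈ h, sat x l := by
    have e1 : ∃ l ∈ h, x l.1 = l.2 := by
      unfold disj at e
      exact of_decide_eq_true e
    exact e1
  refine ⟨hx.choose, hx.choose_spec.1, ?_⟩
  unfold asg
  rw [dif_pos hx]

lemma disj_of_asg (h : Finset (Lit n)) (x : Fin n → Bool) (l : Lit n) (e : asg h x = some l) :
    disj h x = true := by
  have e1 := asg_mem h x l e
  unfold disj
  exact decide_eq_true ⟨l, e1.1, e1.2⟩

open Classical in
lemma sum_ind (h : Finset (Lit n)) (x : Fin n → Bool) :
    (∑ l ∈ h, if asg h x = some l then 1 else 0) = if disj h x = true then 1 else 0 := by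
  by_cases e : disj h x = true
  · rw [if_pos e]
    obtain ⟨l0, h0, e0⟩ := asg_of_disj h x e
    rw [Finset.sum_eq_single l0]
    · rw [if_pos e0]
    · intro l _ hl
      rw [if_neg]
      intro e1
      apply hl
      rw [e0] at e1
      exact (Option.some.inj e1).symm
    · intro h1
      exact absurd h0 h1
  · rw [if_neg e]
    apply Finset.sum_eq_zero
    intro l _
    rw [if_neg]
    intro e1
    exact e (disj_of_asg h x l e1)

open Classical in
lemma qq_cons (h : Finset (Lit n)) (l : Lit n) (z : (Fin n → Bool) × Bool) (H : Seq n) :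
    qq h l (z :: H) = qq h l H + if (z.2 = true ∧ asg h z.1 = some l) then 1 else 0 := by
  unfold qq
  rw [List.countP_cons]
  congr 1
  by_cases h1 : z.2 = true <;> by_cases h2 : asg h z.1 = some l <;> simp [h1, h2]

lemma covered_cons (h : Finset (Lit n)) (z : (Fin n → Bool) × Bool) (H : Seq n) :
    covered h (z :: H) = covered h H + if (z.2 = true ∧ disj h z.1 = true) then 1 else 0 := by
  unfold covered
  rw [List.countP_cons]
  congr 1
  by_cases h1 : z.2 = true <;> by_cases h2 : disj h z.1 = true <;> simp [h1, h2]

lemma sum_qq (h : Finset (Lit n)) (H : Seq n) : ∑ l ∈ h, qq h l H = covered h H := by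
  classical
  induction H with
  | nil => simp [qq, covered]
  | cons z H ih =>
    rw [covered_cons, Finset.sum_congr rfl (fun l _ => qq_cons h l z H),
      Finset.sum_add_distrib, ih]
    by_cases h1 : z.2 = true
    · have e := sum_ind h z.1
      simp only [h1, true_and]
      rw [← e]
    · simp only [h1, Bool.false_eq_true, false_and, if_false, Finset.sum_const_zero]

lemma uu_add (h : Finset (Lit n)) (G : ℕ) (l : Lit n) (H : Seq n) : ∀ c : Lit n → ℕ,
    uu G false h l c H + uu G true h l c H = qq h l H := by
  classical
  induction H with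
  | nil => intro c; simp [uu, qq]
  | cons z H ih =>
    intro c
    rw [qq_cons]
    have e := ih (dec G c z.1)
    simp only [uu]
    by_cases h1 : z.2 = true
    · by_cases h2 : asg h z.1 = some l
      · cases h3 : dns G c z.1
        · simp only [h1, h2, and_self, if_true, true_and]
          simp only [Bool.false_eq_true, if_false]
          omega
        · simp only [h1, h2, and_self, if_true, true_and]
          simp only [Bool.true_eq_false, if_false]
          omega
      · simp only [h2, false_and, and_false, if_false]
        omega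
    · simp only [h1, Bool.false_eq_true, false_and, if_false]
      omega

lemma uu_le (h : Finset (Lit n)) (G : ℕ) (l : Lit n) (j : Bool) (H : Seq n) : ∀ c : Lit n → ℕ,
    uu G j h l c H ≤ cnt G true j l c H := by
  classical
  induction H with
  | nil => intro c; simp [uu, cnt]
  | cons z H ih =>
    intro c
    have e := ih (dec G c z.1)
    simp only [uu, cnt]
    apply Nat.add_le_add _ e
    by_cases h1 : z.2 = true ∧ asg h z.1 = some l ∧ dns G c z.1 = j
    · rw [if_pos h1, if_pos ⟨h1.1, (asg_mem h z.1 l h1.2.1).2, h1.2.2⟩]
    · rw [if_neg h1]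
      exact Nat.zero_le _

lemma sum_uu (h : Finset (Lit n)) (G : ℕ) (H : Seq n) : ∀ c : Lit n → ℕ,
    ∑ l ∈ h, uu G true h l c H ≤ ndns G c H := by
  classical
  induction H with
  | nil => intro c; simp [uu, ndns]
  | cons z H ih =>
    intro c
    have e := ih (dec G c z.1)
    simp only [uu, ndns]
    rw [Finset.sum_add_distrib]
    apply Nat.add_le_add _ e
    have e2 := sum_ind h z.1
    calc (∑ l ∈ h, if z.2 = true ∧ asg h z.1 = some l ∧ dns G c z.1 = true then 1 else 0)
        ≤ ∑ l ∈ h, (if asg h z.1 = some l then 1 else 0) * (if dns G c z.1 = true then 1 else 0) := by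
          apply Finset.sum_le_sum
          intro l _
          by_cases h1 : z.2 = true ∧ asg h z.1 = some l ∧ dns G c z.1 = true
          · rw [if_pos h1, if_pos h1.2.1, if_pos h1.2.2]
          · rw [if_neg h1]
            exact Nat.zero_le _
      _ = (if disj h z.1 = true then 1 else 0) * (if dns G c z.1 = true then 1 else 0) := by
          rw [← Finset.sum_mul, e2]
      _ ≤ if dns G c z.1 = true then 1 else 0 := by
          by_cases h1 : disj h z.1 = true
          · rw [if_pos h1, one_mul]
          · rw [if_neg h1, zero_mul]
            exact Nat.zero_le _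

end ASG

theorem t_ASG : Stmt_ASG := by
  intro n h H
  exact ⟨ASG.sum_qq h H, fun G c => ⟨fun l => ASG.uu_add h G l H c,
    fun l j => ASG.uu_le h G l j H c, ASG.sum_uu h G H c⟩⟩

end Pool.Agent.RDisj
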