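import Pool.Agent.RDisj.Stmts

/-!
# Module BRG: bounded weights imply balance
-/

set_option autoImplicit false

namespace Pool.Agent.RDisj

open Pool.Agent.PT Pool.Agent.OnlineDisj

namespace BRG

variable {n : ℕ}

theorem gen_snoc (l : List (Cf n)) (H : Seq n) (z : (Fin n → Bool) × Bool) :
    gen l (H ++ [z]) = (gen l H).flatMap (fork z) := by
  simp only [gen, List.foldl_append, List.foldl_cons, List.foldl_nil]

theorem stay_mem (z : (Fin n → Bool) × Bool) (s : Cf n) : stay z.1 z.2 s ∈ fork z s := by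
  unfold fork
  split_ifs
  · exact List.mem_singleton_self _
  · exact List.mem_cons_self

theorem fire_mem (x : Fin n → Bool) (s : Cf n) (h : s.r ≠ 0) : fire x s ∈ fork (x, false) s := by
  unfold fork
  rw [if_neg (by simp [h])]
  simp

/-- The configuration on the path without cuts. -/
theorem stay_path (l0 : List (Cf n)) : ∀ (P H0 : Seq n) (s : Cf n), s ∈ gen l0 H0 →
    ∃ s' ∈ gen l0 (H0 ++ P), s'.j = s.j ∧ s'.b = s.b ∧ s'.G = s.G ∧ s'.r = s.r ∧
      s'.c = decs s.G s.c P ∧
      ∀ l, s.w l * 2 ^ cnt s.G true s.j l s.c P ≤ s'.w l * 2 ^ cnt s.G false s.j l s.c P := by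
  intro P
  induction P with
  | nil =>
    intro H0 s hs
    refine ⟨s, ?_, rfl, rfl, rfl, rfl, rfl, fun l => le_refl _⟩
    rw [List.append_nil]
    exact hs
  | cons z P ih =>
    intro H0 s hs
    have h1 : stay z.1 z.2 s ∈ gen l0 (H0 ++ [z]) := by
      rw [gen_snoc, List.mem_flatMap]
      exact ⟨s, hs, stay_mem z s⟩
    obtain ⟨s', hs', hj, hb, hG, hr, hc, hw⟩ := ih (H0 ++ [z]) _ h1
    refine ⟨s', ?_, hj, hb, hG, hr, hc, fun l => ?_⟩
    · have e : H0 ++ z :: P = H0 ++ [z] ++ P := by simp
      rw [e]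
      exact hs'
    · have h2 := hw l
      have e1 : (stay z.1 z.2 s).G = s.G := rfl
      have e2 : (stay z.1 z.2 s).j = s.j := rfl
      have e3 : (stay z.1 z.2 s).c = dec s.G s.c z.1 := rfl
      have e4 : (stay z.1 z.2 s).w l = if sat z.1 l then (if dns s.G s.c z.1 = s.j then
        (if z.2 then s.w l + s.w l else (s.w l + 1) / 2) else s.w l) else s.w l := rfl
      rw [e1, e2, e3, e4] at h2
      simp only [cnt]
      generalize cnt s.G true s.j l (dec s.G s.c z.1) P = a at h2 ⊢
      generalize cnt s.G false s.j l (dec s.G s.c z.1) P = a' at h2 ⊢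
      by_cases hsat : sat z.1 l
      · by_cases hd : dns s.G s.c z.1 = s.j
        · rw [if_pos hsat, if_pos hd] at h2
          cases hz : z.2
          · rw [hz, if_neg (by simp)] at h2
            rw [if_neg (by simp), if_pos ⟨rfl, hsat, hd⟩, zero_add, pow_add, pow_one]
            have h3 : s.w l ≤ 2 * ((s.w l + 1) / 2) := by omega
            calc s.w l * 2 ^ a ≤ 2 * ((s.w l + 1) / 2) * 2 ^ a := Nat.mul_le_mul_right _ h3
              _ = 2 * ((s.w l + 1) / 2 * 2 ^ a) := by ring
              _ ≤ 2 * (s'.w l * 2 ^ a') := Nat.mul_le_mul_left _ h2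
              _ = s'.w l * (2 * 2 ^ a') := by ring
          · rw [hz, if_pos rfl] at h2
            rw [if_pos ⟨rfl, hsat, hd⟩, if_neg (by simp), zero_add, pow_add, pow_one]
            calc s.w l * (2 * 2 ^ a) = (s.w l + s.w l) * 2 ^ a := by ring
              _ ≤ s'.w l * 2 ^ a' := h2
        · rw [if_pos hsat, if_neg hd] at h2
          rw [if_neg (fun h => hd h.2.2), if_neg (fun h => hd h.2.2), zero_add, zero_add]
          exact h2
      · rw [if_neg hsat] at h2
        rw [if_neg (fun h => hsat h.2.1), if_neg (fun h => hsat h.2.1), zero_add, zero_add]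
        exact h2

theorem Legal.left {θ : ℕ} {l0 : List (Cf n)} {H A B : Seq n} (h : Legal θ l0 H)
    (e : H = A ++ B) : Legal θ l0 A := by
  intro H1 H2 x y hA
  apply h H1 (H2 ++ B) x y
  rw [e, hA]
  simp

end BRG

open BRG in
/-- BRG. -/
theorem t_BRG (hWGT : Stmt_WGT) : Stmt_BRG := by
  intro n k L θ D b G H hθ hD hb hG hleg
  have claim : ∀ (p : ℕ) (H0 H1 : Seq n) (c : Lit n → ℕ), H = H0 ++ H1 →
      (∀ j : Bool, ∃ s ∈ gen (initS n k L) H0, s.j = j ∧ s.b = b ∧ s.G = G ∧ s.r = p ∧ s.c = c ∧
        s.w = fun _ => 1) → Good D G b (p + 1) c H1 := by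
    intro p
    induction p with
    | zero =>
      intro H0 H1 c hH hs
      refine ⟨?_, fun _ _ _ _ => trivial⟩
      intro P Q hPQ j l
      obtain ⟨s, hs0, hsj, hsb, hsG, hsr, hsc, hsw⟩ := hs j
      obtain ⟨s', hs', -, -, -, -, -, hw⟩ := stay_path _ P H0 s hs0
      have h1 := hw l
      rw [hsj, hsG, hsc, hsw, one_mul] at h1
      have hl : Legal θ (initS n k L) (H0 ++ P) := Legal.left (B := Q) hleg (by
        rw [hH, hPQ, List.append_assoc])
      have h2 := ((hWGT k L θ (H0 ++ P) hθ hl s' hs').2.2.2 l).2.2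
      have h3 : 2 ^ cnt G true j l c P < 2 ^ (cnt G false j l c P + D) := by
        calc 2 ^ cnt G true j l c P ≤ s'.w l * 2 ^ cnt G false j l c P := h1
          _ < 2 ^ D * 2 ^ cnt G false j l c P :=
            Nat.mul_lt_mul_of_pos_right (h2.trans_le hD) (by positivity)
          _ = 2 ^ (cnt G false j l c P + D) := by rw [pow_add]; ring
      exact ((Nat.pow_lt_pow_iff_right (by norm_num)).mp h3).le
    | succ p ih =>
      intro H0 H1 c hH hs
      refine ⟨?_, ?_⟩
      · intro P Q hPQ j l
        obtain ⟨s, hs0, hsj, hsb, hsG, hsr, hsc, hsw⟩ := hs j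
        obtain ⟨s', hs', -, -, -, -, -, hw⟩ := stay_path _ P H0 s hs0
        have h1 := hw l
        rw [hsj, hsG, hsc, hsw, one_mul] at h1
        have hl : Legal θ (initS n k L) (H0 ++ P) := Legal.left (B := Q) hleg (by
          rw [hH, hPQ, List.append_assoc])
        have h2 := ((hWGT k L θ (H0 ++ P) hθ hl s' hs').2.2.2 l).2.2
        have h3 : 2 ^ cnt G true j l c P < 2 ^ (cnt G false j l c P + D) := by
          calc 2 ^ cnt G true j l c P ≤ s'.w l * 2 ^ cnt G false j l c P := h1
            _ < 2 ^ D * 2 ^ cnt G false j l c P :=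
              Nat.mul_lt_mul_of_pos_right (h2.trans_le hD) (by positivity)
            _ = 2 ^ (cnt G false j l c P + D) := by rw [pow_add]; ring
        exact ((Nat.pow_lt_pow_iff_right (by norm_num)).mp h3).le
      · intro H2 H3 x hx
        apply ih (H0 ++ H2 ++ [(x, false)]) H3
        · rw [hH, hx]
          simp
        · intro j
          obtain ⟨s, hs0, hsj, hsb, hsG, hsr, hsc, hsw⟩ := hs j
          obtain ⟨s', hs', hj, hb', hG', hr, hc, -⟩ := stay_path _ H2 H0 s hs0
          refine ⟨fire x s', ?_, ?_, ?_, ?_, ?_, ?_, rfl⟩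
          · rw [gen_snoc, List.mem_flatMap]
            refine ⟨s', hs', fire_mem x s' ?_⟩
            rw [hr, hsr]
            omega
          · exact hj.trans hsj
          · exact hb'.trans hsb
          · exact hG'.trans hsG
          · change s'.r - 1 = p
            rw [hr, hsr]
            omega
          · change cut s'.b s'.c x = cut b (decs G c H2) x
            rw [hb', hsb, hc, hsG, hsc]
  apply claim k [] H (fun _ => b) rfl
  intro j
  refine ⟨⟨j, b, G, k, fun _ => b, fun _ => 1⟩, ?_, rfl, rfl, rfl, rfl, rfl, rfl⟩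
  change _ ∈ initS n k L
  unfold initS
  rw [List.mem_flatMap]
  refine ⟨b, List.mem_range.mpr (by omega), ?_⟩
  rw [List.mem_flatMap]
  refine ⟨G, List.mem_range.mpr (by omega), ?_⟩
  cases j <;> simp

end Pool.Agent.RDisj
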