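import Pool.Agent.RDisj.Stmts

/-!
# CHS: the moments of the children
-/

set_option autoImplicit false

namespace Pool.Agent.RDisj

open Pool.Agent.PT Pool.Agent.OnlineDisj

namespace CHS

theorem decs_cons {n : ℕ} (G : ℕ) (c : Lit n → ℕ) (z : (Fin n → Bool) × Bool) (P : Seq n) :
    decs G c (z :: P) = decs G (dec G c z.1) P := rfl

theorem cut_ne {n : ℕ} {b : ℕ} (hb : 1 ≤ b) {c : Lit n → ℕ} {x : Fin n → Bool} {l : Lit n}
    (hs : sat x l) (hc : c l ≠ 0) : cut b c x l ≠ 0 := by
  unfold cut
  rw [if_pos hs, if_neg hc]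
  omega

theorem cut_eq_zero {n : ℕ} {b : ℕ} {c : Lit n → ℕ} {x : Fin n → Bool} {l : Lit n}
    (hs : ¬ sat x l) : cut b c x l = 0 := by
  unfold cut
  rw [if_neg hs]

theorem dec_le {n : ℕ} (G : ℕ) (c : Lit n → ℕ) (x : Fin n → Bool) (l : Lit n) :
    dec G c x l ≤ c l := by
  unfold dec
  split_ifs <;> omega

theorem part_one {n : ℕ} (G b p : ℕ) (h : Finset (Lit n)) (hb : 1 ≤ b) (H : Seq n) :
    ∀ c : Lit n → ℕ, (∀ l ∈ h, c l ≠ 0 → ∀ P Q : Seq n, H = P ++ Q → decs G c P l ≠ 0) →
      (∑ l ∈ h, if c l = 0 then 0 else ff G h p l c H) ≤ chs G b h p c H := by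
  induction H with
  | nil =>
    intro c _
    simp [ff, chs]
  | cons z H ih =>
    intro c hc
    have hc' : ∀ l ∈ h, dec G c z.1 l ≠ 0 → ∀ P Q : Seq n, H = P ++ Q →
        decs G (dec G c z.1) P l ≠ 0 := by
      intro l hl hl0 P Q hPQ
      have h1 : c l ≠ 0 := by
        have := dec_le G c z.1 l
        omega
      exact hc l hl h1 (z :: P) Q (by rw [hPQ]; rfl)
    have hI := ih (dec G c z.1) hc'
    have hterm : ∀ l ∈ h, (if c l = 0 then 0 else ff G h p l c (z :: H)) ≤
        (if z.2 = false ∧ dns G c z.1 = false then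
          (if cut b c z.1 l = 0 then 0 else qq h l H ^ p) else 0) +
        (if dec G c z.1 l = 0 then 0 else ff G h p l (dec G c z.1) H) := by
      intro l hl
      by_cases h0 : c l = 0
      · rw [if_pos h0]; exact Nat.zero_le _
      · rw [if_neg h0]
        have h1 : dec G c z.1 l ≠ 0 := hc l hl h0 [z] H rfl
        rw [if_neg h1]
        show (if z.2 = false ∧ sat z.1 l ∧ dns G c z.1 = false then qq h l H ^ p else 0) +
          ff G h p l (dec G c z.1) H ≤ _
        apply Nat.add_le_add_right
        by_cases h2 : z.2 = false ∧ sat z.1 l ∧ dns G c z.1 = false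
        · rw [if_pos h2, if_pos ⟨h2.1, h2.2.2⟩, if_neg (cut_ne hb h2.2.1 h0)]
        · rw [if_neg h2]; exact Nat.zero_le _
    refine (Finset.sum_le_sum hterm).trans ?_
    rw [Finset.sum_add_distrib]
    show _ ≤ (if z.2 = false ∧ dns G c z.1 = false then mom h p (cut b c z.1) H else 0) +
      chs G b h p (dec G c z.1) H
    refine Nat.add_le_add ?_ hI
    by_cases h3 : z.2 = false ∧ dns G c z.1 = false
    · simp only [if_pos h3]
      exact le_rfl
    · simp only [if_neg h3]
      simp

theorem mom_eq_zero {n : ℕ} {b p : ℕ} {h : Finset (Lit n)} {c : Lit n → ℕ} {x : Fin n → Bool}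
    (hd : disj h x = false) (H : Seq n) : mom h p (cut b c x) H = 0 := by
  unfold mom
  apply Finset.sum_eq_zero
  intro l hl
  rw [if_pos]
  apply cut_eq_zero
  intro hs
  have : disj h x = true := by
    unfold disj
    exact decide_eq_true ⟨l, hl, hs⟩
  rw [this] at hd
  cases hd

theorem noise_cons {n : ℕ} (h : Finset (Lit n)) (z : (Fin n → Bool) × Bool) (H : Seq n) :
    noise h (z :: H) = noise h H + if (!z.2 && disj h z.1) = true then 1 else 0 := by
  unfold noise
  rw [List.countP_cons]

theorem part_two {n : ℕ} (G b p : ℕ) (h : Finset (Lit n)) (B : ℝ) (hB : 0 ≤ B) (H : Seq n) :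
    ∀ c : Lit n → ℕ, (∀ (H1 H2 : Seq n) (x : Fin n → Bool), H = H1 ++ (x, false) :: H2 →
        dns G (decs G c H1) x = false → (mom h p (cut b (decs G c H1) x) H2 : ℝ) ≤ B) →
      (chs G b h p c H : ℝ) ≤ noise h H * B := by
  induction H with
  | nil =>
    intro c _
    simp [chs, noise]
  | cons z H ih =>
    intro c hc
    have hI := ih (dec G c z.1) (fun H1 H2 x hH hd => hc (z :: H1) H2 x (by rw [hH]; rfl) hd)
    have hchs : chs G b h p c (z :: H) =
        (if z.2 = false ∧ dns G c z.1 = false then mom h p (cut b c z.1) H else 0) +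
          chs G b h p (dec G c z.1) H := rfl
    rw [hchs, noise_cons]
    push_cast
    rw [add_mul, add_comm]
    refine add_le_add hI ?_
    by_cases h3 : z.2 = false ∧ dns G c z.1 = false
    · rw [if_pos h3]
      by_cases hd : disj h z.1 = true
      · have h4 : (!z.2 && disj h z.1) = true := by rw [h3.1, hd]; rfl
        rw [if_pos h4, one_mul]
        refine hc [] H z.1 ?_ h3.2
        rw [← h3.1]; rfl
      · have hd' : disj h z.1 = false := by simpa using hd
        rw [mom_eq_zero hd']
        have h4 : ¬ (!z.2 && disj h z.1) = true := by rw [hd']; simp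
        rw [if_neg h4]
        simp
    · rw [if_neg h3]
      have : (0 : ℝ) ≤ if (!z.2 && disj h z.1) = true then 1 else 0 := by
        split_ifs <;> norm_num
      simpa using mul_nonneg this hB

end CHS

theorem t_CHS : Stmt_CHS := by
  intro n G b p h c H hb
  exact ⟨CHS.part_one G b p h hb H c, fun B hB hmom => CHS.part_two G b p h B hB H c hmom⟩

end Pool.Agent.RDisj
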