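import Pool.Agent.Lib_helper88.OnlineDisj.Defs
import Pool.Agent.Lib_helper88.PolyTime.Arith
import Pool.Agent.Lib_helper88.PolyTime.Simulate

/-!
# Combination of two learners

The combined learner runs both learners, predicts with one of them, and changes to the other one
after each mistake. It makes at most `2 min (M₁, M₂) + 1` mistakes.
-/

set_option autoImplicit false

namespace Pool.Agent.RDisj

open Pool.Agent.PT Pool.Agent.OnlineDisj

/-- the combination of two learners -/
def comb {σ τ : Type} (L : Learner σ) (M : Learner τ) : Learner (Bool × σ × τ) where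
  start := (true, L.start, M.start)
  predict := fun p => if p.1.1 then L.predict (p.1.2.1, p.2) else M.predict (p.1.2.2, p.2)
  update := fun p =>
    (if (if p.1.1 then L.predict (p.1.2.1, p.2.1) else M.predict (p.1.2.2, p.2.1)) == p.2.2
      then p.1.1 else !p.1.1,
      L.update (p.1.2.1, p.2), M.update (p.1.2.2, p.2))

namespace COMB

theorem mistakesFrom_le {σ τ : Type} (L : Learner σ) (M : Learner τ) {n : ℕ} (S : Seq n) :
    ∀ (s : σ) (t : τ),
      ((comb L M).mistakesFrom (true, s, t) S ≤ 2 * L.mistakesFrom s S ∧
        (comb L M).mistakesFrom (true, s, t) S ≤ 2 * M.mistakesFrom t S + 1) ∧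
      ((comb L M).mistakesFrom (false, s, t) S ≤ 2 * M.mistakesFrom t S ∧
        (comb L M).mistakesFrom (false, s, t) S ≤ 2 * L.mistakesFrom s S + 1) := by
  induction S with
  | nil =>
    intro s t
    simp [Learner.mistakesFrom]
  | cons z S ih =>
    obtain ⟨x, y⟩ := z
    intro s t
    obtain ⟨⟨h1, h2⟩, h3, h4⟩ := ih (L.update (s, List.ofFn x, y)) (M.update (t, List.ofFn x, y))
    have e1 : (comb L M).mistakesFrom (true, s, t) ((x, y) :: S) =
        (if L.predict (s, List.ofFn x) = y then 0 else 1) + (comb L M).mistakesFrom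
          (if L.predict (s, List.ofFn x) == y then true else false,
            L.update (s, List.ofFn x, y), M.update (t, List.ofFn x, y)) S := rfl
    have e2 : (comb L M).mistakesFrom (false, s, t) ((x, y) :: S) =
        (if M.predict (t, List.ofFn x) = y then 0 else 1) + (comb L M).mistakesFrom
          (if M.predict (t, List.ofFn x) == y then false else true,
            L.update (s, List.ofFn x, y), M.update (t, List.ofFn x, y)) S := rfl
    have e3 : L.mistakesFrom s ((x, y) :: S) = (if L.predict (s, List.ofFn x) = y then 0 else 1) +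
        L.mistakesFrom (L.update (s, List.ofFn x, y)) S := rfl
    have e4 : M.mistakesFrom t ((x, y) :: S) = (if M.predict (t, List.ofFn x) = y then 0 else 1) +
        M.mistakesFrom (M.update (t, List.ofFn x, y)) S := rfl
    rw [e1, e2, e3, e4]
    by_cases hL : L.predict (s, List.ofFn x) = y <;> by_cases hM : M.predict (t, List.ofFn x) = y
    · have hL' : (L.predict (s, List.ofFn x) == y) = true := beq_iff_eq.2 hL
      have hM' : (M.predict (t, List.ofFn x) == y) = true := beq_iff_eq.2 hM
      rw [if_pos hL, if_pos hM, hL', hM', if_pos rfl, if_pos rfl]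
      omega
    · have hL' : (L.predict (s, List.ofFn x) == y) = true := beq_iff_eq.2 hL
      have hM' : ¬ (M.predict (t, List.ofFn x) == y) = true := fun h => hM (beq_iff_eq.1 h)
      rw [if_pos hL, if_neg hM, hL', if_neg hM', if_pos rfl]
      omega
    · have hL' : ¬ (L.predict (s, List.ofFn x) == y) = true := fun h => hL (beq_iff_eq.1 h)
      have hM' : (M.predict (t, List.ofFn x) == y) = true := beq_iff_eq.2 hM
      rw [if_neg hL, if_pos hM, hM', if_neg hL', if_pos rfl]
      omega
    · have hL' : ¬ (L.predict (s, List.ofFn x) == y) = true := fun h => hL (beq_iff_eq.1 h)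
      have hM' : ¬ (M.predict (t, List.ofFn x) == y) = true := fun h => hM (beq_iff_eq.1 h)
      rw [if_neg hL, if_neg hM, if_neg hL', if_neg hM']
      omega

theorem mistakes_le {σ τ : Type} (L : Learner σ) (M : Learner τ) {n : ℕ} (S : Seq n) :
    (comb L M).mistakes S ≤ 2 * L.mistakes S ∧ (comb L M).mistakes S ≤ 2 * M.mistakes S + 1 :=
  (mistakesFrom_le L M S L.start M.start).1

theorem run_eq {σ τ : Type} (L : Learner σ) (M : Learner τ) {n : ℕ} (S : Seq n) :
    ∀ (b : Bool) (s : σ) (t : τ), ∃ b' : Bool,
      (comb L M).run (b, s, t) S = (b', L.run s S, M.run t S) := by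
  induction S with
  | nil =>
    intro b s t
    exact ⟨b, rfl⟩
  | cons z S ih =>
    obtain ⟨x, y⟩ := z
    intro b s t
    exact ih _ _ _

theorem polyTime {σ τ : Type} [N487b59b3 σ] [N487b59b3 τ] {L : Learner σ} {M : Learner τ}
    (hL : L.PolyTime) (hM : M.PolyTime) : (comb L M).PolyTime where
  predict := by
    have h1 := PT.of_isPolyTime hL.predict
    have h2 := PT.of_isPolyTime hM.predict
    have hx : PT (fun p : (Bool × σ × τ) × List Bool => p.2) := PT.snd
    have hs : PT (fun p : (Bool × σ × τ) × List Bool => (p.1.2.1, p.2)) :=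
      PT.pair PT.fst.comp_snd.comp_fst hx
    have ht : PT (fun p : (Bool × σ × τ) × List Bool => (p.1.2.2, p.2)) :=
      PT.pair PT.fst.comp_snd.comp_snd hx
    exact (PT.ite PT.fst.comp_fst (h1.comp hs) (h2.comp ht)).isPolyTime
  update := by
    have h1 := PT.of_isPolyTime hL.predict
    have h2 := PT.of_isPolyTime hM.predict
    have h3 := PT.of_isPolyTime hL.update
    have h4 := PT.of_isPolyTime hM.update
    have hx : PT (fun p : (Bool × σ × τ) × List Bool × Bool => p.2.1) := PT.snd.comp_fst
    have hs : PT (fun p : (Bool × σ × τ) × List Bool × Bool => (p.1.2.1, p.2.1)) :=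
      PT.pair PT.fst.comp_snd.comp_fst hx
    have ht : PT (fun p : (Bool × σ × τ) × List Bool × Bool => (p.1.2.2, p.2.1)) :=
      PT.pair PT.fst.comp_snd.comp_snd hx
    have hs' : PT (fun p : (Bool × σ × τ) × List Bool × Bool => (p.1.2.1, p.2)) :=
      PT.pair PT.fst.comp_snd.comp_fst PT.snd
    have ht' : PT (fun p : (Bool × σ × τ) × List Bool × Bool => (p.1.2.2, p.2)) :=
      PT.pair PT.fst.comp_snd.comp_snd PT.snd
    have hb : PT (fun p : (Bool × σ × τ) × List Bool × Bool => p.1.1) := PT.fst.comp_fst
    have hp := PT.ite hb (h1.comp hs) (h2.comp ht)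
    exact (PT.pair (PT.ite (PT.beq hp PT.snd.comp_snd) hb hb.not)
      (PT.pair (h3.comp hs') (h4.comp ht'))).isPolyTime
  memory := by
    obtain ⟨q1, h1⟩ := hL.memory
    obtain ⟨q2, h2⟩ := hM.memory
    refine ⟨3 + (2 * q1 + 1) + q2, fun n S => ?_⟩
    obtain ⟨b', hb⟩ := run_eq L M S true L.start M.start
    have e : (comb L M).run (comb L M).start S = (b', L.run L.start S, M.run M.start S) := hb
    rw [e]
    have e1 := h1 n S
    have e2 := h2 n S
    have e3 : (enc (b', L.run L.start S, M.run M.start S)).length =
        2 * (enc b').length + 1 + (2 * (enc (L.run L.start S)).length + 1 +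
          (enc (M.run M.start S)).length) := by
      rw [length_enc_pair, length_enc_pair]
    have e4 : (enc b').length = 1 := by rw [enc_bool]; rfl
    simp only [Polynomial.eval_add, Polynomial.eval_mul, Polynomial.eval_ofNat,
      Polynomial.eval_one]
    change (enc (b', L.run L.start S, M.run M.start S)).length ≤ _
    change (enc (L.run L.start S)).length ≤ _ at e1
    change (enc (M.run M.start S)).length ≤ _ at e2
    omega

end COMB

end Pool.Agent.RDisj
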