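import Pool.Agent.RDisj.Stmts

/-!
# DCT: the number of dense rounds
-/

set_option autoImplicit false

namespace Pool.Agent.RDisj

open Pool.Agent.PT Pool.Agent.OnlineDisj

namespace DCT

variable {n : ℕ}

theorem dec_dense (G : ℕ) (c : Lit n → ℕ) (x : Fin n → Bool) (h : dns G c x = true) (l : Lit n) :
    dec G c x l = if sat x l then c l - 1 else c l := by
  simp [dec, h]

theorem dec_sparse (G : ℕ) (c : Lit n → ℕ) (x : Fin n → Bool) (h : dns G c x = false) :
    dec G c x = c := by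
  funext l
  simp [dec, h]

theorem dec_le (G : ℕ) (c : Lit n → ℕ) (x : Fin n → Bool) (l : Lit n) : dec G c x l ≤ c l := by
  unfold dec
  split_ifs <;> omega

theorem sum_dec (G : ℕ) (c : Lit n → ℕ) (x : Fin n → Bool) (h : dns G c x = true) :
    ∑ l, dec G c x l + nhit x c = ∑ l, c l := by
  unfold nhit
  rw [← Finset.sum_add_distrib]
  refine Finset.sum_congr rfl fun l _ => ?_
  rw [dec_dense G c x h]
  split_ifs <;> omega

theorem sum_le (b : ℕ) (c : Lit n → ℕ) (h : ∀ l, c l ≤ b) : ∑ l, c l ≤ b * nsup c := by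
  unfold nsup
  rw [Finset.mul_sum]
  refine Finset.sum_le_sum fun l _ => ?_
  split_ifs with h0
  · omega
  · simpa using h l

theorem nsup_le (c c' : Lit n → ℕ) (h : ∀ l, c' l ≤ c l) : nsup c' ≤ nsup c := by
  unfold nsup
  refine Finset.sum_le_sum fun l _ => ?_
  have := h l
  split_ifs <;> omega

theorem nsup_le_card (c : Lit n → ℕ) : nsup c ≤ 2 * n := by
  unfold nsup
  calc ∑ l, (if c l = 0 then 0 else 1) ≤ ∑ _l : Lit n, 1 := by
        refine Finset.sum_le_sum fun l _ => ?_
        split_ifs <;> omega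
    _ = 2 * n := by
        simp [Lit, Fintype.card_prod]
        ring

/-- the potential -/
noncomputable def psi (b : ℕ) (c : Lit n → ℕ) : ℝ :=
  ((∑ l, c l : ℕ) : ℝ) / (nsup c : ℝ) + b * Real.log (nsup c)

theorem psi_nonneg (b : ℕ) (c : Lit n → ℕ) (h : nsup c ≠ 0) : 0 ≤ psi b c := by
  unfold psi
  have h1 : (1 : ℝ) ≤ (nsup c : ℝ) := by
    exact_mod_cast Nat.one_le_iff_ne_zero.mpr h
  have := Real.log_nonneg h1
  positivity

theorem ineq (b C u s s' : ℝ) (hb : 0 ≤ b) (hs : 1 ≤ s) (hs' : 1 ≤ s') (hle : s' ≤ s)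
    (hC : C ≤ b * s') :
    C / s' + b * Real.log s' ≤ (C + u) / s + b * Real.log s - u / s := by
  have s0 : 0 < s := by linarith
  have s0' : 0 < s' := by linarith
  have hlog : Real.log s' - Real.log s ≤ s' / s - 1 := by
    rw [← Real.log_div s0'.ne' s0.ne']
    exact Real.log_le_sub_one_of_pos (div_pos s0' s0)
  have h1 : b * (Real.log s' - Real.log s) ≤ b * (s' / s - 1) :=
    mul_le_mul_of_nonneg_left hlog hb
  have h2 : C / s' - C / s ≤ b * (1 - s' / s) := by
    have e1 : C / s' - C / s = C * ((s - s') / (s * s')) := by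
      field_simp
    have e2 : b * (1 - s' / s) = (b * s') * ((s - s') / (s * s')) := by
      field_simp
    rw [e1, e2]
    exact mul_le_mul_of_nonneg_right hC (div_nonneg (by linarith) (by positivity))
  have e3 : (C + u) / s = C / s + u / s := by ring
  rw [e3]
  nlinarith [h1, h2]

theorem psi_dec (G b : ℕ) (c : Lit n → ℕ) (x : Fin n → Bool) (hc : ∀ l, c l ≤ b)
    (h0 : nsup c ≠ 0) (h1 : nsup (dec G c x) ≠ 0) (hd : dns G c x = true) :
    1 + G * psi b (dec G c x) ≤ G * psi b c := by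
  have hs : (1 : ℝ) ≤ (nsup c : ℝ) := by
    exact_mod_cast Nat.one_le_iff_ne_zero.mpr h0
  have hs' : (1 : ℝ) ≤ (nsup (dec G c x) : ℝ) := by
    exact_mod_cast Nat.one_le_iff_ne_zero.mpr h1
  have hle : (nsup (dec G c x) : ℝ) ≤ (nsup c : ℝ) := by
    exact_mod_cast nsup_le c _ (dec_le G c x)
  have hC : ((∑ l, dec G c x l : ℕ) : ℝ) ≤ (b : ℝ) * (nsup (dec G c x) : ℝ) := by
    exact_mod_cast sum_le b _ fun l => (dec_le G c x l).trans (hc l)
  have hsum : ((∑ l, dec G c x l : ℕ) : ℝ) + (nhit x c : ℝ) = ((∑ l, c l : ℕ) : ℝ) := by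
    exact_mod_cast sum_dec G c x hd
  have key := ineq b ((∑ l, dec G c x l : ℕ) : ℝ) (nhit x c : ℝ) (nsup c) (nsup (dec G c x))
    (Nat.cast_nonneg b) hs hs' hle hC
  rw [hsum] at key
  have hd' : nsup c ≤ G * nhit x c := by
    have := hd
    unfold dns at this
    exact of_decide_eq_true this
  have hG : (1 : ℝ) ≤ (G : ℝ) * ((nhit x c : ℝ) / (nsup c : ℝ)) := by
    rw [← mul_div_assoc, le_div_iff₀ (by linarith)]
    rw [one_mul]
    exact_mod_cast hd'
  have hkey : (G : ℝ) * psi b (dec G c x) ≤ G * (psi b c - (nhit x c : ℝ) / (nsup c : ℝ)) := by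
    refine mul_le_mul_of_nonneg_left ?_ (Nat.cast_nonneg G)
    unfold psi
    exact key
  rw [mul_sub] at hkey
  linarith

theorem main (G b : ℕ) (H : Seq n) : ∀ (c : Lit n → ℕ), (∀ l, c l ≤ b) →
    (∀ P Q : Seq n, H = P ++ Q → nsup (decs G c P) ≠ 0) →
    (ndns G c H : ℝ) ≤ G * psi b c := by
  induction H with
  | nil =>
    intro c _ hn
    have h0 : nsup c ≠ 0 := hn [] [] rfl
    have := psi_nonneg b c h0
    simp only [ndns, Nat.cast_zero]
    positivity
  | cons z H ih =>
    intro c hc hn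
    have h0 : nsup c ≠ 0 := hn [] (z :: H) rfl
    have hn' : ∀ P Q : Seq n, H = P ++ Q → nsup (decs G (dec G c z.1) P) ≠ 0 := by
      intro P Q hPQ
      have := hn (z :: P) Q (by rw [hPQ]; rfl)
      exact this
    have h1 : nsup (dec G c z.1) ≠ 0 := hn' [] H rfl
    have ih' := ih (dec G c z.1) (fun l => (dec_le G c z.1 l).trans (hc l)) hn'
    by_cases hd : dns G c z.1 = true
    · have := psi_dec G b c z.1 hc h0 h1 hd
      have e : (ndns G c (z :: H) : ℝ) = 1 + (ndns G (dec G c z.1) H : ℝ) := by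
        simp [ndns, hd]
      rw [e]
      linarith
    · have hd' : dns G c z.1 = false := by simpa using hd
      have e2 := dec_sparse G c z.1 hd'
      have e : (ndns G c (z :: H) : ℝ) = (ndns G (dec G c z.1) H : ℝ) := by
        simp [ndns, hd']
      rw [e]
      rw [e2] at ih' ⊢
      exact ih'

end DCT

open DCT in
/-- the number of dense rounds -/
theorem t_DCT : Stmt_DCT := by
  intro n G b c H hc hn
  have h0 : nsup c ≠ 0 := hn [] H rfl
  have hm := main G b H c hc hn
  have hs : (1 : ℝ) ≤ (nsup c : ℝ) := by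
    exact_mod_cast Nat.one_le_iff_ne_zero.mpr h0
  have hs2 : (nsup c : ℝ) ≤ 2 * n := by
    exact_mod_cast nsup_le_card c
  have h1 : ((∑ l, c l : ℕ) : ℝ) / (nsup c : ℝ) ≤ b := by
    rw [div_le_iff₀ (by linarith)]
    exact_mod_cast sum_le b c hc
  have h2 : Real.log (nsup c) ≤ Real.log (2 * n) :=
    Real.log_le_log (by linarith) hs2
  have h3 : psi b c ≤ b * (1 + Real.log (2 * n)) := by
    unfold psi
    have := mul_le_mul_of_nonneg_left h2 (Nat.cast_nonneg (α := ℝ) b)
    linarith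
  calc (ndns G c H : ℝ) ≤ G * psi b c := hm
    _ ≤ G * (b * (1 + Real.log (2 * n))) :=
        mul_le_mul_of_nonneg_left h3 (Nat.cast_nonneg G)
    _ = G * b * (1 + Real.log (2 * n)) := by ring

end Pool.Agent.RDisj
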