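import Pool.Agent.Lib_helper88.OnlineDisj.Analysis
import Pool.Agent.Lib_helper88.PolyTime.Size

/-!
# Online learning against the best disjunction: competitive ratio `r ^ α` for `r ≥ n ^ ε`

The algorithm. A phase consists of `L` rounds, a round is a trial in which the learner errs. The
memory is a countdown and a list of configurations. A configuration carries a class `j` (dense or
sparse), a budget `b`, a threshold `G`, the number `r` of cuts it may still make, and for every
literal a budget and a weight. On a round with label `0` every configuration with `r > 0` has a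
child, obtained by a cut.
-/

set_option autoImplicit false

namespace Pool.Agent.RDisj

open Pool.Agent.PT Pool.Agent.OnlineDisj

/-! ## The algorithm on functions -/

/-- the literals over `n` variables -/
abbrev Lit (n : ℕ) : Type := Fin n × Bool

/-- number of literals of nonzero budget -/
def nsup {n : ℕ} (c : Lit n → ℕ) : ℕ := ∑ l, if c l = 0 then 0 else 1

/-- number of satisfied literals of nonzero budget -/
def nhit {n : ℕ} (x : Fin n → Bool) (c : Lit n → ℕ) : ℕ :=
  ∑ l, if sat x l then (if c l = 0 then 0 else 1) else 0

/-- the instance `x` is dense for the budgets `c` -/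
def dns {n : ℕ} (G : ℕ) (c : Lit n → ℕ) (x : Fin n → Bool) : Bool :=
  decide (nsup c ≤ G * nhit x c)

/-- the budgets after a round without cut: a dense instance costs one unit -/
def dec {n : ℕ} (G : ℕ) (c : Lit n → ℕ) (x : Fin n → Bool) : Lit n → ℕ :=
  fun l => if sat x l then (if dns G c x then c l - 1 else c l) else c l

/-- the budgets after a cut -/
def cut {n : ℕ} (b : ℕ) (c : Lit n → ℕ) (x : Fin n → Bool) : Lit n → ℕ :=
  fun l => if sat x l then (if c l = 0 then 0 else b) else 0

/-- a configuration -/
structure Cf (n : ℕ) where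
  /-- the class: dense or sparse instances -/
  j : Bool
  /-- the initial budget -/
  b : ℕ
  /-- the density threshold -/
  G : ℕ
  /-- number of cuts left -/
  r : ℕ
  /-- budgets -/
  c : Lit n → ℕ
  /-- weights -/
  w : Lit n → ℕ

/-- the contribution of a configuration to the sum of weights -/
def score {n : ℕ} (x : Fin n → Bool) (s : Cf n) : ℕ :=
  if dns s.G s.c x = s.j then tot x s.w else 0

/-- sum of the contributions -/
def scores {n : ℕ} (x : Fin n → Bool) (l : List (Cf n)) : ℕ := (l.map (score x)).sum

/-- the configuration after the round `(x, y)`, without cut -/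
def stay {n : ℕ} (x : Fin n → Bool) (y : Bool) (s : Cf n) : Cf n where
  j := s.j
  b := s.b
  G := s.G
  r := s.r
  c := dec s.G s.c x
  w := fun l => if sat x l then (if dns s.G s.c x = s.j then
    (if y then s.w l + s.w l else (s.w l + 1) / 2) else s.w l) else s.w l

/-- the configuration after a cut -/
def fire {n : ℕ} (x : Fin n → Bool) (s : Cf n) : Cf n where
  j := s.j
  b := s.b
  G := s.G
  r := s.r - 1
  c := cut s.b s.c x
  w := fun _ => 1

/-- the children of a configuration in the round `(x, y)` -/
def fork {n : ℕ} (z : (Fin n → Bool) × Bool) (s : Cf n) : List (Cf n) :=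
  if (z.2 || decide (s.r = 0)) then [stay z.1 z.2 s] else [stay z.1 z.2 s, fire z.1 s]

/-- the configurations after a list of rounds -/
def gen {n : ℕ} (l : List (Cf n)) (H : Seq n) : List (Cf n) :=
  H.foldl (fun l z => l.flatMap (fork z)) l

/-- the initial configurations: all classes, budgets and thresholds `≤ L`, and `k` cuts -/
def initS (n k L : ℕ) : List (Cf n) :=
  (List.range (L + 1)).flatMap fun b => (List.range (L + 1)).flatMap fun G =>
    [⟨true, b, G, k, fun _ => b, fun _ => 1⟩, ⟨false, b, G, k, fun _ => b, fun _ => 1⟩]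

/-! ## The algorithm on lists -/

/-- parameters of a configuration: class, initial budget, threshold, number of cuts left -/
abbrev Par : Type := Bool × U × U × U

/-- a configuration: parameters and cells (budget and weight of every literal) -/
abbrev Conf : Type := Par × List Cells

/-- memory: countdown and configurations -/
abbrev Mem : Type := U × List Conf

/-- the numbers `0, …, m - 1` -/
def upto (m : U) : List U := (List.range m.val).map U.mk

/-- number of cells of nonzero budget -/
def supC (c : List Cells) : U :=
  c.foldl (fun s z => ⟨s.val + ((if decide (z.1.1.val = 0) then 0 else 1) +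
    (if decide (z.2.1.val = 0) then 0 else 1))⟩) ⟨0⟩

/-- number of cells of satisfied literals of nonzero budget -/
def hitC (x : List Bool) (c : List Cells) : U :=
  (x.zip c).foldl (fun s z => ⟨s.val + (if decide ((sel z).1.val = 0) then 0 else 1)⟩) ⟨0⟩

/-- is the instance dense? -/
def dnsC (x : List Bool) (s : Conf) : Bool :=
  decide ((supC s.2).val ≤ s.1.2.2.1.val * (hitC x s.2).val)

/-- the contribution of a configuration to the sum of weights -/
def scoreC (x : List Bool) (s : Conf) : U :=
  if dnsC x s == s.1.1 then total x s.2 else ⟨0⟩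

/-- sum of the contributions -/
def scoresC (x : List Bool) (l : List Conf) : U :=
  l.foldl (fun s t => ⟨s.val + (scoreC x t).val⟩) ⟨0⟩

/-- the cell of a satisfied literal after a round without cut; `e` says: dense, awake, label -/
def stayCell (e : Bool × Bool × Bool) (c : Cell) : Cell :=
  (if e.1 then ⟨c.1.val - 1⟩ else c.1,
    if e.2.1 then (if e.2.2 then ⟨c.2.val + c.2.val⟩ else ⟨(c.2.val + 1) / 2⟩) else c.2)

/-- the cell of a satisfied literal after a cut -/
def fireCell (b : U) (c : Cell) : Cell := (if decide (c.1.val = 0) then ⟨0⟩ else b, ⟨1⟩)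

/-- the cell of an unsatisfied literal after a cut -/
def zeroCell : Cell := (⟨0⟩, ⟨1⟩)

/-- a round without cut -/
def stayC (x : List Bool) (y : Bool) (s : Conf) : Conf :=
  (s.1, (x.zip s.2).map fun z =>
    if z.1 then (stayCell (dnsC x s, dnsC x s == s.1.1, y) z.2.1, z.2.2)
    else (z.2.1, stayCell (dnsC x s, dnsC x s == s.1.1, y) z.2.2))

/-- a cut -/
def fireC (x : List Bool) (s : Conf) : Conf :=
  ((s.1.1, s.1.2.1, s.1.2.2.1, ⟨s.1.2.2.2.val - 1⟩), (x.zip s.2).map fun z =>
    if z.1 then (fireCell s.1.2.1 z.2.1, zeroCell) else (zeroCell, fireCell s.1.2.1 z.2.2))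

/-- the children of a configuration in the round `(x, y)` -/
def forkC (x : List Bool) (y : Bool) (s : Conf) : List Conf :=
  if (y || decide (s.1.2.2.2.val = 0)) then [stayC x y s] else [stayC x y s, fireC x s]

/-- the initial configurations for instances of the length of `x` -/
def initC (k : ℕ) (x : List Bool) (L : U) : List Conf :=
  (upto ⟨L.val + 1⟩).flatMap fun b => (upto ⟨L.val + 1⟩).flatMap fun G =>
    [((true, b, G, ⟨k⟩), x.map fun _ => ((b, ⟨1⟩), (b, ⟨1⟩))),
      ((false, b, G, ⟨k⟩), x.map fun _ => ((b, ⟨1⟩), (b, ⟨1⟩)))]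

/-- the initial memory; `P` is the polynomial for the length of a phase -/
def initMem (k : ℕ) (P : Polynomial ℕ) (x : List Bool) : Mem :=
  (⟨P.eval x.length⟩, initC k x ⟨P.eval x.length⟩)

/-- empty memory -/
def start : Mem := (⟨0⟩, [])

/-- initialise the memory if it is empty -/
def ready (k : ℕ) (P : Polynomial ℕ) (p : Mem × List Bool) : Mem :=
  if p.1.2.isEmpty then initMem k P p.2 else p.1

/-- the prediction; `T` is the polynomial for the threshold -/
def predict (k : ℕ) (P T : Polynomial ℕ) (p : Mem × List Bool) : Bool :=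
  decide (T.eval p.2.length ≤ (scoresC p.2 (ready k P p).2).val)

/-- the update of the memory -/
def update (k : ℕ) (P T : Polynomial ℕ) (p : Mem × List Bool × Bool) : Mem :=
  if predict k P T (p.1, p.2.1) == p.2.2 then ready k P (p.1, p.2.1)
  else if decide ((ready k P (p.1, p.2.1)).1.val ≤ 1) then start
  else (⟨(ready k P (p.1, p.2.1)).1.val - 1⟩,
    (ready k P (p.1, p.2.1)).2.flatMap (forkC p.2.1 p.2.2))

/-- the learner with `k` cuts, phases of length `P(n)` and threshold `T(n)` -/
def learner (k : ℕ) (P T : Polynomial ℕ) : Learner Mem where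
  start := start
  predict := predict k P T
  update := update k P T

/-! ## Comparison -/

/-- the list form of a configuration -/
def confOf {n : ℕ} (s : Cf n) : Conf := ((s.j, ⟨s.b⟩, ⟨s.G⟩, ⟨s.r⟩), cellsOf s.c s.w)

/-- the memory after the rounds `H` of the current phase -/
def memOf (n k L : ℕ) (H : Seq n) : Mem :=
  (⟨L - H.length⟩, (gen (initS n k L) H).map confOf)

/-! ## The analysis of one phase -/

/-- budgets after a list of rounds without cut -/
def decs {n : ℕ} (G : ℕ) (c : Lit n → ℕ) (H : Seq n) : Lit n → ℕ :=
  H.foldl (fun c z => dec G c z.1) c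

/-- number of rounds with label `y`, class `j`, in which the literal `l` is satisfied -/
def cnt {n : ℕ} (G : ℕ) (y j : Bool) (l : Lit n) : (Lit n → ℕ) → Seq n → ℕ
  | _, [] => 0
  | c, z :: H => (if z.2 = y ∧ sat z.1 l ∧ dns G c z.1 = j then 1 else 0) +
      cnt G y j l (dec G c z.1) H

/-- number of dense rounds -/
def ndns {n : ℕ} (G : ℕ) : (Lit n → ℕ) → Seq n → ℕ
  | _, [] => 0
  | c, z :: H => (if dns G c z.1 then 1 else 0) + ndns G (dec G c z.1) H

/-- the balance of a configuration at every moment -/
def Bal {n : ℕ} (D G : ℕ) (c : Lit n → ℕ) (H : Seq n) : Prop :=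
  ∀ P Q : Seq n, H = P ++ Q → ∀ (j : Bool) (l : Lit n), cnt G true j l c P ≤ cnt G false j l c P + D

/-- balance of a configuration and of all descendants of at most `p - 1` cuts -/
def Good {n : ℕ} (D G b : ℕ) : ℕ → (Lit n → ℕ) → Seq n → Prop
  | 0, _, _ => True
  | p + 1, c, H => Bal D G c H ∧ ∀ (H1 H2 : Seq n) (x : Fin n → Bool),
      H = H1 ++ (x, false) :: H2 → Good D G b p (cut b (decs G c H1) x) H2

/-- number of noise rounds of the disjunction `h` -/
def noise {n : ℕ} (h : Finset (Lit n)) (H : Seq n) : ℕ :=
  H.countP fun z => !z.2 && disj h z.1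

/-- number of rounds with label `1` which are covered by the disjunction `h` -/
def covered {n : ℕ} (h : Finset (Lit n)) (H : Seq n) : ℕ :=
  H.countP fun z => z.2 && disj h z.1

/-- the constants of the moment bounds -/
def CC : ℕ → ℕ
  | 0 => 0
  | p + 1 => 3 ^ (p + 2) * ((p + 2) * CC p + 1)

/-- the rounds `H` are mistakes of the algorithm with threshold `θ`, starting from `l0` -/
def Legal {n : ℕ} (θ : ℕ) (l0 : List (Cf n)) (H : Seq n) : Prop :=
  ∀ (H1 H2 : Seq n) (x : Fin n → Bool) (y : Bool), H = H1 ++ (x, y) :: H2 →
    decide (θ ≤ scores x (gen l0 H1)) ≠ y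

end Pool.Agent.RDisj
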