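import Pool.Agent.RDisj.WIN
import Pool.Agent.RDisj.COMB

/-!
# Final assembly
-/

set_option autoImplicit false

namespace Pool.Agent.RDisj

open Pool.Agent.PT Pool.Agent.OnlineDisj

namespace FIN

theorem exists_opt {n : ℕ} (S : Seq n) : ∃ h : Finset (Lit n), errors h S = mDisj S ∧
    h.card ≤ 2 * rDisj S ∧ rDisj S ≤ n := by
  have h0 : ∃ h : Finset (Lit n), errors h S = mDisj S := by
    have : mDisj S ∈ Set.range fun h : Finset (Fin n × Bool) => errors h S :=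
      Nat.sInf_mem ⟨_, ∅, rfl⟩
    exact this
  have h1 : rDisj S ∈ {r | ∃ h : Finset (Fin n × Bool), errors h S = mDisj S ∧
      (h.image Prod.fst).card = r} := by
    apply Nat.sInf_mem
    obtain ⟨h, hh⟩ := h0
    exact ⟨_, h, hh, rfl⟩
  obtain ⟨h, hh, hr⟩ := h1
  refine ⟨h, hh, ?_, ?_⟩
  · rw [← hr]
    have hsub : h ⊆ (h.image Prod.fst) ×ˢ (Finset.univ : Finset Bool) := by
      intro l hl
      rw [Finset.mem_product]
      exact ⟨Finset.mem_image_of_mem _ hl, Finset.mem_univ _⟩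
    have := Finset.card_le_card hsub
    rw [Finset.card_product, Finset.card_univ, Fintype.card_bool] at this
    omega
  · rw [← hr]
    calc (h.image Prod.fst).card ≤ (Finset.univ : Finset (Fin n)).card :=
          Finset.card_le_card (Finset.subset_univ _)
      _ = n := by simp

/-- the threshold -/
theorem exists_G (K n : ℕ) (hK : 1 ≤ K) (hn : 1 ≤ n) : ∃ G : ℕ, 2 * n < G ^ K ∧
    G ≤ 2 * n + 1 ∧ (G : ℝ) ≤ 4 * (n : ℝ) ^ ((1 : ℝ) / K) := by
  have hK0 : (0 : ℝ) < K := by exact_mod_cast hK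
  have hn0 : (1 : ℝ) ≤ n := by exact_mod_cast hn
  set x : ℝ := ((2 * n : ℕ) : ℝ) ^ ((1 : ℝ) / K) with hx
  have h2n : (1 : ℝ) ≤ ((2 * n : ℕ) : ℝ) := by
    push_cast
    linarith
  have hx1 : 1 ≤ x := Real.one_le_rpow h2n (by positivity)
  have hx0 : 0 ≤ x := by linarith
  have hxK : x ^ K = ((2 * n : ℕ) : ℝ) := by
    rw [hx, ← Real.rpow_natCast, ← Real.rpow_mul (by linarith), one_div_mul_cancel hK0.ne',
      Real.rpow_one]
  refine ⟨⌊x⌋₊ + 1, ?_, ?_, ?_⟩
  · have h1 : x < ((⌊x⌋₊ + 1 : ℕ) : ℝ) := by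
      push_cast
      exact Nat.lt_floor_add_one x
    have h2 : x ^ K < ((⌊x⌋₊ + 1 : ℕ) : ℝ) ^ K := pow_lt_pow_left₀ h1 hx0 (by omega)
    rw [hxK] at h2
    exact_mod_cast h2
  · have h1 : x ≤ ((2 * n : ℕ) : ℝ) := by
      rw [hx]
      calc ((2 * n : ℕ) : ℝ) ^ ((1 : ℝ) / K) ≤ ((2 * n : ℕ) : ℝ) ^ (1 : ℝ) := by
            apply Real.rpow_le_rpow_of_exponent_le h2n
            rw [div_le_one hK0]
            exact_mod_cast hK
        _ = _ := Real.rpow_one _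
    have h2 : ⌊x⌋₊ ≤ 2 * n := Nat.floor_le_of_le h1
    omega
  · have h1 : (⌊x⌋₊ : ℝ) ≤ x := Nat.floor_le hx0
    have h2 : x = 2 ^ ((1 : ℝ) / K) * (n : ℝ) ^ ((1 : ℝ) / K) := by
      rw [hx]
      push_cast
      rw [Real.mul_rpow (by norm_num) (by linarith)]
    have h3 : (2 : ℝ) ^ ((1 : ℝ) / K) ≤ 2 := by
      calc (2 : ℝ) ^ ((1 : ℝ) / K) ≤ (2 : ℝ) ^ (1 : ℝ) := by
            apply Real.rpow_le_rpow_of_exponent_le (by norm_num)
            rw [div_le_one hK0]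
            exact_mod_cast hK
        _ = 2 := Real.rpow_one _
    have h4 : (0 : ℝ) ≤ (n : ℝ) ^ ((1 : ℝ) / K) := by positivity
    have h5 : x ≤ 2 * (n : ℝ) ^ ((1 : ℝ) / K) := by
      rw [h2]
      exact mul_le_mul_of_nonneg_right h3 h4
    push_cast
    linarith

/-- the constant -/
def cst (K : ℕ) : ℕ := 25 * 2 ^ K * CC K + 1

/-- the quantity under the root -/
noncomputable def Zq (K : ℕ) (r n : ℝ) : ℝ := r ^ K * n ^ ((1 : ℝ) / K) * (1 + Real.log n)

theorem one_le_Zq {K : ℕ} {r n : ℝ} (hr : 1 ≤ r) (hn : 1 ≤ n) : 1 ≤ Zq K r n := by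
  unfold Zq
  have h1 : 1 ≤ r ^ K := one_le_pow₀ hr
  have h2 : 1 ≤ n ^ ((1 : ℝ) / K) := Real.one_le_rpow hn (by positivity)
  have h3 : 0 ≤ Real.log n := Real.log_nonneg hn
  have h4 : 1 ≤ r ^ K * n ^ ((1 : ℝ) / K) := one_le_mul_of_one_le_of_one_le h1 h2
  have h5 : (1 : ℝ) ≤ 1 + Real.log n := by linarith
  exact one_le_mul_of_one_le_of_one_le h4 h5

theorem Q_le (K n G hc : ℕ) (r : ℝ) (hn : 1 ≤ n) (hr : 1 ≤ r)
    (hh : (hc : ℝ) ≤ 2 * r) (hG : (G : ℝ) ≤ 4 * (n : ℝ) ^ ((1 : ℝ) / K)) :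
    (hc : ℝ) ^ K * CC K * (1 + 3 * G * (1 + Real.log (2 * n))) ≤ cst K * Zq K r n := by
  have hn0 : (1 : ℝ) ≤ n := by exact_mod_cast hn
  have hlog : 0 ≤ Real.log n := Real.log_nonneg hn0
  have hlog2 : Real.log 2 ≤ 1 := by
    have := Real.log_two_lt_d9
    linarith
  have hl : Real.log (2 * n) = Real.log 2 + Real.log n :=
    Real.log_mul (by norm_num) (by linarith)
  have hl2 : 1 + Real.log (2 * n) ≤ 2 * (1 + Real.log n) := by
    rw [hl]
    linarith
  have hm1 : 1 ≤ (n : ℝ) ^ ((1 : ℝ) / K) := Real.one_le_rpow hn0 (by positivity)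
  set w : ℝ := (n : ℝ) ^ ((1 : ℝ) / K) with hw
  have hl3 : 0 ≤ 1 + Real.log (2 * n) := by
    rw [hl]
    have := Real.log_nonneg (show (1 : ℝ) ≤ 2 by norm_num)
    linarith
  have hE : 1 + 3 * (G : ℝ) * (1 + Real.log (2 * n)) ≤ 25 * (w * (1 + Real.log n)) := by
    have h1 : 3 * (G : ℝ) * (1 + Real.log (2 * n)) ≤ 3 * (4 * w) * (2 * (1 + Real.log n)) := by
      apply mul_le_mul
      · linarith
      · exact hl2
      · exact hl3
      · linarith
    have h2 : 1 ≤ w * (1 + Real.log n) :=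
      one_le_mul_of_one_le_of_one_le hm1 (by linarith)
    nlinarith
  have hpow : (hc : ℝ) ^ K ≤ 2 ^ K * r ^ K := by
    rw [← mul_pow]
    exact pow_le_pow_left₀ (Nat.cast_nonneg _) hh K
  have hE0 : 0 ≤ 1 + 3 * (G : ℝ) * (1 + Real.log (2 * n)) := by positivity
  have hZ : (cst K : ℝ) * Zq K r n =
      25 * 2 ^ K * CC K * (r ^ K * w * (1 + Real.log n)) + Zq K r n := by
    unfold cst Zq
    push_cast
    ring
  have hZ1 : 0 ≤ Zq K r n := by
    have := one_le_Zq (K := K) hr hn0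
    linarith
  rw [hZ]
  have hfin : (hc : ℝ) ^ K * CC K * (1 + 3 * G * (1 + Real.log (2 * n))) ≤
      2 ^ K * r ^ K * CC K * (25 * (w * (1 + Real.log n))) := by
    apply mul_le_mul _ hE hE0 (by positivity)
    exact mul_le_mul_of_nonneg_right hpow (Nat.cast_nonneg _)
  have : 2 ^ K * r ^ K * CC K * (25 * (w * (1 + Real.log n))) =
      25 * 2 ^ K * CC K * (r ^ K * w * (1 + Real.log n)) := by ring
  linarith

theorem Zq_root_le (K n : ℕ) (r : ℝ) (hK : 1 ≤ K) (hn : 1 ≤ n) (hr : 1 ≤ r) (hrn : r ≤ n) :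
    Zq K r n ^ ((1 : ℝ) / (K + 1)) ≤ (n : ℝ) ^ 2 := by
  have hn0 : (1 : ℝ) ≤ n := by exact_mod_cast hn
  have hK0 : (0 : ℝ) < K := by exact_mod_cast hK
  have h1 : Zq K r n ≤ ((n : ℝ) ^ 2) ^ (K + 1) := by
    have hlog : Real.log n ≤ n - 1 := Real.log_le_sub_one_of_pos (by linarith)
    have hw : (n : ℝ) ^ ((1 : ℝ) / K) ≤ n := by
      calc (n : ℝ) ^ ((1 : ℝ) / K) ≤ (n : ℝ) ^ (1 : ℝ) := by
            apply Real.rpow_le_rpow_of_exponent_le hn0
            rw [div_le_one hK0]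
            exact_mod_cast hK
        _ = n := Real.rpow_one _
    have hl0 : 0 ≤ Real.log n := Real.log_nonneg hn0
    calc Zq K r n ≤ (n : ℝ) ^ K * n * n := by
          unfold Zq
          apply mul_le_mul
          · apply mul_le_mul
            · exact pow_le_pow_left₀ (by linarith) hrn K
            · exact hw
            · positivity
            · positivity
          · linarith
          · linarith
          · positivity
      _ = (n : ℝ) ^ (K + 2) := by ring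
      _ ≤ (n : ℝ) ^ (2 * (K + 1)) := pow_le_pow_right₀ hn0 (by omega)
      _ = _ := by rw [pow_mul]
  have hZ0 : 0 ≤ Zq K r n := by
    have := one_le_Zq (K := K) hr hn0
    linarith
  calc Zq K r n ^ ((1 : ℝ) / (K + 1)) ≤ (((n : ℝ) ^ 2) ^ (K + 1)) ^ ((1 : ℝ) / (K + 1)) :=
        Real.rpow_le_rpow hZ0 h1 (by positivity)
    _ = (n : ℝ) ^ 2 := by
        rw [← Real.rpow_natCast ((n : ℝ) ^ 2) (K + 1), ← Real.rpow_mul (by positivity)]
        push_cast
        rw [mul_one_div_cancel (by positivity), Real.rpow_one]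

/-- the main bound for a fixed number of cuts -/
theorem main_K (hPTU : Stmt_PTU) (hPHB : Stmt_PHB) (hPHS : Stmt_PHS) (hMEMB : Stmt_MEMB)
    (hPAR : Stmt_PAR) (hNEG : Stmt_NEG) (hBRG : Stmt_BRG) (hASG : Stmt_ASG) (K : ℕ)
    (hK : 1 ≤ K) :
    ∃ (L : Learner Mem), L.PolyTime ∧
      ∃ (C : ℝ) (p : Polynomial ℕ), 0 ≤ C ∧ ∀ n : ℕ, 1 ≤ n → ∀ S : Seq n,
        (L.mistakes S : ℝ) ≤ C * Zq K (max 1 (rDisj S : ℝ)) n ^ ((1 : ℝ) / (K + 1)) * mDisj S +
          (p.eval n : ℕ) ∧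
        (L.mistakes S : ℝ) ≤ C * max 1 (rDisj S : ℝ) * mDisj S + (p.eval n : ℕ) := by
  obtain ⟨A, hA1, hA⟩ := hPAR K (5 * (1 + cst K) + 15)
  set P : Polynomial ℕ := Polynomial.C A * Polynomial.X ^ 4 with hP
  set T : Polynomial ℕ := 8 * (Polynomial.X + 1) * (P + 1) ^ (K + 1) with hT
  have hPe : ∀ n, P.eval n = A * n ^ 4 := by
    intro n
    simp [hP]
  have hTe : ∀ n, T.eval n = 2 * (4 * (n + 1) * (A * n ^ 4 + 1) ^ (K + 1)) := by
    intro n
    simp only [hT, Polynomial.eval_mul, Polynomial.eval_add, Polynomial.eval_X,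
      Polynomial.eval_one, Polynomial.eval_pow, Polynomial.eval_ofNat, hPe]
    ring
  have hT1 : ∀ n, 1 ≤ T.eval n := by
    intro n
    rw [hTe]
    have : 0 < (n + 1) * (A * n ^ 4 + 1) ^ (K + 1) := by positivity
    nlinarith
  refine ⟨learner (K - 1) P T,
    ⟨(hPTU (K - 1) P T).1.isPolyTime, (hPTU (K - 1) P T).2.isPolyTime,
      hMEMB (K - 1) P T hT1⟩, 10 * (1 + cst K) + 30, P, by positivity, ?_⟩
  intro n hn S
  obtain ⟨D, hD1, hD2, hD3, hD4, hD5⟩ := hA n hn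
  obtain ⟨h, hh, hcard, hrn⟩ := exists_opt S
  obtain ⟨G, hG1, hG2, hG3⟩ := exists_G K n hK hn
  have hn0 : (1 : ℝ) ≤ n := by exact_mod_cast hn
  set r : ℝ := max 1 (rDisj S : ℝ) with hr
  have hr1 : 1 ≤ r := le_max_left _ _
  have hrn' : r ≤ n := max_le hn0 (by exact_mod_cast hrn)
  have hcard' : (h.card : ℝ) ≤ 2 * r := by
    have h1 : (h.card : ℝ) ≤ 2 * (rDisj S : ℝ) := by exact_mod_cast hcard
    have h2 : (rDisj S : ℝ) ≤ r := le_max_right _ _
    linarith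
  have hQ := Q_le K n G h.card r hn hr1 hcard' hG3
  set Q : ℝ := (h.card : ℝ) ^ K * CC K * (1 + 3 * G * (1 + Real.log (2 * n))) with hQdef
  have hlog0 : 0 ≤ Real.log (2 * n) := Real.log_nonneg (by linarith)
  have hQ0 : 0 ≤ Q := by positivity
  set Y : ℝ := Q ^ ((1 : ℝ) / (K + 1)) with hY
  have hY0 : 0 ≤ Y := by positivity
  have hYK : Y ^ (K + 1) = Q := by
    rw [hY, ← Real.rpow_natCast, ← Real.rpow_mul hQ0]
    push_cast
    rw [one_div_mul_cancel (by positivity), Real.rpow_one]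
  have hZ1 := one_le_Zq (K := K) hr1 hn0
  set W : ℝ := Zq K r n ^ ((1 : ℝ) / (K + 1)) with hW
  have hW1 : 1 ≤ W := Real.one_le_rpow hZ1 (by positivity)
  have hYW : Y ≤ cst K * W := by
    have hc1 : (1 : ℝ) ≤ cst K := by
      unfold cst
      push_cast
      have : (0 : ℝ) ≤ 25 * 2 ^ K * CC K := by positivity
      linarith
    calc Y ≤ (cst K * Zq K r n) ^ ((1 : ℝ) / (K + 1)) :=
          Real.rpow_le_rpow hQ0 hQ (by positivity)
      _ = (cst K : ℝ) ^ ((1 : ℝ) / (K + 1)) * W := by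
          rw [Real.mul_rpow (by linarith) (by linarith)]
      _ ≤ cst K * W := by
          apply mul_le_mul_of_nonneg_right _ (by linarith)
          calc (cst K : ℝ) ^ ((1 : ℝ) / (K + 1)) ≤ (cst K : ℝ) ^ (1 : ℝ) := by
                apply Real.rpow_le_rpow_of_exponent_le hc1
                rw [div_le_one (by positivity)]
                have : (0 : ℝ) ≤ K := Nat.cast_nonneg _
                linarith
            _ = cst K := Real.rpow_one _
  set X : ℝ := 5 * (1 + Y) with hX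
  have hX5 : 5 ≤ X := by linarith
  have hXY : X / 5 - 1 = Y := by
    rw [hX]
    ring
  have hcc : (0 : ℝ) ≤ cst K := Nat.cast_nonneg _
  have hXW : X ≤ 5 * (1 + cst K) * W := by
    rw [hX]
    nlinarith
  have hWn : W ≤ (n : ℝ) ^ 2 := Zq_root_le K n r hK hn hr1 hrn'
  have hX4 : 4 * (n : ℝ) * D * X ≤ ((A * n ^ 4 : ℕ) : ℝ) := by
    have h1 : X ≤ (5 * (1 + cst K) + 15) * (n : ℝ) ^ 2 := by
      have e1 : 5 * (1 + (cst K : ℝ)) * W ≤ 5 * (1 + cst K) * (n : ℝ) ^ 2 :=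
        mul_le_mul_of_nonneg_left hWn (by positivity)
      have e2 : (0 : ℝ) ≤ 15 * (n : ℝ) ^ 2 := by positivity
      linarith
    have h2 : ((4 * n * D * ((5 * (1 + cst K) + 15) * n ^ 2) : ℕ) : ℝ) ≤
        ((A * n ^ 4 : ℕ) : ℝ) := by
      exact_mod_cast hD5
    refine le_trans ?_ h2
    push_cast
    exact mul_le_mul_of_nonneg_left h1 (by positivity)
  have hP1 : 1 ≤ P.eval n := by
    rw [hPe]
    omega
  have hN1 : 4 * n * (A * n ^ 4 + 1) ^ (K + 1) ≤ 4 * (n + 1) * (A * n ^ 4 + 1) ^ (K + 1) :=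
    Nat.mul_le_mul_right _ (by omega)
  have hN2 : 1 ≤ 4 * (n + 1) * (A * n ^ 4 + 1) ^ (K + 1) := by
    have : 0 < (n + 1) * (A * n ^ 4 + 1) ^ (K + 1) := by positivity
    nlinarith
  have hphase : ∀ H : Seq n, H.length = P.eval n →
      Legal (T.eval n) (initS n (K - 1) (P.eval n)) H →
      ((P.eval n : ℕ) : ℝ) ≤ 2 * X * errors h H := by
    intro H hH hL
    rw [hPe] at hH hL ⊢
    rw [hTe] at hL
    refine hPHB K (A * n ^ 4) (4 * (n + 1) * (A * n ^ 4 + 1) ^ (K + 1)) D G h H X hn hK hD1 hG1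
      (by omega) hD2 hN1 hN2 hD4 hL hH hX5 ?_ hX4
    rw [hXY, hYK]
  have hphase2 : ∀ H : Seq n, H.length = P.eval n →
      Legal (T.eval n) (initS n (K - 1) (P.eval n)) H →
      ((P.eval n : ℕ) : ℝ) ≤ 10 * (h.card + 1 : ℕ) * errors h H := by
    intro H hH hL
    rw [hPe] at hH hL ⊢
    rw [hTe] at hL
    refine WIN.phase_le hNEG hBRG hASG (K - 1) (A * n ^ 4)
      (4 * (n + 1) * (A * n ^ 4 + 1) ^ (K + 1)) D h H ?_ hN2 hD4 hL hH (by omega) ?_
    · have e : K - 1 + 2 = K + 1 := by omega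
      rw [e]
      exact hN1
    · have e1 : h.card + 1 ≤ 3 * n := by omega
      have e2 : 20 * (h.card + 1) * D ≤ 20 * (3 * n) * D :=
        Nat.mul_le_mul_right _ (Nat.mul_le_mul_left _ e1)
      have e3 : 20 * (3 * n) * D ≤ 4 * n * D * ((5 * (1 + cst K) + 15) * n ^ 2) := by
        have e4 : 15 ≤ (5 * (1 + cst K) + 15) * n ^ 2 := by
          have : 1 ≤ n ^ 2 := Nat.one_le_pow _ _ hn
          nlinarith
        calc 20 * (3 * n) * D = 4 * n * D * 15 := by ring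
          _ ≤ _ := Nat.mul_le_mul_left _ e4
      omega
  have hmain := hPHS n (K - 1) P T h (2 * X) (by linarith) hP1 hphase S
  have hmain2 := hPHS n (K - 1) P T h (10 * (h.card + 1 : ℕ)) (by positivity) hP1 hphase2 S
  rw [hh] at hmain hmain2
  constructor
  · refine le_trans hmain ?_
    have h1 : 2 * X ≤ (10 * (1 + (cst K : ℝ)) + 30) * W := by nlinarith
    have h2 : 2 * X * (mDisj S : ℝ) ≤ (10 * (1 + (cst K : ℝ)) + 30) * W * mDisj S :=
      mul_le_mul_of_nonneg_right h1 (Nat.cast_nonneg _)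
    linarith
  · refine le_trans hmain2 ?_
    have h1 : 10 * ((h.card + 1 : ℕ) : ℝ) ≤ (10 * (1 + (cst K : ℝ)) + 30) * r := by
      push_cast
      nlinarith
    have h2 : 10 * ((h.card + 1 : ℕ) : ℝ) * (mDisj S : ℝ) ≤
        (10 * (1 + (cst K : ℝ)) + 30) * r * mDisj S :=
      mul_le_mul_of_nonneg_right h1 (Nat.cast_nonneg _)
    linarith

/-- the quantity under the root for `r ≥ n ^ ε` -/
theorem Zq_bound {ε : ℝ} (hε : 0 < ε) (hε1 : ε ≤ 1) (K : ℕ) (hK : K = ⌈2 / ε⌉₊) (n : ℕ)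
    (hn : 1 ≤ n) (r : ℝ) (hr : 1 ≤ r) (hrn : (n : ℝ) ^ ε ≤ r) :
    Zq K r n ^ ((1 : ℝ) / (K + 1)) ≤ (1 + 4 / ε) * r ^ (1 - ε / 16) := by
  have hn0 : (1 : ℝ) ≤ n := by exact_mod_cast hn
  have hr0 : (0 : ℝ) < r := by linarith
  have hK1 : 2 / ε ≤ K := by
    rw [hK]
    exact Nat.le_ceil _
  have hK2 : (K : ℝ) < 2 / ε + 1 := by
    rw [hK]
    exact Nat.ceil_lt_add_one (by positivity)
  have hKpos : (0 : ℝ) < K := lt_of_lt_of_le (by positivity) hK1
  have hnr : (n : ℝ) ≤ r ^ (1 / ε) := by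
    have h1 := Real.rpow_le_rpow (by positivity) hrn (show 0 ≤ 1 / ε by positivity)
    rwa [← Real.rpow_mul (by linarith), mul_one_div_cancel hε.ne', Real.rpow_one] at h1
  have h1 : (n : ℝ) ^ ((1 : ℝ) / K) ≤ r ^ ((1 : ℝ) / 2) := by
    calc (n : ℝ) ^ ((1 : ℝ) / K) ≤ (r ^ (1 / ε)) ^ ((1 : ℝ) / K) :=
          Real.rpow_le_rpow (by linarith) hnr (by positivity)
      _ = r ^ ((1 / ε) * (1 / K)) := by rw [← Real.rpow_mul hr0.le]
      _ ≤ r ^ ((1 : ℝ) / 2) := by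
          apply Real.rpow_le_rpow_of_exponent_le hr
          rw [div_mul_div_comm, mul_one, one_div_le_one_div (by positivity) (by norm_num)]
          rw [div_le_iff₀ hε] at hK1
          linarith
  have h2 : 1 + Real.log n ≤ (1 + 4 / ε) * r ^ ((1 : ℝ) / 4) := by
    have e1 : Real.log n ≤ Real.log (r ^ (1 / ε)) := Real.log_le_log (by linarith) hnr
    rw [Real.log_rpow hr0] at e1
    have e2 : Real.log r ≤ r ^ ((1 : ℝ) / 4) / (1 / 4) := Real.log_le_rpow_div hr0.le (by norm_num)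
    have e3 : 1 ≤ r ^ ((1 : ℝ) / 4) := Real.one_le_rpow hr (by norm_num)
    have e4 : 1 / ε * Real.log r ≤ 1 / ε * (r ^ ((1 : ℝ) / 4) / (1 / 4)) :=
      mul_le_mul_of_nonneg_left e2 (by positivity)
    have e5 : 1 / ε * (r ^ ((1 : ℝ) / 4) / (1 / 4)) = 4 / ε * r ^ ((1 : ℝ) / 4) := by
      field_simp
    rw [add_mul, one_mul]
    linarith
  have hlog0 : 0 ≤ Real.log n := Real.log_nonneg hn0
  have hc1 : (1 : ℝ) ≤ 1 + 4 / ε := by
    have : 0 < 4 / ε := by positivity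
    linarith
  have h3 : Zq K r n ≤ (1 + 4 / ε) * r ^ ((K : ℝ) + 3 / 4) := by
    unfold Zq
    calc r ^ K * (n : ℝ) ^ ((1 : ℝ) / K) * (1 + Real.log n) ≤
        r ^ K * r ^ ((1 : ℝ) / 2) * ((1 + 4 / ε) * r ^ ((1 : ℝ) / 4)) := by
          apply mul_le_mul _ h2 (by linarith) (by positivity)
          exact mul_le_mul_of_nonneg_left h1 (by positivity)
      _ = (1 + 4 / ε) * (r ^ K * r ^ ((1 : ℝ) / 2) * r ^ ((1 : ℝ) / 4)) := by ring
      _ = (1 + 4 / ε) * r ^ ((K : ℝ) + 3 / 4) := by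
          rw [← Real.rpow_natCast r K, ← Real.rpow_add hr0, ← Real.rpow_add hr0]
          congr 2
          ring
  have hZ0 : 0 ≤ Zq K r n := by
    have := one_le_Zq (K := K) hr hn0
    linarith
  calc Zq K r n ^ ((1 : ℝ) / (K + 1)) ≤
      ((1 + 4 / ε) * r ^ ((K : ℝ) + 3 / 4)) ^ ((1 : ℝ) / (K + 1)) :=
        Real.rpow_le_rpow hZ0 h3 (by positivity)
    _ = (1 + 4 / ε) ^ ((1 : ℝ) / (K + 1)) * r ^ (((K : ℝ) + 3 / 4) * (1 / (K + 1))) := by
        rw [Real.mul_rpow (by linarith) (by positivity), ← Real.rpow_mul hr0.le]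
    _ ≤ (1 + 4 / ε) * r ^ (1 - ε / 16) := by
        apply mul_le_mul
        · calc (1 + 4 / ε) ^ ((1 : ℝ) / (K + 1)) ≤ (1 + 4 / ε) ^ (1 : ℝ) := by
                apply Real.rpow_le_rpow_of_exponent_le hc1
                rw [div_le_one (by positivity)]
                linarith
            _ = _ := Real.rpow_one _
        · apply Real.rpow_le_rpow_of_exponent_le hr
          have e1 : ((K : ℝ) + 3 / 4) * (1 / (K + 1)) = 1 - 1 / (4 * (K + 1)) := by
            field_simp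
            ring
          rw [e1]
          have e2 : 4 * ((K : ℝ) + 1) ≤ 16 / ε := by
            have e3 : (2 : ℝ) ≤ 2 / ε := by
              rw [le_div_iff₀ hε]
              linarith
            have e4 : (16 : ℝ) / ε = 8 * (2 / ε) := by ring
            rw [e4]
            linarith
          have e5 : ε / 16 ≤ 1 / (4 * ((K : ℝ) + 1)) := by
            rw [le_div_iff₀ (by positivity)]
            calc ε / 16 * (4 * ((K : ℝ) + 1)) ≤ ε / 16 * (16 / ε) :=
                  mul_le_mul_of_nonneg_left e2 (by positivity)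
              _ = 1 := by field_simp
          linarith
        · positivity
        · linarith

end FIN

end Pool.Agent.RDisj
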