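import Pool.Agent.RDisj.Stmts

/-!
# LEN: number of configurations
-/

set_option autoImplicit false

namespace Pool.Agent.RDisj

open Pool.Agent.PT Pool.Agent.OnlineDisj

namespace LEN

theorem sum_flatMap_le {α β : Type} (F : α → List β) (g : β → ℕ) (h : α → ℕ)
    (hF : ∀ a, ((F a).map g).sum ≤ h a) (l : List α) :
    ((l.flatMap F).map g).sum ≤ (l.map h).sum := by
  induction l with
  | nil => simp
  | cons a l ih =>
    rw [List.flatMap_cons, List.map_append, List.sum_append, List.map_cons, List.sum_cons]
    exact Nat.add_le_add (hF a) ih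

theorem sum_const {α : Type} (c : ℕ) (l : List α) : (l.map fun _ => c).sum = l.length * c := by
  induction l with
  | nil => simp
  | cons a l ih =>
    rw [List.map_cons, List.sum_cons, ih, List.length_cons]
    ring

theorem fork_sum {n : ℕ} (m : ℕ) (z : (Fin n → Bool) × Bool) (s : Cf n) :
    ((fork z s).map fun t => m ^ t.r).sum ≤ (m + 1) ^ s.r := by
  unfold fork
  split_ifs with h
  · have h1 : ([stay z.1 z.2 s].map fun t => m ^ t.r).sum = m ^ s.r := by simp [stay]
    rw [h1]
    exact Nat.pow_le_pow_left (Nat.le_succ m) _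
  · have hr : s.r ≠ 0 := by
      intro h0
      apply h
      simp [h0]
    have h1 : ([stay z.1 z.2 s, fire z.1 s].map fun t => m ^ t.r).sum =
        m ^ s.r + m ^ (s.r - 1) := by simp [stay, fire]
    rw [h1]
    obtain ⟨r, hr⟩ := Nat.exists_eq_succ_of_ne_zero hr
    rw [hr, Nat.succ_sub_one, Nat.succ_eq_add_one]
    have h2 : m ^ r ≤ (m + 1) ^ r := Nat.pow_le_pow_left (Nat.le_succ m) _
    calc m ^ (r + 1) + m ^ r = m ^ r * (m + 1) := by ring
      _ ≤ (m + 1) ^ r * (m + 1) := Nat.mul_le_mul_right _ h2
      _ = (m + 1) ^ (r + 1) := by ring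

theorem gen_length_le {n : ℕ} (H : Seq n) : ∀ l : List (Cf n),
    (gen l H).length ≤ (l.map fun s => (H.length + 1) ^ s.r).sum := by
  induction H with
  | nil =>
    intro l
    have h1 : (l.map fun s : Cf n => (([] : Seq n).length + 1) ^ s.r) = l.map fun _ => 1 := by
      apply List.map_congr_left
      intro s _
      simp
    rw [h1, sum_const]
    simp [gen]
  | cons z H ih =>
    intro l
    have h1 : gen l (z :: H) = gen (l.flatMap (fork z)) H := rfl
    rw [h1]
    refine (ih _).trans ?_
    have h2 : (z :: H).length + 1 = (H.length + 1) + 1 := rfl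
    rw [h2]
    exact sum_flatMap_le (fork z) (fun s => (H.length + 1) ^ s.r)
      (fun s => (H.length + 1 + 1) ^ s.r) (fork_sum (H.length + 1) z) l

end LEN

open LEN in
theorem t_LEN : Stmt_LEN := by
  intro n k L H
  refine (gen_length_le H _).trans ?_
  unfold initS
  refine (sum_flatMap_le _ _ (fun _ => (L + 1) * (2 * (H.length + 1) ^ k)) ?_ _).trans ?_
  · intro b
    refine (sum_flatMap_le _ _ (fun _ => 2 * (H.length + 1) ^ k) ?_ _).trans ?_
    · intro G
      apply le_of_eq
      simp only [List.map_cons, List.map_nil, List.sum_cons, List.sum_nil]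
      ring
    · rw [sum_const, List.length_range]
  · rw [sum_const, List.length_range]
    apply le_of_eq
    ring

end Pool.Agent.RDisj
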