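import Pool.Agent.RDisj.Stmts

/-!
# `flatMap` and `upto` run in polynomial time
-/

set_option autoImplicit false

namespace Pool.Agent.RDisj

open Pool.Agent.PT Pool.Agent.OnlineDisj

namespace LPT

lemma foldl_app {β : Type} (l : List (List β)) (m : List β) :
    l.foldl (fun s a => s ++ a) m = m ++ l.flatten := by
  induction l generalizing m with
  | nil => simp
  | cons a l ih => rw [List.foldl_cons, ih, List.flatten_cons, List.append_assoc]

lemma pt_flatten {δ β : Type} [N487b59b3 δ] [N487b59b3 β] {l : δ → List (List β)} (hl : PT l) :
    PT (fun d => (l d).flatten) := by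
  have h := PT.fold (δ := δ) (ε := Bool) (σ := List β) (α := List β)
    (g := fun p => p.2.1 ++ p.2.2) (e := fun _ => true) (s := fun _ => []) (l := l)
    (PT.append PT.snd.comp_fst PT.snd.comp_snd) Polynomial.X (by
      intro e s a
      show (enc (s ++ a)).length ≤ _
      rw [enc_append, List.length_append, Polynomial.eval_X]
      omega) (PT.const true) (PT.const []) hl
  refine h.congr fun d => ?_
  rw [foldl_app]
  exact List.nil_append _

/-- one step of the construction of `upto` -/
def stepU (p : U × List U) : List U :=
  (if decide (p.2.length ≤ p.1.val) then U.mk p.2.length else p.1) :: p.2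

lemma pt_stepU : PT stepU := by
  refine PT.cons (PT.ite (PT.ule (PT.length PT.snd) PT.fst) (PT.length PT.snd) PT.fst) PT.snd

lemma stepU_growth (e : U) (s : List U) :
    (enc (stepU (e, s))).length ≤ (enc s).length + (2 * Polynomial.X + 1 : Polynomial ℕ).eval
      (enc e).length := by
  unfold stepU
  rw [length_enc_cons, length_enc_U, length_enc_U]
  simp only [Polynomial.eval_add, Polynomial.eval_mul, Polynomial.eval_X, Polynomial.eval_ofNat,
    Polynomial.eval_one]
  split_ifs with h
  · have h1 : s.length ≤ e.val := of_decide_eq_true h
    show 2 * s.length + 1 + (enc s).length ≤ _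
    omega
  · omega

lemma iter_stepU (m : U) (k : ℕ) (hk : k ≤ m.val) :
    (fun s => stepU (m, s))^[k] [] = ((List.range k).map U.mk).reverse := by
  induction k with
  | zero => rfl
  | succ k ih =>
    rw [Function.iterate_succ_apply', ih (by omega), List.range_succ, List.map_append,
      List.reverse_append]
    unfold stepU
    have h1 : ((List.range k).map U.mk).reverse.length = k := by simp
    simp only [h1]
    rw [if_pos (decide_eq_true (by omega : k ≤ m.val))]
    rfl

end LPT

open LPT in
/-- LPT: `flatMap` and `upto` run in polynomial time. -/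
theorem t_LPT : Stmt_LPT := by
  refine ⟨?_, ?_⟩
  · intro δ ε α β _ _ _ _ g e l hg he hl
    refine (pt_flatten (PT.map hg he hl)).congr fun d => ?_
    rw [List.flatMap_def]
  · intro δ _ f hf
    have h := PT.iter (g := stepU) (e := f) (s := fun _ => []) (n := f) pt_stepU
      (2 * Polynomial.X + 1) stepU_growth hf (PT.const []) hf
    refine (PT.reverse.comp h).congr fun d => ?_
    show ((fun s => stepU (f d, s))^[(f d).val] []).reverse = upto (f d)
    rw [iter_stepU (f d) _ le_rfl, List.reverse_reverse]
    rfl

end Pool.Agent.RDisj
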