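import Pool.Agent.RDisj.Stmts

/-!
# MEMB: the memory is polynomially bounded
-/

set_option autoImplicit false

namespace Pool.Agent.RDisj

open Pool.Agent.PT Pool.Agent.OnlineDisj

namespace MEMB

/-- the reachable memories -/
def Reach (k L θ n : ℕ) (s : Mem) : Prop :=
  s = start ∨ ∃ H : Seq n, s = memOf n k L H ∧ Legal θ (initS n k L) H ∧
    (H = [] ∨ H.length < L)

theorem legal_nil {n : ℕ} (θ : ℕ) (l0 : List (Cf n)) : Legal θ l0 ([] : Seq n) := by
  intro H1 H2 x y h
  simp at h

theorem legal_append {n : ℕ} {θ : ℕ} {l0 : List (Cf n)} {H : Seq n} (hH : Legal θ l0 H)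
    {x : Fin n → Bool} {y : Bool} (hxy : decide (θ ≤ scores x (gen l0 H)) ≠ y) :
    Legal θ l0 (H ++ [(x, y)]) := by
  intro H1 H2 x' y' h
  rcases List.eq_nil_or_concat H2 with rfl | ⟨H3, z, rfl⟩
  · obtain ⟨h1, h2⟩ := List.append_inj' h rfl
    rw [List.cons.injEq, Prod.mk.injEq] at h2
    obtain ⟨⟨rfl, rfl⟩, -⟩ := h2
    rw [← h1]
    exact hxy
  · rw [List.concat_eq_append, ← List.cons_append, ← List.append_assoc] at h
    obtain ⟨h1, -⟩ := List.append_inj' h rfl
    exact hH H1 H3 x' y' h1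

theorem Reach.update (hUPD : Stmt_UPD) (k : ℕ) (P T : Polynomial ℕ) {n : ℕ} {s : Mem}
    (hs : Reach k (P.eval n) (T.eval n) n s) (x : Fin n → Bool) (y : Bool) :
    Reach k (P.eval n) (T.eval n) n (RDisj.update k P T (s, List.ofFn x, y)) := by
  obtain ⟨h1, h2, h3⟩ := hUPD n k P T
  obtain ⟨H, hr, hl, hlen⟩ : ∃ H : Seq n, ready k P (s, List.ofFn x) = memOf n k (P.eval n) H ∧
      Legal (T.eval n) (initS n k (P.eval n)) H ∧ (H = [] ∨ H.length < P.eval n) := by
    rcases hs with rfl | ⟨H, rfl, hl, hlen⟩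
    · exact ⟨[], h1 x, legal_nil _ _, Or.inl rfl⟩
    · exact ⟨H, h2 H x, hl, hlen⟩
  rw [(h3 s H x y hr).2]
  split_ifs with ha hb
  · exact Or.inr ⟨H, rfl, hl, hlen⟩
  · exact Or.inl rfl
  · refine Or.inr ⟨H ++ [(x, y)], rfl, legal_append hl ha, Or.inr ?_⟩
    rw [List.length_append, List.length_singleton]
    omega

theorem Reach.run (hUPD : Stmt_UPD) (k : ℕ) (P T : Polynomial ℕ) {n : ℕ} (S : Seq n) :
    ∀ s : Mem, Reach k (P.eval n) (T.eval n) n s →
      Reach k (P.eval n) (T.eval n) n ((learner k P T).run s S) := by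
  induction S with
  | nil => intro s hs; exact hs
  | cons z S ih =>
    intro s hs
    exact ih _ (hs.update hUPD k P T z.1 z.2)

/-- the bound for the size of a configuration -/
def cb (k L θ n : ℕ) : ℕ := 2 * (4 * L + k + 5) + 1 + n * (2 * (6 * L + 6 * θ + 4) + 1)

theorem size_conf {n k L θ : ℕ} (s : Cf n) (hb : s.b ≤ L) (hG : s.G ≤ L) (hr : s.r ≤ k)
    (hc : ∀ l, s.c l ≤ s.b ∧ 1 ≤ s.w l ∧ s.w l < 2 * θ) :
    (enc (confOf s)).length ≤ cb k L θ n := by
  have h1 : (enc (cellsOf s.c s.w)).length ≤ n * (2 * (6 * L + 6 * θ + 4) + 1) := by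
    have := length_enc_le (cellsOf s.c s.w) (6 * L + 6 * θ + 4) (by
      intro a ha
      unfold cellsOf at ha
      rw [List.mem_ofFn] at ha
      obtain ⟨i, rfl⟩ := ha
      rw [length_enc_pair, length_enc_pair, length_enc_pair, length_enc_U, length_enc_U,
        length_enc_U, length_enc_U]
      have e1 := hc (i, true)
      have e2 := hc (i, false)
      dsimp only
      omega)
    unfold cellsOf at this ⊢
    rwa [List.length_ofFn] at this
  unfold confOf cb
  rw [length_enc_pair, length_enc_pair, length_enc_pair, length_enc_pair, length_enc_U,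
    length_enc_U, length_enc_U, enc_bool]
  simp only [List.length_singleton]
  omega

theorem Reach.size (hWGT : Stmt_WGT) (hLEN : Stmt_LEN) {k L θ n : ℕ} (hθ : 1 ≤ θ) {s : Mem}
    (hs : Reach k L θ n s) :
    (enc s).length ≤ 2 * L + 1 + 2 * (L + 1) ^ 2 * (L + 1) ^ k * (2 * cb k L θ n + 1) := by
  rcases hs with rfl | ⟨H, rfl, hl, hlen⟩
  · have : (enc start).length = 1 := by
      unfold start
      rw [length_enc_pair, length_enc_U, enc_nil]
      rfl
    omega
  · have hH : H.length ≤ L := by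
      rcases hlen with rfl | h
      · exact Nat.zero_le _
      · exact h.le
    have h1 : (enc ((gen (initS n k L) H).map confOf)).length ≤
        (gen (initS n k L) H).length * (2 * cb k L θ n + 1) := by
      have := length_enc_le ((gen (initS n k L) H).map confOf) (cb k L θ n) (by
        intro a ha
        rw [List.mem_map] at ha
        obtain ⟨c, hc, rfl⟩ := ha
        obtain ⟨e1, e2, e3, e4⟩ := hWGT k L θ H hθ hl c hc
        exact size_conf c e1 e2 e3 e4)
      rwa [List.length_map] at this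
    have h2 : (gen (initS n k L) H).length ≤ 2 * (L + 1) ^ 2 * (L + 1) ^ k :=
      (hLEN n k L H).trans (Nat.mul_le_mul_left _ (Nat.pow_le_pow_left (by omega) k))
    have h3 := h1.trans (Nat.mul_le_mul_right (2 * cb k L θ n + 1) h2)
    unfold memOf
    rw [length_enc_pair, length_enc_U]
    dsimp only
    omega

end MEMB

open MEMB in
/-- MEMB. -/
theorem t_MEMB (hUPD : Stmt_UPD) (hWGT : Stmt_WGT) (hLEN : Stmt_LEN) : Stmt_MEMB := by
  intro k P T hT
  refine ⟨2 * P + 1 + 2 * (P + 1) ^ 2 * (P + 1) ^ k *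
    (2 * (2 * (4 * P + (k : Polynomial ℕ) + 5) + 1 +
      Polynomial.X * (2 * (6 * P + 6 * T + 4) + 1)) + 1), fun n S => ?_⟩
  refine le_trans (Reach.size hWGT hLEN (hT n)
    (Reach.run hUPD k P T S start (Or.inl rfl))) (le_of_eq ?_)
  simp only [cb, Polynomial.eval_add, Polynomial.eval_mul, Polynomial.eval_pow, Polynomial.eval_X,
    Polynomial.eval_ofNat, Polynomial.eval_one, Polynomial.eval_natCast, Nat.cast_id]

end Pool.Agent.RDisj
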