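import Pool.Agent.RDisj.Stmts

/-!
# MOM: the moment bound
-/

set_option autoImplicit false

namespace Pool.Agent.RDisj

open Pool.Agent.PT Pool.Agent.OnlineDisj

namespace MOM

variable {n : ℕ}

theorem dec_le (G : ℕ) (c : Lit n → ℕ) (x : Fin n → Bool) (l : Lit n) : dec G c x l ≤ c l := by
  unfold dec
  split_ifs <;> omega

theorem decs_le (G : ℕ) (H : Seq n) : ∀ (c : Lit n → ℕ) (l : Lit n), decs G c H l ≤ c l := by
  induction H with
  | nil => intro c l; exact le_rfl
  | cons z H ih =>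
    intro c l
    exact (ih (dec G c z.1) l).trans (dec_le G c z.1 l)

theorem nsup_mono {c c' : Lit n → ℕ} (h : ∀ l, c' l ≤ c l) : nsup c' ≤ nsup c := by
  unfold nsup
  refine Finset.sum_le_sum fun l _ => ?_
  have h1 := h l
  split_ifs with h2 h3 h3
  · exact le_rfl
  · exact Nat.zero_le 1
  · omega
  · exact le_rfl

theorem nsup_cut_le (b : ℕ) (c : Lit n → ℕ) (x : Fin n → Bool) :
    nsup (cut b c x) ≤ nhit x c := by
  unfold nsup nhit
  refine Finset.sum_le_sum fun l _ => ?_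
  unfold cut
  by_cases h1 : sat x l
  · by_cases h2 : c l = 0
    · simp [h1, h2]
    · rw [if_pos h1, if_pos h1, if_neg h2, if_neg h2]
      split_ifs <;> omega
  · simp [h1]

theorem nsup_le (c : Lit n → ℕ) : nsup c ≤ 2 * n := by
  unfold nsup
  calc ∑ l, (if c l = 0 then 0 else 1) ≤ ∑ _l : Lit n, 1 := by
        refine Finset.sum_le_sum fun l _ => ?_
        split_ifs <;> omega
    _ = 2 * n := by
        rw [Finset.sum_const, smul_eq_mul, mul_one]
        simp [mul_comm]

theorem nsup_ne {c : Lit n → ℕ} {l : Lit n} (h : c l ≠ 0) : nsup c ≠ 0 := by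
  unfold nsup
  intro h1
  rw [Finset.sum_eq_zero_iff] at h1
  have h2 := h1 l (Finset.mem_univ l)
  rw [if_neg h] at h2
  omega

theorem eq_zero_of_nsup {c : Lit n → ℕ} (h : nsup c = 0) (l : Lit n) : c l = 0 := by
  by_contra h1
  exact nsup_ne h1 h

theorem noise_app (h : Finset (Lit n)) (H1 H2 : Seq n) (z : (Fin n → Bool) × Bool) :
    noise h H2 ≤ noise h (H1 ++ z :: H2) := by
  unfold noise
  rw [List.countP_append, List.countP_cons]
  omega

theorem pow3 (a b c k : ℕ) : (a + b + c) ^ k ≤ 3 ^ k * (a ^ k + b ^ k + c ^ k) := by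
  have key : ∀ M : ℕ, a ≤ M → b ≤ M → c ≤ M → (a + b + c) ^ k ≤ 3 ^ k * M ^ k := by
    intro M ha hb hc
    rw [← mul_pow]
    exact Nat.pow_le_pow_left (by omega) k
  rcases le_total a b with h1 | h1
  · rcases le_total b c with h2 | h2
    · refine (key c (h1.trans h2) h2 le_rfl).trans (Nat.mul_le_mul_left _ ?_)
      omega
    · refine (key b h1 le_rfl h2).trans (Nat.mul_le_mul_left _ ?_)
      omega
  · rcases le_total a c with h2 | h2
    · refine (key c h2 (h1.trans h2) le_rfl).trans (Nat.mul_le_mul_left _ ?_)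
      omega
    · refine (key a le_rfl h1 h2).trans (Nat.mul_le_mul_left _ ?_)
      omega

theorem card_le (h : Finset (Lit n)) : h.card ≤ 2 * n := by
  have h1 := Finset.card_le_univ h
  have h2 : Fintype.card (Lit n) = 2 * n := by simp [mul_comm]
  omega

theorem sum_D (D m p : ℕ) (hn : 1 ≤ n) (h : Finset (Lit n)) :
    h.card * D ^ (p + 2) ≤ (m + 2 * n * D) ^ (p + 2) := by
  calc h.card * D ^ (p + 2) ≤ (2 * n) ^ (p + 2) * D ^ (p + 2) := by
        refine Nat.mul_le_mul_right _ ((card_le h).trans ?_)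
        exact Nat.le_self_pow (by omega) _
    _ = (2 * n * D) ^ (p + 2) := by rw [mul_pow (2 * n) D]
    _ ≤ (m + 2 * n * D) ^ (p + 2) := Nat.pow_le_pow_left (by omega) _

/-- the step of the induction, for one configuration -/
theorem step (hSRV : Stmt_SRV) (hDCT : Stmt_DCT) (hASG : Stmt_ASG) (hABL : Stmt_ABL)
    (hCHS : Stmt_CHS) (D G b m : ℕ) (h : Finset (Lit n)) (hn : 1 ≤ n)
    (hb1 : 2 * m + D < b) (hb2 : b ≤ 3 * (m + 2 * n * D)) (p : ℕ) (C : ℕ)
    (c : Lit n → ℕ) (H : Seq n) (hc : ∀ l, c l = 0 ∨ c l = b) (hBal : Bal D G c H)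
    (hm : noise h H ≤ m)
    (hch : ∀ (H1 H2 : Seq n) (x : Fin n → Bool), H = H1 ++ (x, false) :: H2 →
        dns G (decs G c H1) x = false → (mom h (p + 1) (cut b (decs G c H1) x) H2 : ℝ) ≤
        C * ((m + 2 * n * D : ℕ) : ℝ) ^ (p + 1) * (1 + 3 * G * (1 + Real.log (2 * n)))) :
    (mom h (p + 2) c H : ℝ) ≤ (3 ^ (p + 2) * ((p + 2) * C + 1) : ℕ) *
      ((m + 2 * n * D : ℕ) : ℝ) ^ (p + 2) * (1 + 3 * G * (1 + Real.log (2 * n))) := by
  have hlog : 0 ≤ Real.log (2 * n) := by
    apply Real.log_nonneg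
    have : (1 : ℝ) ≤ n := by exact_mod_cast hn
    linarith
  have hE : (0 : ℝ) ≤ 3 * G * (1 + Real.log (2 * n)) := by positivity
  by_cases h0 : ∀ l ∈ h, c l = 0
  · have h1 : mom h (p + 2) c H = 0 := by
      unfold mom
      refine Finset.sum_eq_zero fun l hl => ?_
      rw [if_pos (h0 l hl)]
    rw [h1, Nat.cast_zero]
    positivity
  push Not at h0
  obtain ⟨l0, hl0, hcl0⟩ := h0
  have hsurv : ∀ l ∈ h, c l ≠ 0 → cnt G true true l c H ≤ m + D ∧
      ∀ P Q : Seq n, H = P ++ Q → decs G c P l ≠ 0 := by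
    intro l hl hcl
    exact hSRV D G b m h c H l hBal hm hb1 hl ((hc l).resolve_left hcl)
  have hcb : ∀ l, c l ≤ b := by
    intro l
    rcases hc l with h1 | h1 <;> omega
  have hnd : (ndns G c H : ℝ) ≤ G * b * (1 + Real.log (2 * n)) := by
    refine hDCT G b c H hcb ?_
    intro P Q hPQ
    exact nsup_ne ((hsurv l0 hl0 hcl0).2 P Q hPQ)
  have hnd2 : (ndns G c H : ℝ) ≤ ((m + 2 * n * D : ℕ) : ℝ) *
      (3 * G * (1 + Real.log (2 * n))) := by
    refine hnd.trans ?_
    have h1 : (b : ℝ) ≤ 3 * ((m + 2 * n * D : ℕ) : ℝ) := by exact_mod_cast hb2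
    calc (G : ℝ) * b * (1 + Real.log (2 * n))
        ≤ G * (3 * ((m + 2 * n * D : ℕ) : ℝ)) * (1 + Real.log (2 * n)) := by gcongr
      _ = ((m + 2 * n * D : ℕ) : ℝ) * (3 * G * (1 + Real.log (2 * n))) := by ring
  obtain ⟨hq, hu, hv⟩ := (hASG h H).2 G c
  have hDmu : m + D ≤ m + 2 * n * D := by
    have : 1 * D ≤ 2 * n * D := Nat.mul_le_mul_right D (by omega)
    omega
  -- the bound for each literal
  have hterm : ∀ l ∈ h, (if c l = 0 then 0 else qq h l H ^ (p + 2)) ≤
      3 ^ (p + 2) * ((p + 2) * (if c l = 0 then 0 else ff G h (p + 1) l c H) + D ^ (p + 2) +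
        (m + 2 * n * D) ^ (p + 1) * uu G true h l c H) := by
    intro l hl
    by_cases hcl : c l = 0
    · rw [if_pos hcl]
      exact Nat.zero_le _
    · rw [if_neg hcl, if_neg hcl]
      have h1 : qq h l H ≤ (uu G false h l c H - D) + D + uu G true h l c H := by
        have := hq l
        omega
      have h2 : uu G true h l c H ≤ m + 2 * n * D :=
        ((hu l true).trans (hsurv l hl hcl).1).trans hDmu
      calc qq h l H ^ (p + 2) ≤
            ((uu G false h l c H - D) + D + uu G true h l c H) ^ (p + 2) :=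
            Nat.pow_le_pow_left h1 _
        _ ≤ 3 ^ (p + 2) * ((uu G false h l c H - D) ^ (p + 2) + D ^ (p + 2) +
              uu G true h l c H ^ (p + 2)) := pow3 _ _ _ _
        _ ≤ _ := by
            refine Nat.mul_le_mul_left _ (Nat.add_le_add (Nat.add_le_add ?_ le_rfl) ?_)
            · exact hABL D G (p + 1) h l c H hBal
            · rw [pow_succ]
              exact Nat.mul_le_mul_right _ (Nat.pow_le_pow_left h2 _)
  have hsum : mom h (p + 2) c H ≤ 3 ^ (p + 2) * ((p + 2) * chs G b h (p + 1) c H +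
      (m + 2 * n * D) ^ (p + 2) + (m + 2 * n * D) ^ (p + 1) * ndns G c H) := by
    unfold mom
    refine (Finset.sum_le_sum hterm).trans ?_
    rw [← Finset.mul_sum, Finset.sum_add_distrib, Finset.sum_add_distrib, ← Finset.mul_sum,
      ← Finset.mul_sum, Finset.sum_const, smul_eq_mul]
    refine Nat.mul_le_mul_left _ (Nat.add_le_add (Nat.add_le_add ?_ ?_) ?_)
    · refine Nat.mul_le_mul_left _ ?_
      exact (hCHS G b (p + 1) h c H (by omega)).1 fun l hl hcl => (hsurv l hl hcl).2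
    · exact sum_D D m p hn h
    · exact Nat.mul_le_mul_left _ hv
  have hchs : (chs G b h (p + 1) c H : ℝ) ≤ noise h H *
      (C * ((m + 2 * n * D : ℕ) : ℝ) ^ (p + 1) * (1 + 3 * G * (1 + Real.log (2 * n)))) := by
    refine (hCHS G b (p + 1) h c H (by omega)).2 _ (by positivity) hch
  have hmm : (noise h H : ℝ) ≤ ((m + 2 * n * D : ℕ) : ℝ) := by
    have : noise h H ≤ m + 2 * n * D := by omega
    exact_mod_cast this
  generalize hmu : m + 2 * n * D = mu at *
  generalize hEE : 3 * (G : ℝ) * (1 + Real.log (2 * n)) = E at *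
  have hmu0 : (0 : ℝ) ≤ mu := by positivity
  have hchs2 : (chs G b h (p + 1) c H : ℝ) ≤ C * (mu : ℝ) ^ (p + 2) * (1 + E) := by
    refine hchs.trans ?_
    calc (noise h H : ℝ) * (C * (mu : ℝ) ^ (p + 1) * (1 + E))
        ≤ mu * (C * (mu : ℝ) ^ (p + 1) * (1 + E)) := by gcongr
      _ = C * (mu : ℝ) ^ (p + 2) * (1 + E) := by ring
  have hsumR : (mom h (p + 2) c H : ℝ) ≤ 3 ^ (p + 2) * ((p + 2) * (chs G b h (p + 1) c H : ℝ) +
      (mu : ℝ) ^ (p + 2) + (mu : ℝ) ^ (p + 1) * ndns G c H) := by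
    exact_mod_cast hsum
  refine hsumR.trans ?_
  calc (3 : ℝ) ^ (p + 2) * ((p + 2) * (chs G b h (p + 1) c H : ℝ) +
      (mu : ℝ) ^ (p + 2) + (mu : ℝ) ^ (p + 1) * ndns G c H)
      ≤ (3 : ℝ) ^ (p + 2) * ((p + 2) * (C * (mu : ℝ) ^ (p + 2) * (1 + E)) +
        (mu : ℝ) ^ (p + 2) + (mu : ℝ) ^ (p + 1) * (mu * E)) := by gcongr
    _ = (3 ^ (p + 2) * ((p + 2) * C + 1) : ℕ) * (mu : ℝ) ^ (p + 2) * (1 + E) := by
        push_cast
        ring

theorem claim (hSRV : Stmt_SRV) (hDCT : Stmt_DCT) (hASG : Stmt_ASG) (hABL : Stmt_ABL)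
    (hCHS : Stmt_CHS) (K D G b m : ℕ) (h : Finset (Lit n)) (hn : 1 ≤ n)
    (hG : 2 * n < G ^ K) (hb1 : 2 * m + D < b) (hb2 : b ≤ 3 * (m + 2 * n * D)) (p : ℕ) :
    p ≤ K → ∀ (c : Lit n → ℕ) (H : Seq n), (∀ l, c l = 0 ∨ c l = b) → Good D G b p c H →
      noise h H ≤ m → nsup c * G ^ (K - p) ≤ 2 * n →
      (mom h (p + 1) c H : ℝ) ≤ CC p * ((m + 2 * n * D : ℕ) : ℝ) ^ (p + 1) *
        (1 + 3 * G * (1 + Real.log (2 * n))) := by
  induction p with
  | zero =>
    intro _ c H _ _ _ hs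
    rw [Nat.sub_zero] at hs
    have h1 : nsup c = 0 := by
      by_contra h2
      have h3 : 1 * G ^ K ≤ nsup c * G ^ K := Nat.mul_le_mul_right _ (by omega)
      omega
    have h2 : mom h (0 + 1) c H = 0 := by
      unfold mom
      refine Finset.sum_eq_zero fun l _ => ?_
      rw [if_pos (eq_zero_of_nsup h1 l)]
    rw [h2]
    simp [CC]
  | succ p ih =>
    intro hp c H hc hgood hm hs
    have hgood' : Bal D G c H ∧ ∀ (H1 H2 : Seq n) (x : Fin n → Bool),
        H = H1 ++ (x, false) :: H2 → Good D G b p (cut b (decs G c H1) x) H2 := hgood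
    refine step hSRV hDCT hASG hABL hCHS D G b m h hn hb1 hb2 p (CC p) c H hc hgood'.1 hm ?_
    intro H1 H2 x hH hd
    refine ih (by omega) _ H2 ?_ (hgood'.2 H1 H2 x hH) ?_ ?_
    · intro l
      unfold cut
      split_ifs
      · exact Or.inl rfl
      · exact Or.inr rfl
      · exact Or.inl rfl
    · refine le_trans ?_ hm
      rw [hH]
      exact noise_app h H1 H2 _
    · have h1 : ¬ (nsup (decs G c H1) ≤ G * nhit x (decs G c H1)) := by
        unfold dns at hd
        exact of_decide_eq_false hd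
      have h2 := nsup_cut_le b (decs G c H1) x
      have h3 := nsup_mono (decs_le G H1 c)
      have h4 : G * nsup (cut b (decs G c H1) x) ≤ nsup c := by
        have := Nat.mul_le_mul_left G h2
        omega
      have h5 : K - p = (K - (p + 1)) + 1 := by omega
      calc nsup (cut b (decs G c H1) x) * G ^ (K - p)
          = G * nsup (cut b (decs G c H1) x) * G ^ (K - (p + 1)) := by
            rw [h5, pow_succ]
            ring
        _ ≤ nsup c * G ^ (K - (p + 1)) := Nat.mul_le_mul_right _ h4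
        _ ≤ 2 * n := hs

end MOM

theorem t_MOM (hSRV : Stmt_SRV) (hDCT : Stmt_DCT) (hASG : Stmt_ASG) (hABL : Stmt_ABL)
    (hCHS : Stmt_CHS) : Stmt_MOM := by
  intro n K D G b m h H hn _ hD hG hb1 hb2 hgood hm
  have h1 := MOM.claim hSRV hDCT hASG hABL hCHS K D G b m h hn hG hb1 hb2 K le_rfl
    (fun _ => b) H (fun _ => Or.inr rfl) hgood hm (by
      rw [Nat.sub_self, pow_zero, mul_one]
      exact MOM.nsup_le _)
  have hb : b ≠ 0 := by omega
  have h2 : mom h (K + 1) (fun _ => b) H = ∑ l ∈ h, qq h l H ^ (K + 1) := by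
    unfold mom
    refine Finset.sum_congr rfl fun l _ => ?_
    rw [if_neg hb]
  have h3 : (covered h H : ℝ) = ∑ l ∈ h, (qq h l H : ℝ) := by
    rw [← (hASG h H).1]
    push_cast
    rfl
  have hlog : 0 ≤ Real.log (2 * n) := by
    apply Real.log_nonneg
    have : (1 : ℝ) ≤ n := by exact_mod_cast hn
    linarith
  rcases Nat.eq_zero_or_pos h.card with h4 | h4
  · rw [Finset.card_eq_zero] at h4
    rw [h3, h4, Finset.sum_empty, zero_pow (by omega)]
    positivity
  · have h5 := pow_sum_div_card_le_sum_pow (s := h) (f := fun l => (qq h l H : ℝ))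
      (fun l _ => Nat.cast_nonneg _) K
    have h6 : (0 : ℝ) < (h.card : ℝ) ^ K := by positivity
    rw [div_le_iff₀ h6] at h5
    rw [h3]
    refine h5.trans ?_
    rw [mul_comm]
    refine mul_le_mul_of_nonneg_left ?_ h6.le
    rw [h2] at h1
    push_cast at h1 ⊢
    exact h1

end Pool.Agent.RDisj
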