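import Pool.Agent.RDisj.Stmts

/-!
# NEG: at least a fifth of the rounds have label `1`
-/

set_option autoImplicit false

namespace Pool.Agent.RDisj

open Pool.Agent.PT Pool.Agent.OnlineDisj

namespace NEG

/-- the excess of a configuration -/
def ex {n : ℕ} (s : Cf n) : ℕ := ∑ a, (s.w a - 1)

/-- the excess of a list of configurations -/
def Ex {n : ℕ} (l : List (Cf n)) : ℕ := (l.map ex).sum

theorem Ex_nil {n : ℕ} : Ex ([] : List (Cf n)) = 0 := rfl

theorem Ex_cons {n : ℕ} (s : Cf n) (l : List (Cf n)) : Ex (s :: l) = ex s + Ex l := by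
  unfold Ex
  rw [List.map_cons, List.sum_cons]

theorem Ex_append {n : ℕ} (l l' : List (Cf n)) : Ex (l ++ l') = Ex l + Ex l' := by
  unfold Ex
  rw [List.map_append, List.sum_append]

theorem ex_fire {n : ℕ} (x : Fin n → Bool) (s : Cf n) : ex (fire x s) = 0 := by
  unfold ex fire
  simp

theorem stay_true {n : ℕ} (x : Fin n → Bool) (s : Cf n) (hw : ∀ a, 1 ≤ s.w a) :
    ex (stay x true s) ≤ ex s + score x s := by
  have h : ex s + score x s =
      ∑ a, ((s.w a - 1) + if dns s.G s.c x = s.j then (if sat x a then s.w a else 0) else 0) := by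
    rw [Finset.sum_add_distrib]
    unfold ex score tot
    by_cases hd : dns s.G s.c x = s.j
    · simp only [hd, if_true]
    · simp only [hd, if_false, Finset.sum_const_zero]
  rw [h]
  unfold ex
  apply Finset.sum_le_sum
  intro a _
  have h1 := hw a
  unfold stay
  simp only
  by_cases hs : sat x a
  · by_cases hd : dns s.G s.c x = s.j
    · simp only [hs, hd, if_true]
      omega
    · simp only [hs, hd, if_true, if_false]
      omega
  · simp only [hs, if_false]
    split_ifs <;> omega

theorem stay_false {n : ℕ} (x : Fin n → Bool) (s : Cf n) (hw : ∀ a, 1 ≤ s.w a) :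
    2 * ex (stay x false s) + score x s ≤ 2 * ex s + 2 * n := by
  have hcard : ∑ _a : Lit n, 1 = 2 * n := by
    rw [Finset.sum_const, smul_eq_mul, mul_one, Finset.card_univ, Fintype.card_prod,
      Fintype.card_fin, Fintype.card_bool]
    ring
  have h : 2 * ex (stay x false s) + score x s =
      ∑ a, (2 * ((stay x false s).w a - 1) +
        if dns s.G s.c x = s.j then (if sat x a then s.w a else 0) else 0) := by
    rw [Finset.sum_add_distrib, ← Finset.mul_sum]
    unfold ex score tot
    by_cases hd : dns s.G s.c x = s.j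
    · simp only [hd, if_true]
    · simp only [hd, if_false, Finset.sum_const_zero]
  have h' : 2 * ex s + 2 * n = ∑ a, (2 * (s.w a - 1) + 1) := by
    rw [Finset.sum_add_distrib, ← Finset.mul_sum, hcard]
    rfl
  rw [h, h']
  apply Finset.sum_le_sum
  intro a _
  have h1 := hw a
  unfold stay
  simp only
  by_cases hs : sat x a
  · by_cases hd : dns s.G s.c x = s.j
    · simp only [hs, hd, if_true, Bool.false_eq_true, if_false]
      omega
    · simp only [hs, hd, if_true, if_false]
      omega
  · simp only [hs, if_false]
    split_ifs <;> omega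

theorem scores_cons {n : ℕ} (x : Fin n → Bool) (s : Cf n) (l : List (Cf n)) :
    scores x (s :: l) = score x s + scores x l := by
  unfold scores
  rw [List.map_cons, List.sum_cons]

theorem Ex_true {n : ℕ} (x : Fin n → Bool) : ∀ l : List (Cf n), (∀ s ∈ l, ∀ a, 1 ≤ s.w a) →
    Ex (l.flatMap (fork (x, true))) ≤ Ex l + scores x l := by
  intro l
  induction l with
  | nil => intro _; simp [Ex_nil]
  | cons s l ih =>
    intro hl
    have h1 := ih (fun s' hs' => hl s' (List.mem_cons_of_mem _ hs'))
    have h2 := stay_true x s (hl s List.mem_cons_self)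
    have h3 : fork (x, true) s = [stay x true s] := by
      unfold fork
      simp
    rw [List.flatMap_cons, Ex_append, h3, Ex_cons, Ex_cons, Ex_nil, scores_cons]
    omega

theorem Ex_false {n : ℕ} (x : Fin n → Bool) : ∀ l : List (Cf n), (∀ s ∈ l, ∀ a, 1 ≤ s.w a) →
    2 * Ex (l.flatMap (fork (x, false))) + scores x l ≤ 2 * Ex l + 2 * n * l.length := by
  intro l
  induction l with
  | nil => intro _; simp [Ex_nil, scores]
  | cons s l ih =>
    intro hl
    have h1 := ih (fun s' hs' => hl s' (List.mem_cons_of_mem _ hs'))
    have h2 := stay_false x s (hl s List.mem_cons_self)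
    have h3 : Ex (fork (x, false) s) = ex (stay x false s) := by
      unfold fork
      by_cases hr : s.r = 0
      · simp only [hr, decide_true, Bool.or_true, if_true]
        rw [Ex_cons, Ex_nil, add_zero]
      · simp only [hr, decide_false, Bool.or_false, Bool.false_eq_true, if_false]
        rw [Ex_cons, Ex_cons, Ex_nil, ex_fire, add_zero, add_zero]
    rw [List.flatMap_cons, Ex_append, h3, Ex_cons, scores_cons, List.length_cons]
    have h4 : 2 * n * (l.length + 1) = 2 * n * l.length + 2 * n := by ring
    omega

theorem gen_append {n : ℕ} (l : List (Cf n)) (H : Seq n) (z : (Fin n → Bool) × Bool) :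
    gen l (H ++ [z]) = (gen l H).flatMap (fork z) := by
  unfold gen
  rw [List.foldl_append]
  rfl

theorem legal_left {n θ : ℕ} {l0 : List (Cf n)} {H : Seq n} {z : (Fin n → Bool) × Bool}
    (h : Legal θ l0 (H ++ [z])) : Legal θ l0 H := by
  intro H1 H2 x y hH
  exact h H1 (H2 ++ [z]) x y (by rw [hH]; simp)

theorem Ex_init {n : ℕ} (k L : ℕ) : Ex (initS n k L) = 0 := by
  unfold Ex
  apply List.sum_eq_zero
  intro m hm
  obtain ⟨s, hs, rfl⟩ := List.mem_map.mp hm
  unfold initS at hs
  obtain ⟨b, _, hs⟩ := List.mem_flatMap.mp hs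
  obtain ⟨G, _, hs⟩ := List.mem_flatMap.mp hs
  unfold ex
  rcases List.mem_cons.mp hs with rfl | hs
  · simp
  · rw [List.mem_singleton] at hs
    subst hs
    simp

theorem main (hLEN : Stmt_LEN) (hWGT : Stmt_WGT) {n : ℕ} (k L N : ℕ) (hN : 1 ≤ N)
    (hNL : 4 * n * (L + 1) ^ (k + 2) ≤ N) (H : Seq n) : H.length ≤ L →
    Legal (2 * N) (initS n k L) H →
    2 * Ex (gen (initS n k L) H) + N * (H.countP fun z => !z.2) ≤
      4 * N * (H.countP fun z => z.2) := by
  induction H using List.reverseRecOn with
  | nil =>
    intro _ _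
    have h : gen (initS n k L) [] = initS n k L := rfl
    rw [h, Ex_init]
    simp
  | append_singleton H z ih =>
    intro hlen hleg
    rw [List.length_append, List.length_singleton] at hlen
    have hleg' := legal_left hleg
    have h1 := ih (by omega) hleg'
    have hw : ∀ s ∈ gen (initS n k L) H, ∀ a, 1 ≤ s.w a := fun s hs a =>
      ((hWGT k L (2 * N) H (by omega) hleg' s hs).2.2.2 a).2.1
    obtain ⟨x, y⟩ := z
    have h2 := hleg H [] x y rfl
    rw [gen_append, List.countP_append, List.countP_append]
    cases y with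
    | true =>
      have h3 : scores x (gen (initS n k L) H) < 2 * N := by
        rw [Ne, decide_eq_true_eq] at h2
        omega
      have h4 := Ex_true x _ hw
      have e1 : List.countP (fun z : (Fin n → Bool) × Bool => !z.2) [(x, true)] = 0 := by simp
      have e2 : List.countP (fun z : (Fin n → Bool) × Bool => z.2) [(x, true)] = 1 := by simp
      rw [e1, e2, add_zero]
      have e3 : 4 * N * (List.countP (fun z : (Fin n → Bool) × Bool => z.2) H + 1) =
          4 * N * List.countP (fun z : (Fin n → Bool) × Bool => z.2) H + 4 * N := by ring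
      rw [e3]
      omega
    | false =>
      have h3 : 2 * N ≤ scores x (gen (initS n k L) H) := by
        rw [Ne, decide_eq_false_iff_not, not_not] at h2
        exact h2
      have h4 := Ex_false x _ hw
      have h5 := hLEN n k L H
      have h6 : 2 * n * (gen (initS n k L) H).length ≤ N := by
        refine le_trans ?_ hNL
        have h7 : (H.length + 1) ^ k ≤ (L + 1) ^ k := Nat.pow_le_pow_left (by omega) k
        calc 2 * n * (gen (initS n k L) H).length
            ≤ 2 * n * (2 * (L + 1) ^ 2 * (H.length + 1) ^ k) := Nat.mul_le_mul_left _ h5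
          _ ≤ 2 * n * (2 * (L + 1) ^ 2 * (L + 1) ^ k) :=
              Nat.mul_le_mul_left _ (Nat.mul_le_mul_left _ h7)
          _ = 4 * n * (L + 1) ^ (k + 2) := by ring
      have e1 : List.countP (fun z : (Fin n → Bool) × Bool => !z.2) [(x, false)] = 1 := by simp
      have e2 : List.countP (fun z : (Fin n → Bool) × Bool => z.2) [(x, false)] = 0 := by simp
      rw [e1, e2, add_zero]
      have e3 : N * (List.countP (fun z : (Fin n → Bool) × Bool => !z.2) H + 1) =
          N * List.countP (fun z : (Fin n → Bool) × Bool => !z.2) H + N := by ring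
      rw [e3]
      omega

end NEG

/-- NEG. -/
theorem t_NEG (hLEN : Stmt_LEN) (hWGT : Stmt_WGT) : Stmt_NEG := by
  intro n k L N H hN hNL hlen hleg
  have h1 := NEG.main hLEN hWGT k L N hN hNL H hlen hleg
  have h2 : N * (H.countP fun z => !z.2) ≤ N * (4 * (H.countP fun z => z.2)) := by
    have : 4 * N * (H.countP fun z => z.2) = N * (4 * (H.countP fun z => z.2)) := by ring
    omega
  have h3 := Nat.le_of_mul_le_mul_left h2 (by omega)
  have h4 : H.length = (H.countP fun z => z.2) + (H.countP fun z => !z.2) := by
    have h5 := List.length_eq_countP_add_countP (fun z : (Fin n → Bool) × Bool => z.2) (l := H)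
    rw [h5]
    congr 1
    apply List.countP_congr
    intro z _
    simp
  omega

end Pool.Agent.RDisj
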