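import Pool.Agent.RDisj.Stmts

/-!
# PAR: choice of the parameters
-/

set_option autoImplicit false

namespace Pool.Agent.RDisj

open Pool.Agent.PT Pool.Agent.OnlineDisj

namespace PAR

theorem sq_le (t : ℕ) : (t + 1) ^ 2 ≤ 4 * 2 ^ t := by
  induction t with
  | zero => norm_num
  | succ t ih =>
    rcases Nat.lt_or_ge t 2 with h | h
    · interval_cases t <;> norm_num
    · have h1 : (t + 1 + 1) ^ 2 ≤ 2 * (t + 1) ^ 2 := by nlinarith
      calc (t + 1 + 1) ^ 2 ≤ 2 * (t + 1) ^ 2 := h1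
        _ ≤ 2 * (4 * 2 ^ t) := Nat.mul_le_mul_left _ ih
        _ = 4 * 2 ^ (t + 1) := by ring

theorem lin_le (C t : ℕ) (h : 8 * C ≤ t) : 2 * (C * (t + 1)) ≤ 2 ^ t := by
  have h1 := sq_le t
  have h2 : 8 * C * (t + 1) ≤ (t + 1) ^ 2 := by
    rw [pow_two]
    exact Nat.mul_le_mul_right _ (by omega)
  have h3 : 8 * C * (t + 1) = 4 * (2 * (C * (t + 1))) := by ring
  omega

end PAR

open PAR in
theorem t_PAR : Stmt_PAR := by
  intro K B
  set C : ℕ := (4 * B + 4) * (4 * K + 12) with hC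
  have hC1 : 48 ≤ C := by
    rw [hC]
    calc 48 = 4 * 12 := by norm_num
      _ ≤ (4 * B + 4) * (4 * K + 12) := Nat.mul_le_mul (by omega) (by omega)
  set a : ℕ := 8 * C with ha
  refine ⟨2 ^ a, Nat.one_le_two_pow, ?_⟩
  intro n hn
  have h3 : 3 ≤ 2 ^ a := by
    have := @Nat.lt_two_pow_self a
    omega
  set s : ℕ := Nat.log 2 n + 1 with hs
  have hs1 : n ≤ 2 ^ s := (Nat.lt_pow_succ_log_self (by norm_num) n).le
  have hs2 : 2 ^ s ≤ 2 * n := by
    rw [hs, pow_succ, mul_comm]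
    exact Nat.mul_le_mul_left _ (Nat.pow_log_le_self 2 (by omega))
  set D : ℕ := 5 + s + (K + 1) * (a + 4 * s + 1) with hD
  have hD1 : D + 1 ≤ (4 * K + 12) * (a + s + 1) := by
    have h1 : (K + 1) * (a + 4 * s + 1) ≤ (K + 1) * (4 * (a + s + 1)) :=
      Nat.mul_le_mul_left _ (by omega)
    have h2 : (4 * K + 12) * (a + s + 1) = (K + 1) * (4 * (a + s + 1)) + 8 * (a + s + 1) := by
      ring
    omega
  have hAn : C * (a + s + 1) ≤ 2 ^ a * n := by
    have h1 := lin_le C (a + s) (by omega)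
    have h2 : 2 ^ (a + s) ≤ 2 * (2 ^ a * n) := by
      rw [pow_add]
      calc 2 ^ a * 2 ^ s ≤ 2 ^ a * (2 * n) := Nat.mul_le_mul_left _ hs2
        _ = 2 * (2 ^ a * n) := by ring
    omega
  have hD2 : (4 * B + 4) * (D + 1) ≤ 2 ^ a * n := by
    calc (4 * B + 4) * (D + 1) ≤ (4 * B + 4) * ((4 * K + 12) * (a + s + 1)) :=
          Nat.mul_le_mul_left _ hD1
      _ = C * (a + s + 1) := by rw [hC]; ring
      _ ≤ 2 ^ a * n := hAn
  have hn4 : 2 ^ a * n ≤ 2 ^ a * n ^ 4 := Nat.mul_le_mul_left _ (Nat.le_self_pow (by norm_num) n)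
  refine ⟨D, by omega, ?_, ?_, ?_, ?_⟩
  · have h1 : 2 * (D + 1) ≤ (4 * B + 4) * (D + 1) := Nat.mul_le_mul_right _ (by omega)
    omega
  · have h1 : 3 * n ≤ 2 ^ a * n := Nat.mul_le_mul_right _ h3
    omega
  · have h1 : n + 1 ≤ 2 ^ (s + 1) := by
      have : 2 ^ (s + 1) = 2 * 2 ^ s := by ring
      omega
    have h2 : 2 ^ a * n ^ 4 + 1 ≤ 2 ^ (a + 4 * s + 1) := by
      have h4 : n ^ 4 ≤ (2 ^ s) ^ 4 := Nat.pow_le_pow_left hs1 4
      have h5 : 2 ^ a * n ^ 4 ≤ 2 ^ a * (2 ^ s) ^ 4 := Nat.mul_le_mul_left _ h4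
      have h6 : 2 ^ (a + 4 * s + 1) = 2 * (2 ^ a * (2 ^ s) ^ 4) := by
        rw [← pow_mul, ← pow_add, ← pow_succ']
        congr 1
        ring
      have h7 : 1 ≤ 2 ^ a * (2 ^ s) ^ 4 := Nat.one_le_iff_ne_zero.2 (by positivity)
      omega
    calc 4 * (4 * (n + 1) * (2 ^ a * n ^ 4 + 1) ^ (K + 1))
        ≤ 4 * (4 * 2 ^ (s + 1) * (2 ^ (a + 4 * s + 1)) ^ (K + 1)) := by
          apply Nat.mul_le_mul_left
          apply Nat.mul_le_mul
          · exact Nat.mul_le_mul_left _ h1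
          · exact Nat.pow_le_pow_left h2 _
      _ = 2 ^ D := by
          rw [hD, ← pow_mul]
          have e1 : 5 + s + (K + 1) * (a + 4 * s + 1)
              = 2 + 2 + (s + 1) + (a + 4 * s + 1) * (K + 1) := by ring
          rw [e1]
          generalize (a + 4 * s + 1) * (K + 1) = u
          rw [pow_add, pow_add, pow_add]
          ring
  · have h1 : 4 * B * D ≤ 2 ^ a * n := by
      refine le_trans ?_ hD2
      exact Nat.mul_le_mul (by omega) (by omega)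
    calc 4 * n * D * (B * n ^ 2) = (4 * B * D) * n ^ 3 := by ring
      _ ≤ (2 ^ a * n) * n ^ 3 := Nat.mul_le_mul_right _ h1
      _ = 2 ^ a * n ^ 4 := by ring

end Pool.Agent.RDisj
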