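import Pool.Agent.RDisj.Stmts

set_option autoImplicit false

namespace Pool.Agent.RDisj

open Pool.Agent.PT Pool.Agent.OnlineDisj

namespace PHB

theorem counts {n : ℕ} (h : Finset (Lit n)) (H : Seq n) :
    noise h H ≤ errors h H ∧ (H.countP fun z => z.2) ≤ covered h H + errors h H := by
  unfold noise covered errors
  induction H with
  | nil => simp
  | cons z H ih =>
    obtain ⟨h1, h2⟩ := ih
    simp only [List.countP_cons]
    cases z.2 <;> cases disj h z.1 <;> simp <;> omega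

end PHB

theorem t_PHB (hNEG : Stmt_NEG) (hBRG : Stmt_BRG) (hMOM : Stmt_MOM) : Stmt_PHB := by
  intro n K L N D G h H X hn hK hD hG hGL hDL hN hN1 hND hleg hH hX hpow hLX
  obtain ⟨m, hm⟩ : ∃ m, m = errors h H := ⟨_, rfl⟩
  obtain ⟨k, rfl⟩ : ∃ k, K = k + 1 := ⟨K - 1, by omega⟩
  obtain ⟨hc1, hc2⟩ := PHB.counts h H
  rw [← hm] at hc1 hc2 ⊢
  rw [Nat.add_sub_cancel] at hleg
  have hm0 : (0 : ℝ) ≤ m := Nat.cast_nonneg m
  by_cases h5 : L ≤ 5 * m
  · have h6 : (L : ℝ) ≤ 5 * m := by exact_mod_cast h5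
    nlinarith
  push Not at h5
  obtain ⟨b, hb⟩ : ∃ b, b = 2 * m + D + 1 := ⟨_, rfl⟩
  have hbL : b ≤ L := by omega
  have hnD : D ≤ n * D := Nat.le_mul_of_pos_left D hn
  have hb3 : b ≤ 3 * (m + 2 * n * D) := by
    have : 3 * (m + 2 * n * D) = 3 * m + 6 * (n * D) := by ring
    omega
  have hgood := hBRG k L (2 * N) D b G H (by omega) (by omega) hbL hGL hleg
  have hmom := hMOM (k + 1) D G b m h H hn hK hD hG (by omega) hb3 hgood hc1
  obtain ⟨μ, hμ⟩ : ∃ μ : ℝ, μ = ((m + 2 * n * D : ℕ) : ℝ) := ⟨_, rfl⟩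
  rw [← hμ] at hmom
  have hμ0 : 0 ≤ μ := by rw [hμ]; exact Nat.cast_nonneg _
  have hX1 : 0 ≤ X / 5 - 1 := by linarith
  have hcov : (covered h H : ℝ) ≤ (X / 5 - 1) * μ := by
    refine le_of_pow_le_pow_left₀ (n := k + 1 + 1) (by omega) (mul_nonneg hX1 hμ0) ?_
    rw [mul_pow]
    calc (covered h H : ℝ) ^ (k + 1 + 1) ≤ _ := hmom
      _ = ((h.card : ℝ) ^ (k + 1) * CC (k + 1) * (1 + 3 * G * (1 + Real.log (2 * n)))) *
          μ ^ (k + 1 + 1) := by ring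
      _ ≤ (X / 5 - 1) ^ (k + 1 + 1) * μ ^ (k + 1 + 1) :=
          mul_le_mul_of_nonneg_right hpow (pow_nonneg hμ0 _)
  have hneg := hNEG k L N H hN1 hN hH.le hleg
  rw [hH] at hneg
  have h7 : (L : ℝ) ≤ 5 * (covered h H + m) := by
    have : L ≤ 5 * (covered h H + m) := by omega
    exact_mod_cast this
  have h8 : μ = m + 2 * n * D := by rw [hμ]; push_cast; ring
  have h9 : (0 : ℝ) ≤ 2 * n * D := by positivity
  rw [h8] at hcov
  nlinarith

end Pool.Agent.RDisj
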