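import Pool.Agent.RDisj.Stmts

/-!
# Module PHS: from one phase to all trials
-/

set_option autoImplicit false

namespace Pool.Agent.RDisj

open Pool.Agent.PT Pool.Agent.OnlineDisj

namespace PHS

theorem errors_append {n : ℕ} (h : Finset (Fin n × Bool)) (S T : Seq n) :
    errors h (S ++ T) = errors h S + errors h T := by
  unfold errors
  exact List.countP_append ..

theorem legal_nil {n : ℕ} (θ : ℕ) (l0 : List (Cf n)) : Legal θ l0 [] := by
  intro H1 H2 x y hH
  simp at hH

theorem legal_snoc {n θ : ℕ} {l0 : List (Cf n)} {H : Seq n} {x : Fin n → Bool} {y : Bool}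
    (hL : Legal θ l0 H) (h : decide (θ ≤ scores x (gen l0 H)) ≠ y) :
    Legal θ l0 (H ++ [(x, y)]) := by
  intro H1 H2 x' y' hH
  rcases List.eq_nil_or_concat H2 with rfl | ⟨H2', z, rfl⟩
  · obtain ⟨h1, h2⟩ := List.append_inj' hH rfl
    have h3 : (x, y) = (x', y') := by simpa using h2
    obtain ⟨rfl, rfl⟩ := Prod.mk.inj h3
    rw [← h1]
    exact h
  · have h1 : H ++ [(x, y)] = (H1 ++ (x', y') :: H2') ++ [z] := by
      rw [hH]
      simp
    exact hL H1 H2' x' y' (List.append_inj' h1 rfl).1

theorem claim (hUPD : Stmt_UPD) {n k : ℕ} {P T : Polynomial ℕ} {h : Finset (Lit n)} {A : ℝ}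
    (hA : 0 ≤ A) (hP : 1 ≤ P.eval n)
    (hfull : ∀ H : Seq n, H.length = P.eval n →
      Legal (T.eval n) (initS n k (P.eval n)) H → ((P.eval n : ℕ) : ℝ) ≤ A * errors h H)
    (S : Seq n) :
    ∀ (s : Mem) (H : Seq n),
      (∀ x : Fin n → Bool, ready k P (s, List.ofFn x) = memOf n k (P.eval n) H) →
      Legal (T.eval n) (initS n k (P.eval n)) H → H.length < P.eval n →
      ((learner k P T).mistakesFrom s S : ℝ) + H.length ≤
        (P.eval n : ℕ) + A * (errors h S + errors h H) := by
  obtain ⟨hst, hme, hup⟩ := hUPD n k P T
  induction S with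
  | nil =>
    intro s H hs hL hlen
    have h1 : (H.length : ℝ) ≤ (P.eval n : ℕ) := by exact_mod_cast hlen.le
    have h2 : 0 ≤ A * ((errors h ([] : Seq n) : ℝ) + errors h H) := by positivity
    simp only [Learner.mistakesFrom, Nat.cast_zero]
    linarith
  | cons z S ih =>
    obtain ⟨x, y⟩ := z
    intro s H hs hL hlen
    obtain ⟨h1, h2⟩ := hup s H x y (hs x)
    have hstep : (learner k P T).mistakesFrom s ((x, y) :: S) =
        (if decide (T.eval n ≤ scores x (gen (initS n k (P.eval n)) H)) = y then 0 else 1) +
          (learner k P T).mistakesFrom (update k P T (s, List.ofFn x, y)) S := by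
      rw [← h1]
      rfl
    rw [hstep, errors_cons]
    have hlast : errors h (H ++ [(x, y)]) = errors h H + if disj h x = y then 0 else 1 := by
      rw [errors_append, errors_cons]
      simp [errors]
    set e : ℕ := if disj h x = y then 0 else 1 with he
    by_cases hc : decide (T.eval n ≤ scores x (gen (initS n k (P.eval n)) H)) = y
    · rw [if_pos hc] at h2 ⊢
      rw [h2]
      have h3 := ih (memOf n k (P.eval n) H) H (fun x' => hme H x') hL hlen
      have h4 : 0 ≤ A * (e : ℝ) := by positivity
      push_cast
      linarith
    · rw [if_neg hc] at h2 ⊢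
      have hL' := legal_snoc hL hc
      by_cases hl : P.eval n - H.length ≤ 1
      · rw [if_pos hl] at h2
        rw [h2]
        have h3 := ih start [] (fun x' => hst x') (legal_nil _ _) (by simp; omega)
        have hlen' : (H ++ [(x, y)]).length = P.eval n := by
          rw [List.length_append, List.length_singleton]
          omega
        have h4 := hfull _ hlen' hL'
        rw [hlast] at h4
        have h5 : (H.length : ℝ) + 1 = (P.eval n : ℕ) := by
          rw [← hlen', List.length_append, List.length_singleton]
          push_cast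
          ring
        have h6 : (errors h ([] : Seq n) : ℝ) = 0 := by simp [errors]
        rw [h6] at h3
        push_cast at h4 h3 ⊢
        simp only [List.length_nil, Nat.cast_zero] at h3
        linarith
      · rw [if_neg hl] at h2
        rw [h2]
        have h3 := ih (memOf n k (P.eval n) (H ++ [(x, y)])) (H ++ [(x, y)])
          (fun x' => hme _ x') hL' (by rw [List.length_append, List.length_singleton]; omega)
        rw [hlast, List.length_append, List.length_singleton] at h3
        push_cast at h3 ⊢
        linarith

end PHS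

theorem t_PHS (hUPD : Stmt_UPD) : Stmt_PHS := by
  intro n k P T h A hA hP hfull S
  have h1 := PHS.claim hUPD hA hP hfull S start [] (fun x => (hUPD n k P T).1 x)
    (PHS.legal_nil _ _) (by simp; omega)
  have h2 : (errors h ([] : Seq n) : ℝ) = 0 := by simp [errors]
  rw [h2] at h1
  simp only [List.length_nil, Nat.cast_zero, add_zero] at h1
  show ((learner k P T).mistakesFrom start S : ℝ) ≤ _
  linarith

end Pool.Agent.RDisj
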