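import Pool.Agent.RDisj.Stmts

/-!
# PTU: prediction and update run in polynomial time
-/

set_option autoImplicit false

namespace Pool.Agent.RDisj

open Pool.Agent.PT Pool.Agent.OnlineDisj

namespace PTU

variable {α : Type} [N487b59b3 α]

theorem PT_supC {f : α → List Cells} (hf : PT f) : PT (fun a => supC (f a)) := by
  refine PT.fold (g := fun p : Bool × U × Cells =>
      U.mk (p.2.1.val + ((if decide (p.2.2.1.1.val = 0) then 0 else 1) +
        (if decide (p.2.2.2.1.val = 0) then 0 else 1))))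
    (e := fun _ => true) (s := fun _ => U.mk 0) (l := f) ?_ 2 ?_ (PT.const true) (PT.const _) hf
  · have h1 : PT (fun p : Bool × U × Cells =>
        if decide (p.2.2.1.1.val = 0) then U.mk 0 else U.mk 1) :=
      PT.ite PT.snd.comp_snd.comp_fst.comp_fst.uzero (PT.const _) (PT.const _)
    have h2 : PT (fun p : Bool × U × Cells =>
        if decide (p.2.2.2.1.val = 0) then U.mk 0 else U.mk 1) :=
      PT.ite PT.snd.comp_snd.comp_snd.comp_fst.uzero (PT.const _) (PT.const _)
    refine (PT.uadd PT.snd.comp_fst (PT.uadd h1 h2)).congr fun p => ?_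
    split_ifs <;> rfl
  · intro e s z
    rw [length_enc_U, length_enc_U]
    simp only [Polynomial.eval_ofNat]
    split_ifs <;> omega

theorem PT_hitC {f : α → List Bool} {g : α → List Cells} (hf : PT f) (hg : PT g) :
    PT (fun a => hitC (f a) (g a)) := by
  refine PT.fold (g := fun p : Bool × U × (Bool × Cells) =>
      U.mk (p.2.1.val + (if decide ((sel p.2.2).1.val = 0) then 0 else 1)))
    (e := fun _ => true) (s := fun _ => U.mk 0) (l := fun a => (f a).zip (g a)) ?_ 1 ?_
    (PT.const true) (PT.const _) (PT.zip hf hg)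
  · have h1 : PT (fun p : Bool × U × (Bool × Cells) =>
        if decide ((sel p.2.2).1.val = 0) then U.mk 0 else U.mk 1) :=
      PT.ite (PT_sel PT.snd.comp_snd).comp_fst.uzero (PT.const _) (PT.const _)
    refine (PT.uadd PT.snd.comp_fst h1).congr fun p => ?_
    split_ifs <;> rfl
  · intro e s z
    rw [length_enc_U, length_enc_U]
    simp only [Polynomial.eval_one]
    split_ifs <;> omega

theorem PT_dnsC {f : α → List Bool} {g : α → Conf} (hf : PT f) (hg : PT g) :
    PT (fun a => dnsC (f a) (g a)) :=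
  PT.ule (PT_supC hg.comp_snd)
    (PT.umul hg.comp_fst.comp_snd.comp_snd.comp_fst (PT_hitC hf hg.comp_snd))

theorem PT_scoreC {f : α → List Bool} {g : α → Conf} (hf : PT f) (hg : PT g) :
    PT (fun a => scoreC (f a) (g a)) :=
  PT.ite (PT.beq (PT_dnsC hf hg) hg.comp_fst.comp_fst) (PT_total hf hg.comp_snd) (PT.const _)

theorem PT_scoresC {f : α → List Bool} {g : α → List Conf} (hf : PT f) (hg : PT g) :
    PT (fun a => scoresC (f a) (g a)) := by
  have hs : PT (fun p : List Bool × Conf => scoreC p.1 p.2) := PT_scoreC PT.fst PT.snd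
  obtain ⟨q, hq⟩ := hs.length_bound
  refine PT.fold (g := fun p : List Bool × U × Conf => U.mk (p.2.1.val + (scoreC p.1 p.2.2).val))
    (e := f) (s := fun _ => U.mk 0) (l := g) ?_ (q.comp (2 * Polynomial.X + 1)) ?_ hf
    (PT.const _) hg
  · exact PT.uadd PT.snd.comp_fst (PT_scoreC PT.fst PT.snd.comp_snd)
  · intro e s t
    rw [length_enc_U, length_enc_U]
    have h1 : (enc (scoreC e t)).length ≤ q.eval (enc (e, t)).length := hq (e, t)
    rw [length_enc_U, length_enc_pair] at h1
    have h2 := poly_mono q (show 2 * (enc e).length + 1 + (enc t).length ≤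
      2 * ((enc e).length + (enc t).length) + 1 by omega)
    simp only [Polynomial.eval_comp, Polynomial.eval_add, Polynomial.eval_mul, Polynomial.eval_X,
      Polynomial.eval_ofNat, Polynomial.eval_one]
    omega

theorem PT_stayCell {e : α → Bool × Bool × Bool} {c : α → Cell} (he : PT e) (hc : PT c) :
    PT (fun a => stayCell (e a) (c a)) :=
  PT.pair (PT.ite he.comp_fst hc.comp_fst.upred hc.comp_fst)
    (PT.ite he.comp_snd.comp_fst
      (PT.ite he.comp_snd.comp_snd (PT.uadd hc.comp_snd hc.comp_snd) hc.comp_snd.usucc.uhalf)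
      hc.comp_snd)

theorem PT_fireCell {b : α → U} {c : α → Cell} (hb : PT b) (hc : PT c) :
    PT (fun a => fireCell (b a) (c a)) :=
  PT.pair (PT.ite hc.comp_fst.uzero (PT.const _) hb) (PT.const _)

theorem PT_stayC {f : α → List Bool} {y : α → Bool} {g : α → Conf} (hf : PT f) (hy : PT y)
    (hg : PT g) : PT (fun a => stayC (f a) (y a) (g a)) := by
  have hd := PT_dnsC hf hg
  refine PT.pair hg.comp_fst ?_
  refine PT.map (g := fun p : (Bool × Bool × Bool) × (Bool × Cells) =>
      if p.2.1 then (stayCell p.1 p.2.2.1, p.2.2.2) else (p.2.2.1, stayCell p.1 p.2.2.2))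
    (e := fun a => (dnsC (f a) (g a), dnsC (f a) (g a) == (g a).1.1, y a))
    (l := fun a => (f a).zip (g a).2) ?_
    (PT.pair hd (PT.pair (PT.beq hd hg.comp_fst.comp_fst) hy)) (PT.zip hf hg.comp_snd)
  exact PT.ite PT.snd.comp_fst
    (PT.pair (PT_stayCell PT.fst PT.snd.comp_snd.comp_fst) PT.snd.comp_snd.comp_snd)
    (PT.pair PT.snd.comp_snd.comp_fst (PT_stayCell PT.fst PT.snd.comp_snd.comp_snd))

theorem PT_fireC {f : α → List Bool} {g : α → Conf} (hf : PT f) (hg : PT g) :
    PT (fun a => fireC (f a) (g a)) := by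
  refine PT.pair (PT.pair hg.comp_fst.comp_fst (PT.pair hg.comp_fst.comp_snd.comp_fst
    (PT.pair hg.comp_fst.comp_snd.comp_snd.comp_fst
      hg.comp_fst.comp_snd.comp_snd.comp_snd.upred))) ?_
  refine PT.map (g := fun p : U × (Bool × Cells) =>
      if p.2.1 then (fireCell p.1 p.2.2.1, zeroCell) else (zeroCell, fireCell p.1 p.2.2.2))
    (e := fun a => (g a).1.2.1) (l := fun a => (f a).zip (g a).2) ?_
    hg.comp_fst.comp_snd.comp_fst (PT.zip hf hg.comp_snd)
  exact PT.ite PT.snd.comp_fst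
    (PT.pair (PT_fireCell PT.fst PT.snd.comp_snd.comp_fst) (PT.const _))
    (PT.pair (PT.const _) (PT_fireCell PT.fst PT.snd.comp_snd.comp_snd))

theorem PT_forkC {f : α → List Bool} {y : α → Bool} {g : α → Conf} (hf : PT f) (hy : PT y)
    (hg : PT g) : PT (fun a => forkC (f a) (y a) (g a)) :=
  PT.ite (PT.or hy hg.comp_fst.comp_snd.comp_snd.comp_snd.uzero)
    (PT.cons (PT_stayC hf hy hg) (PT.const []))
    (PT.cons (PT_stayC hf hy hg) (PT.cons (PT_fireC hf hg) (PT.const [])))

theorem PT_pair (k : ℕ) (j : Bool) {x : α → List Bool} {b G : α → U} (hx : PT x) (hb : PT b)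
    (hG : PT G) : PT (fun a => (((j, b a, G a, (⟨k⟩ : U)),
      (x a).map fun _ => ((b a, (⟨1⟩ : U)), (b a, (⟨1⟩ : U)))) : Conf)) := by
  refine PT.pair (PT.pair (PT.const _) (PT.pair hb (PT.pair hG (PT.const _)))) ?_
  refine PT.map (g := fun p : U × Bool => ((p.1, U.mk 1), (p.1, U.mk 1))) ?_ hb hx
  exact PT.pair (PT.pair PT.fst (PT.const _)) (PT.pair PT.fst (PT.const _))

theorem PT_initC (hLPT : Stmt_LPT) (k : ℕ) {x : α → List Bool} {L : α → U} (hx : PT x)
    (hL : PT L) : PT (fun a => initC k (x a) (L a)) := by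
  have h1 : PT (fun p : (List Bool × U) × U =>
      ([((true, p.1.2, p.2, ⟨k⟩), p.1.1.map fun _ => ((p.1.2, ⟨1⟩), (p.1.2, ⟨1⟩))),
        ((false, p.1.2, p.2, ⟨k⟩), p.1.1.map fun _ => ((p.1.2, ⟨1⟩), (p.1.2, ⟨1⟩)))] :
        List Conf)) :=
    PT.cons (PT_pair k true PT.fst.comp_fst PT.fst.comp_snd PT.snd)
      (PT.cons (PT_pair k false PT.fst.comp_fst PT.fst.comp_snd PT.snd) (PT.const []))
  have h2 : PT (fun p : (List Bool × U) × U =>
      (upto ⟨p.1.2.val + 1⟩).flatMap fun G =>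
        ([((true, p.2, G, ⟨k⟩), p.1.1.map fun _ => ((p.2, ⟨1⟩), (p.2, ⟨1⟩))),
          ((false, p.2, G, ⟨k⟩), p.1.1.map fun _ => ((p.2, ⟨1⟩), (p.2, ⟨1⟩)))] :
          List Conf)) :=
    hLPT.1 (e := fun p : (List Bool × U) × U => (p.1.1, p.2))
      (l := fun p : (List Bool × U) × U => upto ⟨p.1.2.val + 1⟩) h1
      (PT.pair PT.fst.comp_fst PT.snd) (hLPT.2 PT.fst.comp_snd.usucc)
  exact hLPT.1 (e := fun a => (x a, L a)) (l := fun a => upto ⟨(L a).val + 1⟩) h2
    (PT.pair hx hL) (hLPT.2 hL.usucc)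

theorem PT_initMem (hLPT : Stmt_LPT) (k : ℕ) (P : Polynomial ℕ) {x : α → List Bool}
    (hx : PT x) : PT (fun a => initMem k P (x a)) := by
  have h := PT.poly (PT.length hx) P
  exact PT.pair h (PT_initC hLPT k hx h)

theorem PT_ready (hLPT : Stmt_LPT) (k : ℕ) (P : Polynomial ℕ) {p : α → Mem × List Bool}
    (hp : PT p) : PT (fun a => ready k P (p a)) :=
  PT.ite (PT.isEmpty.comp hp.comp_fst.comp_snd) (PT_initMem hLPT k P hp.comp_snd) hp.comp_fst

theorem PT_predict (hLPT : Stmt_LPT) (k : ℕ) (P T : Polynomial ℕ) : PT (predict k P T) :=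
  PT.ule (PT.poly (PT.length PT.snd) T)
    (PT_scoresC PT.snd (PT_ready hLPT k P PT.id).comp_snd)

theorem PT_update (hLPT : Stmt_LPT) (k : ℕ) (P T : Polynomial ℕ) : PT (update k P T) := by
  have hp : PT (fun p : Mem × List Bool × Bool => (p.1, p.2.1)) := PT.pair PT.fst PT.snd.comp_fst
  have hr := PT_ready hLPT k P hp
  have hx : PT (fun p : Mem × List Bool × Bool => p.2.1) := PT.snd.comp_fst
  have hy : PT (fun p : Mem × List Bool × Bool => p.2.2) := PT.snd.comp_snd
  have hg : PT (fun q : (List Bool × Bool) × Conf => forkC q.1.1 q.1.2 q.2) :=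
    PT_forkC PT.fst.comp_fst PT.fst.comp_snd PT.snd
  exact PT.ite (PT.beq ((PT_predict hLPT k P T).comp hp) hy) hr
    (PT.ite (PT.ule hr.comp_fst (PT.const (U.mk 1))) (PT.const _)
      (PT.pair hr.comp_fst.upred (hLPT.1 hg (PT.pair hx hy) hr.comp_snd)))

end PTU

theorem t_PTU (hLPT : Stmt_LPT) : Stmt_PTU := fun k P T =>
  ⟨PTU.PT_predict hLPT k P T, PTU.PT_update hLPT k P T⟩

end Pool.Agent.RDisj
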