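import Pool.Agent.RDisj.Stmts

/-!
# The list operations describe the operations on functions
-/

set_option autoImplicit false

namespace Pool.Agent.RDisj

open Pool.Agent.PT Pool.Agent.OnlineDisj

namespace SEM

theorem supC_cellsOf {n : ℕ} (c w : Lit n → ℕ) : supC (cellsOf c w) = ⟨nsup c⟩ := by
  unfold supC cellsOf
  refine (foldl_sum (fun z : Cells => (if decide (z.1.1.val = 0) then 0 else 1) +
    (if decide (z.2.1.val = 0) then 0 else 1)) _ 0).trans ?_
  rw [List.map_ofFn, List.sum_ofFn, Nat.zero_add]
  congr 1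
  unfold nsup
  rw [Fintype.sum_prod_type]
  apply Finset.sum_congr rfl
  intro i _
  rw [Fintype.sum_bool]
  simp only [Function.comp, decide_eq_true_eq]

theorem hitC_cellsOf {n : ℕ} (x : Fin n → Bool) (c w : Lit n → ℕ) :
    hitC (List.ofFn x) (cellsOf c w) = ⟨nhit x c⟩ := by
  unfold hitC cellsOf nhit
  rw [zip_ofFn, sum_sat x fun l => if c l = 0 then 0 else 1]
  refine (foldl_sum (fun z : Bool × Cells => if decide ((sel z).1.val = 0) then 0 else 1) _
    0).trans ?_
  rw [List.map_ofFn, List.sum_ofFn, Nat.zero_add]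
  congr 1
  apply Finset.sum_congr rfl
  intro i _
  simp only [Function.comp]
  rw [sel_cell]
  simp only [decide_eq_true_eq]

theorem dnsC_confOf {n : ℕ} (x : Fin n → Bool) (s : Cf n) :
    dnsC (List.ofFn x) (confOf s) = dns s.G s.c x := by
  unfold dnsC confOf dns
  simp only [supC_cellsOf, hitC_cellsOf]

theorem scoreC_confOf {n : ℕ} (x : Fin n → Bool) (s : Cf n) :
    scoreC (List.ofFn x) (confOf s) = ⟨score x s⟩ := by
  unfold scoreC score
  rw [dnsC_confOf]
  simp only [confOf, beq_iff_eq, total_eq]
  split_ifs <;> rfl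

theorem stayC_confOf {n : ℕ} (x : Fin n → Bool) (y : Bool) (s : Cf n) :
    stayC (List.ofFn x) y (confOf s) = confOf (stay x y s) := by
  unfold stayC
  rw [dnsC_confOf]
  unfold confOf stay cellsOf dec
  simp only [zip_ofFn, List.map_ofFn]
  congr 2
  funext i
  simp only [Function.comp, stayCell]
  cases hx : x i
  · have s1 : ¬ sat x (i, true) := by simp [sat, hx]
    have s2 : sat x (i, false) := hx
    simp only [s1, s2, if_true, if_false]
    cases hd : dns s.G s.c x <;> cases hj : s.j <;> cases y <;> simp
  · have s1 : sat x (i, true) := hx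
    have s2 : ¬ sat x (i, false) := by simp [sat, hx]
    simp only [s1, s2, if_true, if_false]
    cases hd : dns s.G s.c x <;> cases hj : s.j <;> cases y <;> simp

theorem fireC_confOf {n : ℕ} (x : Fin n → Bool) (s : Cf n) :
    fireC (List.ofFn x) (confOf s) = confOf (fire x s) := by
  unfold fireC confOf fire cellsOf cut
  simp only [zip_ofFn, List.map_ofFn]
  congr 2
  funext i
  simp only [Function.comp, fireCell, zeroCell]
  cases hx : x i
  · have s1 : ¬ sat x (i, true) := by simp [sat, hx]
    have s2 : sat x (i, false) := hx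
    simp only [s1, s2, if_true, if_false]
    by_cases h2 : s.c (i, false) = 0 <;> simp [h2]
  · have s1 : sat x (i, true) := hx
    have s2 : ¬ sat x (i, false) := by simp [sat, hx]
    simp only [s1, s2, if_true, if_false]
    by_cases h1 : s.c (i, true) = 0 <;> simp [h1]

theorem forkC_confOf {n : ℕ} (x : Fin n → Bool) (y : Bool) (s : Cf n) :
    forkC (List.ofFn x) y (confOf s) = (fork (x, y) s).map confOf := by
  unfold forkC fork
  rw [stayC_confOf, fireC_confOf]
  have h : (confOf s).1.2.2.2.val = s.r := rfl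
  rw [h]
  by_cases h1 : (y || decide (s.r = 0)) = true
  · rw [if_pos h1, if_pos h1]
    rfl
  · rw [if_neg h1, if_neg h1]
    rfl

theorem initC_ofFn {n : ℕ} (k L : ℕ) (x : Fin n → Bool) :
    initC k (List.ofFn x) ⟨L⟩ = (initS n k L).map confOf := by
  unfold initC initS upto
  simp only [List.flatMap_map, List.map_flatMap, List.map_ofFn, List.map_cons, List.map_nil]
  rfl

end SEM

theorem t_SEM : Stmt_SEM :=
  ⟨fun x s => SEM.scoreC_confOf x s, fun x y s => SEM.forkC_confOf x y s,
    fun k L x => SEM.initC_ofFn k L x⟩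

end Pool.Agent.RDisj
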