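import Pool.Agent.RDisj.Stmts

/-!
# RDJ_SRV: relevant literals do not use up their budgets
-/

set_option autoImplicit false

namespace Pool.Agent.RDisj

open Pool.Agent.PT Pool.Agent.OnlineDisj

namespace SRV

theorem cnt_le_noise {n : ℕ} (G : ℕ) (j : Bool) (h : Finset (Lit n)) (l : Lit n) (hl : l ∈ h) :
    ∀ (P : Seq n) (c : Lit n → ℕ), cnt G false j l c P ≤ noise h P := by
  intro P
  induction P with
  | nil => intro c; exact le_rfl
  | cons z P ih =>
    intro c
    have h1 := ih (dec G c z.1)
    have h2 : noise h (z :: P) = noise h P + if (!z.2 && disj h z.1) = true then 1 else 0 := by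
      unfold noise
      rw [List.countP_cons]
    rw [h2]
    show (if z.2 = false ∧ sat z.1 l ∧ dns G c z.1 = j then 1 else 0) +
      cnt G false j l (dec G c z.1) P ≤ _
    by_cases h3 : z.2 = false ∧ sat z.1 l ∧ dns G c z.1 = j
    · have h4 : (!z.2 && disj h z.1) = true := by
        have h5 : disj h z.1 = true := by
          unfold disj
          rw [decide_eq_true_eq]
          have := h3.2.1
          unfold sat at this
          exact ⟨l, hl, by simpa using this⟩
        rw [h3.1, h5]
        rfl
      rw [if_pos h3, if_pos h4]
      omega
    · rw [if_neg h3]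
      omega

theorem budget {n : ℕ} (G : ℕ) (l : Lit n) :
    ∀ (P : Seq n) (c : Lit n → ℕ),
      c l ≤ decs G c P l + cnt G true true l c P + cnt G false true l c P := by
  intro P
  induction P with
  | nil => intro c; show c l ≤ c l + 0 + 0; omega
  | cons z P ih =>
    intro c
    have h1 := ih (dec G c z.1)
    show c l ≤ decs G (dec G c z.1) P l +
      ((if z.2 = true ∧ sat z.1 l ∧ dns G c z.1 = true then 1 else 0) +
        cnt G true true l (dec G c z.1) P) +
      ((if z.2 = false ∧ sat z.1 l ∧ dns G c z.1 = true then 1 else 0) +
        cnt G false true l (dec G c z.1) P)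
    have h2 : c l ≤ dec G c z.1 l +
        (if z.2 = true ∧ sat z.1 l ∧ dns G c z.1 = true then 1 else 0) +
        (if z.2 = false ∧ sat z.1 l ∧ dns G c z.1 = true then 1 else 0) := by
      unfold dec
      by_cases hs : sat z.1 l
      · by_cases hd : dns G c z.1 = true
        · rcases hz : z.2 with _ | _
          · simp only [hs, hd, if_true]
            simp
            omega
          · simp only [hs, hd, if_true]
            simp
            omega
        · simp only [hs, if_true]
          rw [if_neg hd]
          omega
      · rw [if_neg hs]
        omega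
    omega

theorem noise_append {n : ℕ} (h : Finset (Lit n)) (P Q : Seq n) :
    noise h P ≤ noise h (P ++ Q) := by
  unfold noise
  rw [List.countP_append]
  omega

end SRV

open SRV in
theorem t_SRV : Stmt_SRV := by
  intro n D G b m h c H l hB hN hb hl hc
  have key : ∀ P Q : Seq n, H = P ++ Q →
      cnt G false true l c P ≤ m ∧ cnt G true true l c P ≤ m + D := by
    intro P Q hPQ
    have h1 := cnt_le_noise G true h l hl P c
    have h2 := noise_append h P Q
    rw [← hPQ] at h2
    have h3 := hB P Q hPQ true l
    omega
  constructor
  · exact (key H [] (by simp)).2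
  · intro P Q hPQ h0
    have h1 := key P Q hPQ
    have h2 := budget G l P c
    omega

end Pool.Agent.RDisj
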