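import Pool.Agent.RDisj.Defs

/-!
# Statements of the modules of `Pool.Agent.RDisj`

The definitions are in `Pool.Agent.RDisj.Defs`; the paper proof is in `PAPER.md`.
-/

set_option autoImplicit false

namespace Pool.Agent.RDisj

open Pool.Agent.PT Pool.Agent.OnlineDisj

/-! ## Polynomial time -/

/-- LPT: `flatMap` and `upto` run in polynomial time. -/
def Stmt_LPT : Prop :=
  (∀ {δ ε α β : Type} [N487b59b3 δ] [N487b59b3 ε] [N487b59b3 α] [N487b59b3 β]
    {g : ε × α → List β} {e : δ → ε} {l : δ → List α}, PT g → PT e → PT l →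
    PT (fun d => (l d).flatMap (fun a => g (e d, a)))) ∧
  ∀ {δ : Type} [N487b59b3 δ] {f : δ → U}, PT f → PT (fun d => upto (f d))

/-- PTU: prediction and update run in polynomial time. -/
def Stmt_PTU : Prop :=
  ∀ (k : ℕ) (P T : Polynomial ℕ), PT (predict k P T) ∧ PT (update k P T)

/-! ## Lists and functions -/

/-- SEM: the list operations describe the operations on functions. -/
def Stmt_SEM : Prop :=
  (∀ {n : ℕ} (x : Fin n → Bool) (s : Cf n),
    scoreC (List.ofFn x) (confOf s) = ⟨score x s⟩) ∧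
  (∀ {n : ℕ} (x : Fin n → Bool) (y : Bool) (s : Cf n),
    forkC (List.ofFn x) y (confOf s) = (fork (x, y) s).map confOf) ∧
  ∀ {n : ℕ} (k L : ℕ) (x : Fin n → Bool),
    initC k (List.ofFn x) ⟨L⟩ = (initS n k L).map confOf

/-- UPD: the memory after the rounds `H` of a phase. -/
def Stmt_UPD : Prop :=
  ∀ (n k : ℕ) (P T : Polynomial ℕ),
    (∀ x : Fin n → Bool, ready k P (start, List.ofFn x) = memOf n k (P.eval n) []) ∧
    (∀ (H : Seq n) (x : Fin n → Bool),
      ready k P (memOf n k (P.eval n) H, List.ofFn x) = memOf n k (P.eval n) H) ∧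
    ∀ (s : Mem) (H : Seq n) (x : Fin n → Bool) (y : Bool),
      ready k P (s, List.ofFn x) = memOf n k (P.eval n) H →
      predict k P T (s, List.ofFn x) =
        decide (T.eval n ≤ scores x (gen (initS n k (P.eval n)) H)) ∧
      update k P T (s, List.ofFn x, y) =
        if decide (T.eval n ≤ scores x (gen (initS n k (P.eval n)) H)) = y then
          memOf n k (P.eval n) H
        else if P.eval n - H.length ≤ 1 then start
        else memOf n k (P.eval n) (H ++ [(x, y)])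

/-! ## Configurations -/

/-- LEN: number of configurations. -/
def Stmt_LEN : Prop :=
  ∀ (n k L : ℕ) (H : Seq n),
    (gen (initS n k L) H).length ≤ 2 * (L + 1) ^ 2 * (H.length + 1) ^ k

/-- WGT: bounds for the configurations after a list of mistakes. -/
def Stmt_WGT : Prop :=
  ∀ {n : ℕ} (k L θ : ℕ) (H : Seq n), 1 ≤ θ → Legal θ (initS n k L) H →
    ∀ s ∈ gen (initS n k L) H, s.b ≤ L ∧ s.G ≤ L ∧ s.r ≤ k ∧
      ∀ l, s.c l ≤ s.b ∧ 1 ≤ s.w l ∧ s.w l < 2 * θ

/-- NEG: at least a fifth of the rounds have label `1`. -/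
def Stmt_NEG : Prop :=
  ∀ {n : ℕ} (k L N : ℕ) (H : Seq n), 1 ≤ N → 4 * n * (L + 1) ^ (k + 2) ≤ N →
    H.length ≤ L → Legal (2 * N) (initS n k L) H →
    H.length ≤ 5 * H.countP fun z => z.2

/-- BRG: bounded weights imply balance. -/
def Stmt_BRG : Prop :=
  ∀ {n : ℕ} (k L θ D b G : ℕ) (H : Seq n), 1 ≤ θ → 2 * θ ≤ 2 ^ D → b ≤ L → G ≤ L →
    Legal θ (initS n k L) H → Good D G b (k + 1) (fun _ => b) H

/-! ## One configuration -/

/-- SRV: relevant literals do not use up their budgets. -/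
def Stmt_SRV : Prop :=
  ∀ {n : ℕ} (D G b m : ℕ) (h : Finset (Lit n)) (c : Lit n → ℕ) (H : Seq n) (l : Lit n),
    Bal D G c H → noise h H ≤ m → 2 * m + D < b → l ∈ h → c l = b →
    cnt G true true l c H ≤ m + D ∧ ∀ P Q : Seq n, H = P ++ Q → decs G c P l ≠ 0

/-- DCT: the number of dense rounds. -/
def Stmt_DCT : Prop :=
  ∀ {n : ℕ} (G b : ℕ) (c : Lit n → ℕ) (H : Seq n), (∀ l, c l ≤ b) →
    (∀ P Q : Seq n, H = P ++ Q → nsup (decs G c P) ≠ 0) →
    (ndns G c H : ℝ) ≤ G * b * (1 + Real.log (2 * n))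

open Classical in
/-- a literal of `h` satisfied by `x`, if there is one -/
noncomputable def asg {n : ℕ} (h : Finset (Lit n)) (x : Fin n → Bool) : Option (Lit n) :=
  if hx : ∃ l ∈ h, sat x l then some hx.choose else none

/-- number of rounds with label `1` assigned to `l` -/
noncomputable def qq {n : ℕ} (h : Finset (Lit n)) (l : Lit n) (H : Seq n) : ℕ :=
  H.countP fun z => z.2 && decide (asg h z.1 = some l)

/-- number of rounds with label `1` assigned to `l` and of class `j` -/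
noncomputable def uu {n : ℕ} (G : ℕ) (j : Bool) (h : Finset (Lit n)) (l : Lit n) :
    (Lit n → ℕ) → Seq n → ℕ
  | _, [] => 0
  | c, z :: H => (if z.2 = true ∧ asg h z.1 = some l ∧ dns G c z.1 = j then 1 else 0) +
      uu G j h l (dec G c z.1) H

/-- sum over the sparse rounds with label `0` containing `l` of the `p`-th power of the number of
later rounds assigned to `l` -/
noncomputable def ff {n : ℕ} (G : ℕ) (h : Finset (Lit n)) (p : ℕ) (l : Lit n) :
    (Lit n → ℕ) → Seq n → ℕ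
  | _, [] => 0
  | c, z :: H => (if z.2 = false ∧ sat z.1 l ∧ dns G c z.1 = false then qq h l H ^ p else 0) +
      ff G h p l (dec G c z.1) H

/-- the moments -/
noncomputable def mom {n : ℕ} (h : Finset (Lit n)) (p : ℕ) (c : Lit n → ℕ) (H : Seq n) : ℕ :=
  ∑ l ∈ h, if c l = 0 then 0 else qq h l H ^ p

/-- sum of the moments of the children at the sparse rounds with label `0` -/
noncomputable def chs {n : ℕ} (G b : ℕ) (h : Finset (Lit n)) (p : ℕ) :
    (Lit n → ℕ) → Seq n → ℕ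
  | _, [] => 0
  | c, z :: H => (if z.2 = false ∧ dns G c z.1 = false then mom h p (cut b c z.1) H else 0) +
      chs G b h p (dec G c z.1) H

/-- ASG: assigned rounds. -/
def Stmt_ASG : Prop :=
  ∀ {n : ℕ} (h : Finset (Lit n)) (H : Seq n),
    ∑ l ∈ h, qq h l H = covered h H ∧
    ∀ (G : ℕ) (c : Lit n → ℕ),
      (∀ l, uu G false h l c H + uu G true h l c H = qq h l H) ∧
      (∀ l (j : Bool), uu G j h l c H ≤ cnt G true j l c H) ∧
      ∑ l ∈ h, uu G true h l c H ≤ ndns G c H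

/-- ABL: many sparse assigned rounds force many later ones after noise rounds. -/
def Stmt_ABL : Prop :=
  ∀ {n : ℕ} (D G p : ℕ) (h : Finset (Lit n)) (l : Lit n) (c : Lit n → ℕ) (H : Seq n),
    Bal D G c H → (uu G false h l c H - D) ^ (p + 1) ≤ (p + 1) * ff G h p l c H

/-- CHS: the moments of the children. -/
def Stmt_CHS : Prop :=
  ∀ {n : ℕ} (G b p : ℕ) (h : Finset (Lit n)) (c : Lit n → ℕ) (H : Seq n), 1 ≤ b →
    ((∀ l ∈ h, c l ≠ 0 → ∀ P Q : Seq n, H = P ++ Q → decs G c P l ≠ 0) →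
      (∑ l ∈ h, if c l = 0 then 0 else ff G h p l c H) ≤ chs G b h p c H) ∧
    ∀ B : ℝ, 0 ≤ B →
      (∀ (H1 H2 : Seq n) (x : Fin n → Bool), H = H1 ++ (x, false) :: H2 →
        dns G (decs G c H1) x = false → (mom h p (cut b (decs G c H1) x) H2 : ℝ) ≤ B) →
      (chs G b h p c H : ℝ) ≤ noise h H * B

/-- MOM: the moment bound. -/
def Stmt_MOM : Prop :=
  ∀ {n : ℕ} (K D G b m : ℕ) (h : Finset (Lit n)) (H : Seq n), 1 ≤ n → 1 ≤ K → 1 ≤ D →
    2 * n < G ^ K → 2 * m + D < b → b ≤ 3 * (m + 2 * n * D) →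
    Good D G b K (fun _ => b) H → noise h H ≤ m →
    (covered h H : ℝ) ^ (K + 1) ≤ (h.card : ℝ) ^ K *
      (CC K * ((m + 2 * n * D : ℕ) : ℝ) ^ (K + 1) * (1 + 3 * G * (1 + Real.log (2 * n))))

/-! ## Phases -/

/-- PHB: a full phase. -/
def Stmt_PHB : Prop :=
  ∀ {n : ℕ} (K L N D G : ℕ) (h : Finset (Lit n)) (H : Seq n) (X : ℝ), 1 ≤ n → 1 ≤ K → 1 ≤ D →
    2 * n < G ^ K → G ≤ L → 2 * (D + 1) ≤ L → 4 * n * (L + 1) ^ (K + 1) ≤ N → 1 ≤ N →
    4 * N ≤ 2 ^ D → Legal (2 * N) (initS n (K - 1) L) H → H.length = L → 5 ≤ X →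
    (h.card : ℝ) ^ K * CC K * (1 + 3 * G * (1 + Real.log (2 * n))) ≤ (X / 5 - 1) ^ (K + 1) →
    4 * n * D * X ≤ L →
    (L : ℝ) ≤ 2 * X * errors h H

/-- PHS: from one phase to all trials. -/
def Stmt_PHS : Prop :=
  ∀ (n k : ℕ) (P T : Polynomial ℕ) (h : Finset (Lit n)) (A : ℝ), 0 ≤ A → 1 ≤ P.eval n →
    (∀ H : Seq n, H.length = P.eval n → Legal (T.eval n) (initS n k (P.eval n)) H →
      ((P.eval n : ℕ) : ℝ) ≤ A * errors h H) →
    ∀ S : Seq n, ((learner k P T).mistakes S : ℝ) ≤ A * errors h S + (P.eval n : ℕ)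

/-- MEMB: the memory is polynomially bounded. -/
def Stmt_MEMB : Prop :=
  ∀ (k : ℕ) (P T : Polynomial ℕ), (∀ n, 1 ≤ T.eval n) →
    ∃ q : Polynomial ℕ, ∀ (n : ℕ) (S : Seq n),
      (N487b59b3.bitEncode ((learner k P T).run (learner k P T).start S)).length ≤ q.eval n

/-- PAR: choice of the parameters. -/
def Stmt_PAR : Prop :=
  ∀ K B : ℕ, ∃ A : ℕ, 1 ≤ A ∧ ∀ n : ℕ, 1 ≤ n → ∃ D : ℕ, 1 ≤ D ∧ 2 * (D + 1) ≤ A * n ^ 4 ∧
    2 * n + 1 ≤ A * n ^ 4 ∧ 4 * (4 * (n + 1) * (A * n ^ 4 + 1) ^ (K + 1)) ≤ 2 ^ D ∧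
    4 * n * D * (B * n ^ 2) ≤ A * n ^ 4

end Pool.Agent.RDisj
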