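import Pool.Agent.RDisj.Stmts

/-!
# Module UPD: the memory after the rounds of a phase
-/

set_option autoImplicit false

namespace Pool.Agent.RDisj

open Pool.Agent.PT Pool.Agent.OnlineDisj

namespace UPD

theorem scoresC_eq (hSEM : Stmt_SEM) {n : ℕ} (x : Fin n → Bool) (l : List (Cf n)) :
    scoresC (List.ofFn x) (l.map confOf) = ⟨scores x l⟩ := by
  unfold scoresC scores
  refine (foldl_sum (fun t => (scoreC (List.ofFn x) t).val) _ 0).trans ?_
  rw [Nat.zero_add, List.map_map]
  congr 2
  apply List.map_congr_left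
  intro s _
  show (scoreC (List.ofFn x) (confOf s)).val = score x s
  rw [hSEM.1]

theorem flatMap_forkC (hSEM : Stmt_SEM) {n : ℕ} (x : Fin n → Bool) (y : Bool)
    (l : List (Cf n)) :
    (l.map confOf).flatMap (forkC (List.ofFn x) y) = (l.flatMap (fork (x, y))).map confOf := by
  induction l with
  | nil => rfl
  | cons a l ih =>
    rw [List.map_cons, List.flatMap_cons, List.flatMap_cons, List.map_append, ih, hSEM.2.1]

theorem gen_snoc {n : ℕ} (l : List (Cf n)) (H : Seq n) (z : (Fin n → Bool) × Bool) :
    gen l (H ++ [z]) = (gen l H).flatMap (fork z) := by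
  unfold gen
  rw [List.foldl_append]
  rfl

theorem fork_ne_nil {n : ℕ} (z : (Fin n → Bool) × Bool) (s : Cf n) : fork z s ≠ [] := by
  unfold fork
  split_ifs <;> simp

theorem flatMap_ne_nil {n : ℕ} (z : (Fin n → Bool) × Bool) (l : List (Cf n)) (hl : l ≠ []) :
    l.flatMap (fork z) ≠ [] := by
  cases l with
  | nil => exact absurd rfl hl
  | cons a l =>
    rw [List.flatMap_cons]
    intro h
    exact fork_ne_nil z a (List.append_eq_nil_iff.mp h).1

theorem gen_ne_nil {n : ℕ} (H : Seq n) : ∀ l : List (Cf n), l ≠ [] → gen l H ≠ [] := by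
  induction H with
  | nil => exact fun l hl => hl
  | cons z H ih =>
    intro l hl
    exact ih _ (flatMap_ne_nil z l hl)

theorem initS_ne_nil (n k L : ℕ) : initS n k L ≠ [] := by
  unfold initS
  rw [List.range_succ_eq_map, List.flatMap_cons, List.flatMap_cons]
  simp

theorem ready_memOf (n k : ℕ) (P : Polynomial ℕ) (H : Seq n) (x : List Bool) :
    ready k P (memOf n k (P.eval n) H, x) = memOf n k (P.eval n) H := by
  unfold ready
  rw [if_neg]
  simp only [memOf, List.isEmpty_iff, List.map_eq_nil_iff]
  exact gen_ne_nil H _ (initS_ne_nil n k _)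

theorem ready_start (hSEM : Stmt_SEM) (n k : ℕ) (P : Polynomial ℕ) (x : Fin n → Bool) :
    ready k P (start, List.ofFn x) = memOf n k (P.eval n) [] := by
  unfold ready
  rw [if_pos (by rfl)]
  unfold initMem memOf
  simp only [List.length_ofFn]
  rw [hSEM.2.2]
  rfl

theorem predict_eq (hSEM : Stmt_SEM) (n k : ℕ) (P T : Polynomial ℕ) (s : Mem) (H : Seq n)
    (x : Fin n → Bool) (hs : ready k P (s, List.ofFn x) = memOf n k (P.eval n) H) :
    predict k P T (s, List.ofFn x) =
      decide (T.eval n ≤ scores x (gen (initS n k (P.eval n)) H)) := by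
  unfold predict
  simp only [hs, List.length_ofFn]
  unfold memOf
  simp only [scoresC_eq hSEM]

theorem update_eq (hSEM : Stmt_SEM) (n k : ℕ) (P T : Polynomial ℕ) (s : Mem) (H : Seq n)
    (x : Fin n → Bool) (y : Bool)
    (hs : ready k P (s, List.ofFn x) = memOf n k (P.eval n) H) :
    update k P T (s, List.ofFn x, y) =
      if decide (T.eval n ≤ scores x (gen (initS n k (P.eval n)) H)) = y then
        memOf n k (P.eval n) H
      else if P.eval n - H.length ≤ 1 then start
      else memOf n k (P.eval n) (H ++ [(x, y)]) := by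
  unfold update
  simp only [hs, predict_eq hSEM n k P T s H x hs, beq_iff_eq, decide_eq_true_eq]
  by_cases h1 : decide (T.eval n ≤ scores x (gen (initS n k (P.eval n)) H)) = y
  · rw [if_pos h1, if_pos h1]
  · rw [if_neg h1, if_neg h1]
    by_cases h2 : P.eval n - H.length ≤ 1
    · rw [if_pos h2]
      exact if_pos h2
    · rw [if_neg h2]
      refine (if_neg h2).trans ?_
      unfold memOf
      rw [gen_snoc]
      simp only [flatMap_forkC hSEM, List.length_append, List.length_singleton]
      congr 1

end UPD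

/-- Module UPD. -/
theorem t_UPD (hSEM : Stmt_SEM) : Stmt_UPD := by
  intro n k P T
  refine ⟨fun x => UPD.ready_start hSEM n k P x, fun H x => UPD.ready_memOf n k P H _, ?_⟩
  intro s H x y hs
  exact ⟨UPD.predict_eq hSEM n k P T s H x hs, UPD.update_eq hSEM n k P T s H x y hs⟩

end Pool.Agent.RDisj
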