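import Pool.Agent.RDisj.Stmts

/-!
# WGT: bounds for the configurations after a list of mistakes
-/

set_option autoImplicit false

namespace Pool.Agent.RDisj

open Pool.Agent.PT Pool.Agent.OnlineDisj

namespace WGT

/-- The bounds for one configuration. -/
def Ok {n : ℕ} (k L θ : ℕ) (s : Cf n) : Prop :=
  s.b ≤ L ∧ s.G ≤ L ∧ s.r ≤ k ∧ ∀ l, s.c l ≤ s.b ∧ 1 ≤ s.w l ∧ s.w l < 2 * θ

theorem ok_init {n : ℕ} (k L θ : ℕ) (hθ : 1 ≤ θ) (s : Cf n) (hs : s ∈ initS n k L) :
    Ok k L θ s := by
  unfold initS at hs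
  rw [List.mem_flatMap] at hs
  obtain ⟨b, hb, hs⟩ := hs
  rw [List.mem_flatMap] at hs
  obtain ⟨G, hG, hs⟩ := hs
  rw [List.mem_range] at hb hG
  rcases List.mem_pair.1 hs with rfl | rfl
  · exact ⟨by change b ≤ L; omega, by change G ≤ L; omega, le_refl k,
      fun l => ⟨le_refl b, le_refl 1, by change 1 < 2 * θ; omega⟩⟩
  · exact ⟨by change b ≤ L; omega, by change G ≤ L; omega, le_refl k,
      fun l => ⟨le_refl b, le_refl 1, by change 1 < 2 * θ; omega⟩⟩

theorem dec_le {n : ℕ} (G : ℕ) (c : Lit n → ℕ) (x : Fin n → Bool) (l : Lit n) :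
    dec G c x l ≤ c l := by
  unfold dec
  split_ifs <;> omega

theorem cut_le {n : ℕ} (b : ℕ) (c : Lit n → ℕ) (x : Fin n → Bool) (l : Lit n) :
    cut b c x l ≤ b := by
  unfold cut
  split_ifs <;> omega

theorem ok_fire {n : ℕ} {k L θ : ℕ} (hθ : 1 ≤ θ) (x : Fin n → Bool) {s : Cf n}
    (hs : Ok k L θ s) : Ok k L θ (fire x s) := by
  obtain ⟨h1, h2, h3, _⟩ := hs
  refine ⟨h1, h2, (Nat.sub_le _ _).trans h3, fun l => ⟨cut_le _ _ _ _, le_refl 1, ?_⟩⟩
  change 1 < 2 * θ
  omega

theorem ok_stay {n : ℕ} {k L θ : ℕ} (x : Fin n → Bool) (y : Bool) {s : Cf n}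
    (hs : Ok k L θ s) (hy : y = true → score x s < θ) : Ok k L θ (stay x y s) := by
  obtain ⟨h1, h2, h3, h4⟩ := hs
  refine ⟨h1, h2, h3, fun l => ?_⟩
  obtain ⟨h5, h6, h7⟩ := h4 l
  refine ⟨(dec_le _ _ _ _).trans h5, ?_⟩
  change 1 ≤ (if sat x l then (if dns s.G s.c x = s.j then
    (if y then s.w l + s.w l else (s.w l + 1) / 2) else s.w l) else s.w l) ∧
    (if sat x l then (if dns s.G s.c x = s.j then
    (if y then s.w l + s.w l else (s.w l + 1) / 2) else s.w l) else s.w l) < 2 * θ
  by_cases ha : sat x l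
  · rw [if_pos ha]
    by_cases hb : dns s.G s.c x = s.j
    · rw [if_pos hb]
      cases y with
      | true =>
        rw [if_pos rfl]
        have h8 := hy rfl
        unfold score at h8
        rw [if_pos hb] at h8
        have h9 : s.w l ≤ tot x s.w := by
          unfold tot
          have h10 := Finset.single_le_sum (f := fun l : Lit n => if sat x l then s.w l else 0)
            (fun _ _ => Nat.zero_le _) (Finset.mem_univ l)
          simpa [ha] using h10
        constructor <;> omega
      | false =>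
        rw [if_neg (by simp)]
        constructor <;> omega
    · rw [if_neg hb]
      exact ⟨h6, h7⟩
  · rw [if_neg ha]
    exact ⟨h6, h7⟩

theorem score_le {n : ℕ} (x : Fin n → Bool) (l : List (Cf n)) (s : Cf n) (hs : s ∈ l) :
    score x s ≤ scores x l := by
  unfold scores
  exact List.single_le_sum (fun _ _ => Nat.zero_le _) _ (List.mem_map_of_mem hs)

theorem gen_concat {n : ℕ} (l : List (Cf n)) (H : Seq n) (z : (Fin n → Bool) × Bool) :
    gen l (H ++ [z]) = (gen l H).flatMap (fork z) := by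
  unfold gen
  rw [List.foldl_append]
  rfl

end WGT

open WGT in
theorem t_WGT : Stmt_WGT := by
  intro n k L θ H hθ
  induction H using List.reverseRecOn with
  | nil =>
    intro _ s hs
    exact ok_init k L θ hθ s hs
  | append_singleton H z ih =>
    intro hleg s hs
    have hleg' : Legal θ (initS n k L) H := by
      intro H1 H2 x y h
      exact hleg H1 (H2 ++ [z]) x y (by rw [h]; simp)
    have hok : ∀ s ∈ gen (initS n k L) H, Ok k L θ s := ih hleg'
    have hz : z.2 = true → scores z.1 (gen (initS n k L) H) < θ := by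
      intro hz
      have h1 := hleg H [] z.1 z.2 rfl
      rw [hz] at h1
      by_contra h2
      apply h1
      rw [decide_eq_true_iff]
      omega
    rw [gen_concat, List.mem_flatMap] at hs
    obtain ⟨t, ht, hs⟩ := hs
    have hst : Ok k L θ (stay z.1 z.2 t) :=
      ok_stay z.1 z.2 (hok t ht) fun h => (score_le z.1 _ t ht).trans_lt (hz h)
    unfold fork at hs
    by_cases hc : (z.2 || decide (t.r = 0)) = true
    · rw [if_pos hc, List.mem_singleton] at hs
      rw [hs]
      exact hst
    · rw [if_neg hc] at hs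
      rcases List.mem_pair.1 hs with rfl | rfl
      · exact hst
      · exact ok_fire hθ z.1 (hok t ht)

end Pool.Agent.RDisj
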