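import Pool.Agent.RDisj.Stmts

/-!
# The bound of Winnow for one phase
-/

set_option autoImplicit false

namespace Pool.Agent.RDisj

open Pool.Agent.PT Pool.Agent.OnlineDisj

namespace WIN

theorem neg_le_noise {n : ℕ} (G : ℕ) (h : Finset (Lit n)) (l : Lit n) (hl : l ∈ h) (H : Seq n) :
    ∀ c : Lit n → ℕ, cnt G false false l c H + cnt G false true l c H ≤ noise h H := by
  induction H with
  | nil =>
    intro c
    simp [cnt, noise]
  | cons z H ih =>
    intro c
    have h1 := ih (dec G c z.1)
    have h2 : noise h (z :: H) = noise h H + if (!z.2 && disj h z.1) = true then 1 else 0 := by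
      unfold noise
      rw [List.countP_cons]
    have h3 : (if z.2 = false ∧ sat z.1 l ∧ dns G c z.1 = false then 1 else 0) +
        (if z.2 = false ∧ sat z.1 l ∧ dns G c z.1 = true then 1 else 0) ≤
        if (!z.2 && disj h z.1) = true then 1 else 0 := by
      by_cases hz : z.2 = false ∧ sat z.1 l
      · have h4 : (!z.2 && disj h z.1) = true := by
          rw [hz.1, (disj_eq_true h z.1).2 ⟨l, hl, hz.2⟩]
          rfl
        rw [if_pos h4]
        cases hd : dns G c z.1
        · simp
          split_ifs <;> omega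
        · simp
          split_ifs <;> omega
      · have h5 : ∀ j, ¬ (z.2 = false ∧ sat z.1 l ∧ dns G c z.1 = j) := fun j h' =>
          hz ⟨h'.1, h'.2.1⟩
        rw [if_neg (h5 false), if_neg (h5 true)]
        exact Nat.zero_le _
    rw [h2]
    show ((if z.2 = false ∧ sat z.1 l ∧ dns G c z.1 = false then 1 else 0) +
        cnt G false false l (dec G c z.1) H) +
      ((if z.2 = false ∧ sat z.1 l ∧ dns G c z.1 = true then 1 else 0) +
        cnt G false true l (dec G c z.1) H) ≤ _
    omega

/-- covered rounds in a balanced configuration -/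
theorem covered_le (hASG : Stmt_ASG) {n : ℕ} (D G : ℕ) (h : Finset (Lit n)) (c : Lit n → ℕ)
    (H : Seq n) (hB : Bal D G c H) : covered h H ≤ h.card * (noise h H + 2 * D) := by
  obtain ⟨h1, h2⟩ := hASG h H
  obtain ⟨h3, h4, -⟩ := h2 G c
  rw [← h1]
  calc ∑ l ∈ h, qq h l H ≤ ∑ l ∈ h, (noise h H + 2 * D) := by
        apply Finset.sum_le_sum
        intro l hl
        have e1 := h3 l
        have e2 := h4 l false
        have e3 := h4 l true
        have e4 := hB H [] (by simp) false l
        have e5 := hB H [] (by simp) true l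
        have e6 := neg_le_noise G h l hl H c
        omega
    _ = h.card * (noise h H + 2 * D) := by rw [Finset.sum_const, smul_eq_mul]

theorem errors_eq {n : ℕ} (h : Finset (Lit n)) (H : Seq n) :
    (H.countP fun z => z.2) + noise h H = covered h H + errors h H := by
  induction H with
  | nil => simp [noise, covered, errors]
  | cons z H ih =>
    obtain ⟨x, y⟩ := z
    unfold noise covered errors at ih ⊢
    simp only [List.countP_cons]
    cases y <;> cases hd : disj h x <;> simp <;> omega

theorem noise_le_errors {n : ℕ} (h : Finset (Lit n)) (H : Seq n) : noise h H ≤ errors h H := by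
  unfold noise errors
  apply List.countP_mono_left
  intro z _ hz
  obtain ⟨x, y⟩ := z
  cases y <;> cases hd : disj h x <;> simp_all

/-- the bound of Winnow -/
theorem phase_le (hNEG : Stmt_NEG) (hBRG : Stmt_BRG) (hASG : Stmt_ASG) {n : ℕ} (k L N D : ℕ)
    (h : Finset (Lit n)) (H : Seq n) (hN : 4 * n * (L + 1) ^ (k + 2) ≤ N) (hN1 : 1 ≤ N)
    (hD : 4 * N ≤ 2 ^ D) (hL : Legal (2 * N) (initS n k L) H) (hH : H.length = L)
    (hL1 : 1 ≤ L) (hc : 20 * (h.card + 1) * D ≤ L) :
    (L : ℝ) ≤ 10 * (h.card + 1 : ℕ) * errors h H := by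
  have hG := hBRG k L (2 * N) D 1 1 H (by omega) (by omega) hL1 hL1 hL
  have hB : Bal D 1 (fun _ => 1) H := hG.1
  have h1 := covered_le hASG D 1 h (fun _ => 1) H hB
  have h2 := hNEG k L N H hN1 hN (le_of_eq hH) hL
  have h3 := errors_eq h H
  have h4 := noise_le_errors h H
  have h5 : L ≤ 10 * (h.card + 1) * errors h H := by
    have e1 : h.card * (noise h H + 2 * D) ≤ h.card * (errors h H + 2 * D) :=
      Nat.mul_le_mul_left _ (by omega)
    have e2 : L ≤ 5 * (h.card * (errors h H + 2 * D)) + 5 * errors h H := by omega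
    nlinarith
  exact_mod_cast h5

end WIN

end Pool.Agent.RDisj
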